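import Pool.Agent.C4h.Ff

/-!
# Graphs defined by a polynomial of bounded degree over a finite field, all sets of non-absolute vertices
-/

set_option autoImplicit false

namespace Pool.Agent.C4i

open Finset MvPolynomial

/-! ## Part 1: large degree over the prime field (the first three rows are in the library already) -/

-- BEGIN half
theorem half {V Q : Type} [AddCommGroup Q] (G : SimpleGraph V) (U : Finset V) (a : V → Q) (c : Q)
    (h1 : ∀ u ∈ U, a u + a u ≠ c) (h2 : ∀ u ∈ U, ∀ v ∈ U, G.Adj u v → a u + a v = c) :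
    ∃ I : Finset V, G.IsIndepSet (I : Set V) ∧ U.card ≤ 2 * I.card := by
  exact Pool.Agent.C4h.half G U a c h1 h2
-- END half

-- BEGIN exl
theorem exl (K F : Type) [Field K] [Fintype K] [Field F] [Fintype F] [Algebra K F] (k t : ℕ)
    (ht : t ≤ Module.finrank K F) :
    ∃ L L' : AddSubgroup F, Nat.card L = Fintype.card K ^ t ∧ Nat.card L' ≤ Fintype.card K ^ (k * t + 1) ∧
      ∀ s : Multiset F, Multiset.card s ≤ k → (∀ a ∈ s, a ∈ L) → s.prod ∈ L' := by
  exact Pool.Agent.C4h.exl K F k t ht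
-- END exl

-- BEGIN cls
theorem cls {F : Type} [Field F] [Fintype F] (d k : ℕ) (f : MvPolynomial (Fin d ⊕ Fin d) F) (hf : f.totalDegree ≤ k)
    (L L' : AddSubgroup F) (hL : ∀ s : Multiset F, Multiset.card s ≤ k → (∀ a ∈ s, a ∈ L) → s.prod ∈ L')
    (x0 : Fin d → F) :
    ∃ Wf : F → AddSubgroup F,
      (∀ (γ : F) (s s' : Fin d → F), (∀ i, s i ∈ L) → (∀ i, s' i ∈ L) →
        eval (Sum.elim (fun i => x0 i + γ * s i) (fun i => x0 i + γ * s' i)) f - eval (Sum.elim x0 x0) f ∈ Wf γ) ∧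
      ∀ c : F, c ≠ 0 → {γ : F | c ∈ Wf γ}.ncard ≤ k * Nat.card L' ^ ((k + 1) ^ (2 * d)) := by
  exact Pool.Agent.C4h.cls d k f hf L L' hL x0
-- END cls

/-- the class of `x0`: the coset `x0 + γ L ^ d` -/
def Cl {F : Type} [Field F] {d : ℕ} (L : AddSubgroup F) (x0 : Fin d → F) (γ : F) : Set (Fin d → F) :=
  {y | ∃ s : Fin d → F, (∀ i, s i ∈ L) ∧ ∀ i, y i = x0 i + γ * s i}

/-- the group generated by the differences of the values of `f` on the pairs of `C` -/
def WC {F : Type} [Field F] {d : ℕ} (f : MvPolynomial (Fin d ⊕ Fin d) F) (C : Set (Fin d → F)) : AddSubgroup F :=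
  AddSubgroup.closure {w | ∃ a ∈ C, ∃ b ∈ C, ∃ a' ∈ C, ∃ b' ∈ C, w = eval (Sum.elim a b) f - eval (Sum.elim a' b') f}

-- BEGIN cos
/-- `L` is a group. -/
theorem cos {F : Type} [Field F] {d : ℕ} (L : AddSubgroup F) (x0 y : Fin d → F) (γ : F) (hy : y ∈ Cl L x0 γ) :
    Cl L x0 γ = Cl L y γ := by
  obtain ⟨s0, hs0, hy0⟩ := hy
  ext z
  constructor
  · rintro ⟨s, hs, hz⟩
    refine ⟨fun i => s i - s0 i, fun i => L.sub_mem (hs i) (hs0 i), fun i => ?_⟩
    rw [hz i, hy0 i]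
    ring
  · rintro ⟨s, hs, hz⟩
    refine ⟨fun i => s i + s0 i, fun i => L.add_mem (hs i) (hs0 i), fun i => ?_⟩
    rw [hz i, hy0 i]
    ring
-- END cos

-- BEGIN wcb
/-- With `Wf` from `cls` at `x0`: all values are congruent to `f(x0, x0)` modulo `Wf γ`, so `WC f (Cl L x0 γ) ≤ Wf γ` (`AddSubgroup.closure_le`). -/
theorem wcb {F : Type} [Field F] [Fintype F] (d k : ℕ) (f : MvPolynomial (Fin d ⊕ Fin d) F) (hf : f.totalDegree ≤ k)
    (L L' : AddSubgroup F) (hL : ∀ s : Multiset F, Multiset.card s ≤ k → (∀ a ∈ s, a ∈ L) → s.prod ∈ L')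
    (x0 : Fin d → F) (c : F) (hc : c ≠ 0) :
    {γ : F | c ∈ WC f (Cl L x0 γ)}.ncard ≤ k * Nat.card L' ^ ((k + 1) ^ (2 * d)) := by
  obtain ⟨Wf, h1, h2⟩ := cls d k f hf L L' hL x0
  refine le_trans (Set.ncard_le_ncard (fun γ hγ => ?_) (Set.toFinite _)) (h2 c hc)
  have hle : WC f (Cl L x0 γ) ≤ Wf γ := by
    unfold WC
    rw [AddSubgroup.closure_le]
    rintro w ⟨a, ⟨sa, hsa, ha⟩, b, ⟨sb, hsb, hb⟩, a', ⟨sa', hsa', ha'⟩, b', ⟨sb', hsb', hb'⟩, rfl⟩
    obtain rfl : a = fun i => x0 i + γ * sa i := funext ha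
    obtain rfl : b = fun i => x0 i + γ * sb i := funext hb
    obtain rfl : a' = fun i => x0 i + γ * sa' i := funext ha'
    obtain rfl : b' = fun i => x0 i + γ * sb' i := funext hb'
    have e1 := h1 γ sa sb hsa hsb
    have e2 := h1 γ sa' sb' hsa' hsb'
    have := (Wf γ).sub_mem e1 e2
    rw [sub_sub_sub_cancel_right] at this
    exact this
  exact hle hγ
-- END wcb

-- BEGIN ava
private theorem ava_cls {F : Type} [Field F] [Fintype F] [DecidableEq F] (d : ℕ) (L : AddSubgroup F) (y : Fin d → F) {γ : F}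
    (hγ : γ ≠ 0) [DecidablePred fun x0 : Fin d → F => y ∈ Cl L x0 γ] :
    Nat.card L ^ d ≤ ((univ : Finset (Fin d → F)).filter fun x0 => y ∈ Cl L x0 γ).card := by
  classical
  have : Fintype L := Fintype.ofFinite L
  have h1 : Nat.card L ^ d = (univ : Finset (Fin d → L)).card := by
    rw [card_univ, Fintype.card_fun, Fintype.card_fin, Nat.card_eq_fintype_card]
  rw [h1]
  refine Finset.card_le_card_of_injOn (fun s i => y i - γ * (s i : F)) ?_ ?_
  · intro s _
    rw [mem_coe, mem_filter]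
    refine ⟨mem_univ _, fun i => (s i : F), fun i => (s i).2, fun i => ?_⟩
    show y i = y i - γ * (s i : F) + γ * (s i : F)
    ring
  · intro s _ s' _ h
    funext i
    have h2 : y i - γ * (s i : F) = y i - γ * (s' i : F) := congrFun h i
    have h3 : γ * (s i : F) = γ * (s' i : F) := by linear_combination -h2
    exact Subtype.ext (mul_left_cancel₀ hγ h3)

/-- Averaging over the pairs `(x0, γ)`, `γ ≠ 0`: the vertex `u` is in the class of `|L| ^ d` points `x0` for every `γ ≠ 0`, and `b u γ` fails for at least half of the `q - 1` values of `γ`. -/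
theorem ava {F : Type} [Field F] [Fintype F] (d : ℕ) {V : Type} [Fintype V] (x : V → Fin d → F) (L : AddSubgroup F)
    (b : V → F → Prop) (M : ℕ) (hM : ∀ u, {γ : F | b u γ}.ncard ≤ M) (h : 2 * M ≤ Fintype.card F - 1) :
    ∃ x0 : Fin d → F, ∃ γ : F, γ ≠ 0 ∧ ∃ U : Finset V, (∀ u ∈ U, x u ∈ Cl L x0 γ ∧ ¬ b u γ) ∧
      Fintype.card V * Nat.card L ^ d ≤ 2 * Fintype.card F ^ d * U.card := by
  classical
  by_contra hcon
  push Not at hcon
  have hq : 2 ≤ Fintype.card F := Fintype.one_lt_card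
  obtain ⟨A, hA⟩ : ∃ A : F → (Fin d → F) → V → ℕ, ∀ γ x0 u, A γ x0 u = if x u ∈ Cl L x0 γ ∧ ¬ b u γ then 1 else 0 :=
    ⟨fun γ x0 u => if x u ∈ Cl L x0 γ ∧ ¬ b u γ then 1 else 0, fun _ _ _ => rfl⟩
  have h1 : ∀ γ ∈ (univ : Finset F).erase 0, ∀ x0 : Fin d → F,
      2 * Fintype.card F ^ d * ∑ u, A γ x0 u < Fintype.card V * Nat.card L ^ d := by
    intro γ hγ x0
    have h2 := hcon x0 γ (ne_of_mem_erase hγ) (univ.filter fun u => x u ∈ Cl L x0 γ ∧ ¬ b u γ)
      (fun u hu => (mem_filter.1 hu).2)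
    rw [card_filter] at h2
    simpa only [hA] using h2
  have hne : ((univ : Finset F).erase 0).Nonempty := ⟨1, mem_erase.2 ⟨one_ne_zero, mem_univ _⟩⟩
  have hup : 2 * Fintype.card F ^ d * ∑ γ ∈ (univ : Finset F).erase 0, ∑ x0 : Fin d → F, ∑ u, A γ x0 u <
      (Fintype.card F - 1) * (Fintype.card F ^ d * (Fintype.card V * Nat.card L ^ d)) := by
    rw [mul_sum]
    have h2 : (Fintype.card F - 1) * (Fintype.card F ^ d * (Fintype.card V * Nat.card L ^ d)) =
        ∑ _γ ∈ (univ : Finset F).erase 0, ∑ _x0 : Fin d → F, Fintype.card V * Nat.card L ^ d := by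
      rw [sum_const, sum_const, card_erase_of_mem (mem_univ _), card_univ, card_univ, Fintype.card_fun,
        Fintype.card_fin, smul_eq_mul, smul_eq_mul]
    rw [h2]
    refine sum_lt_sum_of_nonempty hne fun γ hγ => ?_
    rw [mul_sum]
    exact sum_lt_sum_of_nonempty univ_nonempty fun x0 _ => h1 γ hγ x0
  have hlow : Fintype.card V * ((Fintype.card F - 1 - M) * Nat.card L ^ d) ≤
      ∑ γ ∈ (univ : Finset F).erase 0, ∑ x0 : Fin d → F, ∑ u, A γ x0 u := by
    have h2 : ∑ γ ∈ (univ : Finset F).erase 0, ∑ x0 : Fin d → F, ∑ u, A γ x0 u =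
        ∑ u, ∑ γ ∈ (univ : Finset F).erase 0, ∑ x0 : Fin d → F, A γ x0 u := by
      rw [sum_comm]
      rw [← sum_comm]
      calc ∑ γ ∈ (univ : Finset F).erase 0, ∑ x0 : Fin d → F, ∑ u, A γ x0 u
          = ∑ γ ∈ (univ : Finset F).erase 0, ∑ u, ∑ x0 : Fin d → F, A γ x0 u :=
            sum_congr rfl fun γ _ => sum_comm
        _ = _ := sum_comm
    rw [h2]
    have h3 : Fintype.card V * ((Fintype.card F - 1 - M) * Nat.card L ^ d) =
        ∑ _u : V, (Fintype.card F - 1 - M) * Nat.card L ^ d := by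
      rw [sum_const, card_univ, smul_eq_mul]
    rw [h3]
    refine sum_le_sum fun u _ => ?_
    have h4 : ∀ γ ∈ ((univ : Finset F).erase 0).filter (fun γ => ¬ b u γ),
        Nat.card L ^ d ≤ ∑ x0 : Fin d → F, A γ x0 u := by
      intro γ hγ
      obtain ⟨hγ1, hγ2⟩ := mem_filter.1 hγ
      refine (ava_cls d L (x u) (ne_of_mem_erase hγ1)).trans ?_
      rw [card_filter]
      refine sum_le_sum fun x0 _ => ?_
      rw [hA]
      by_cases hx : x u ∈ Cl L x0 γ
      · rw [if_pos hx, if_pos ⟨hx, hγ2⟩]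
      · rw [if_neg hx]
        exact Nat.zero_le _
    have h5 : Fintype.card F - 1 - M ≤ (((univ : Finset F).erase 0).filter (fun γ => ¬ b u γ)).card := by
      have h6 := card_filter_add_card_filter_not (s := (univ : Finset F).erase 0) (fun γ => b u γ)
      have h7 : (((univ : Finset F).erase 0).filter (fun γ => b u γ)).card ≤ M := by
        refine le_trans ?_ (hM u)
        rw [← Set.ncard_coe_finset]
        refine Set.ncard_le_ncard ?_ (Set.toFinite _)
        intro γ hγ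
        exact (mem_filter.1 (mem_coe.1 hγ)).2
      rw [card_erase_of_mem (mem_univ _), card_univ] at h6
      omega
    calc (Fintype.card F - 1 - M) * Nat.card L ^ d
        ≤ (((univ : Finset F).erase 0).filter (fun γ => ¬ b u γ)).card * Nat.card L ^ d := Nat.mul_le_mul_right _ h5
      _ = ∑ _γ ∈ ((univ : Finset F).erase 0).filter (fun γ => ¬ b u γ), Nat.card L ^ d := by
          rw [sum_const, smul_eq_mul]
      _ ≤ ∑ γ ∈ ((univ : Finset F).erase 0).filter (fun γ => ¬ b u γ), ∑ x0 : Fin d → F, A γ x0 u := sum_le_sum h4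
      _ ≤ ∑ γ ∈ (univ : Finset F).erase 0, ∑ x0 : Fin d → F, A γ x0 u :=
          sum_le_sum_of_subset (filter_subset _ _)
  have h8 : Fintype.card F - 1 ≤ 2 * (Fintype.card F - 1 - M) := by omega
  have h9 := lt_of_le_of_lt (Nat.mul_le_mul_left (2 * Fintype.card F ^ d) hlow) hup
  have h10 : (Fintype.card F - 1) * (Fintype.card F ^ d * (Fintype.card V * Nat.card L ^ d)) ≤
      2 * Fintype.card F ^ d * (Fintype.card V * ((Fintype.card F - 1 - M) * Nat.card L ^ d)) := by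
    calc (Fintype.card F - 1) * (Fintype.card F ^ d * (Fintype.card V * Nat.card L ^ d))
        ≤ 2 * (Fintype.card F - 1 - M) * (Fintype.card F ^ d * (Fintype.card V * Nat.card L ^ d)) :=
          Nat.mul_le_mul_right _ h8
      _ = _ := by ring
  exact absurd (lt_of_le_of_lt h10 h9) (lt_irrefl _)
-- END ava

-- BEGIN big
/-- `exl`, `ava` with `b u γ` = `2 z u - f(x u, x u) ∈ WC f (Cl L (x u) γ)` (`wcb`), `cos`; then `half` with `Q = F ⧸ WC f (Cl L x0 γ)`, `a u` = class of `z u`, `c` = class of `f(x0, x0)`. -/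
theorem big {K F : Type} [Field K] [Fintype K] [Field F] [Fintype F] [Algebra K F] (d k t : ℕ)
    (ht : t ≤ Module.finrank K F) (f : MvPolynomial (Fin d ⊕ Fin d) F) (hf : f.totalDegree ≤ k)
    {V : Type} [Fintype V] (G : SimpleGraph V) (x : V → Fin d → F) (z : V → F)
    (hna : ∀ u, 2 * z u ≠ eval (Sum.elim (x u) (x u)) f)
    (hG : ∀ u v, G.Adj u v → z u + z v = eval (Sum.elim (x u) (x v)) f)
    (hB : 2 * (k * Fintype.card K ^ ((k * t + 1) * (k + 1) ^ (2 * d))) ≤ Fintype.card F - 1) :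
    ∃ I : Finset V, G.IsIndepSet (I : Set V) ∧
      Fintype.card V * (Fintype.card K ^ t) ^ d ≤ 4 * Fintype.card F ^ d * I.card := by
  obtain ⟨L, L', hL1, hL2, hL3⟩ := exl K F k t ht
  have hM : ∀ u, {γ : F | 2 * z u - eval (Sum.elim (x u) (x u)) f ∈ WC f (Cl L (x u) γ)}.ncard ≤
      k * Fintype.card K ^ ((k * t + 1) * (k + 1) ^ (2 * d)) := by
    intro u
    refine (wcb d k f hf L L' hL3 (x u) _ (sub_ne_zero.2 (hna u))).trans ?_
    rw [pow_mul (Fintype.card K)]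
    exact Nat.mul_le_mul_left _ (Nat.pow_le_pow_left hL2 _)
  obtain ⟨x0, γ, hγ, U, hU, hcard⟩ := ava d x L
    (fun u γ => 2 * z u - eval (Sum.elim (x u) (x u)) f ∈ WC f (Cl L (x u) γ)) _ hM hB
  have hx0 : x0 ∈ Cl L x0 γ := ⟨fun _ => 0, fun _ => L.zero_mem, fun i => by rw [mul_zero, add_zero]⟩
  have hval : ∀ a ∈ Cl L x0 γ, ∀ c ∈ Cl L x0 γ,
      eval (Sum.elim a c) f - eval (Sum.elim x0 x0) f ∈ WC f (Cl L x0 γ) := fun a ha c hc =>
    AddSubgroup.subset_closure ⟨a, ha, c, hc, x0, hx0, x0, hx0, rfl⟩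
  have hmk : ∀ a ∈ Cl L x0 γ, ∀ c ∈ Cl L x0 γ,
      (QuotientAddGroup.mk (eval (Sum.elim a c) f) : F ⧸ WC f (Cl L x0 γ)) =
        QuotientAddGroup.mk (eval (Sum.elim x0 x0) f) := by
    intro a ha c hc
    rw [eq_comm, QuotientAddGroup.eq]
    have h1 := hval a ha c hc
    rwa [sub_eq_neg_add] at h1
  obtain ⟨I, hI, hUI⟩ := half G U (fun u => (QuotientAddGroup.mk (z u) : F ⧸ WC f (Cl L x0 γ)))
    (QuotientAddGroup.mk (eval (Sum.elim x0 x0) f)) (by
      intro u hu h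
      obtain ⟨h1, h2⟩ := hU u hu
      apply h2
      rw [← cos L x0 (x u) γ h1]
      rw [← hmk (x u) h1 (x u) h1, ← QuotientAddGroup.mk_add, eq_comm, QuotientAddGroup.eq] at h
      rwa [sub_eq_neg_add, two_mul]) (by
      intro u hu v hv huv
      show (QuotientAddGroup.mk (z u) : F ⧸ WC f (Cl L x0 γ)) + QuotientAddGroup.mk (z v) = _
      rw [← QuotientAddGroup.mk_add, hG u v huv]
      exact hmk (x u) (hU u hu).1 (x v) (hU v hv).1)
  refine ⟨I, hI, ?_⟩
  rw [← hL1]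
  calc Fintype.card V * Nat.card L ^ d ≤ 2 * Fintype.card F ^ d * U.card := hcard
    _ ≤ 2 * Fintype.card F ^ d * (2 * I.card) := Nat.mul_le_mul_left _ hUI
    _ = 4 * Fintype.card F ^ d * I.card := by ring
-- END big

/-! ## Part 2: large characteristic -/

section two

variable {p : ℕ} [Fact p.Prime]

/-- the number of pairs in `J × J` with difference `t` -/
def rr (J : Finset (ZMod p)) (t : ZMod p) : ℕ := ((J ×ˢ J).filter fun w => w.1 - w.2 = t).card

/-- the square of the absolute value of the Fourier transform of `J` -/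
noncomputable def ph (J : Finset (ZMod p)) (h : ZMod p) : ℝ := ‖∑ a ∈ J, ZMod.stdAddChar (h * a)‖ ^ 2

/-- the interval `0, 1, .., B - 1` -/
def iv (B : ℕ) : Finset (ZMod p) := (range B).image fun j : ℕ => (j : ZMod p)

-- BEGIN pav
private theorem pav_c (J : Finset (ZMod p)) (h : ZMod p) :
    ((ph J h : ℝ) : ℂ) = ∑ a ∈ J, ∑ b ∈ J, (ZMod.stdAddChar (h * (a - b)) : ℂ) := by
  unfold ph
  rw [Complex.ofReal_pow, ← Complex.mul_conj', map_sum, Finset.sum_mul_sum]
  refine Finset.sum_congr rfl fun a _ => Finset.sum_congr rfl fun b _ => ?_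
  rw [← AddChar.map_neg_eq_conj, ← AddChar.map_add_eq_mul]
  congr 1
  ring

/-- Parseval. (`AddChar.sum_eq_ite` or `ZMod.isPrimitive_stdAddChar`; `‖z‖ ^ 2 = z * conj z`.) -/
theorem pav (J : Finset (ZMod p)) : ∑ h : ZMod p, ph J h = p * J.card := by
  have h1 : ((∑ h : ZMod p, ph J h : ℝ) : ℂ) = ((p * J.card : ℝ) : ℂ) := by
    rw [Complex.ofReal_sum]
    simp_rw [pav_c]
    rw [Finset.sum_comm]
    have h2 : ∀ a ∈ J, ∑ h : ZMod p, ∑ b ∈ J, (ZMod.stdAddChar (h * (a - b)) : ℂ) = p := by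
      intro a ha
      rw [Finset.sum_comm]
      simp_rw [AddChar.sum_mulShift _ (ZMod.isPrimitive_stdAddChar p), ZMod.card, sub_eq_zero]
      simp [ha]
    rw [Finset.sum_congr rfl h2]
    simp [mul_comm]
  exact_mod_cast h1

theorem ph0 (J : Finset (ZMod p)) : ph J 0 = (J.card : ℝ) ^ 2 := by
  unfold ph
  simp
-- END pav

-- BEGIN inv
private theorem inv_c (J : Finset (ZMod p)) (h : ZMod p) :
    ((ph J h : ℝ) : ℂ) = ∑ w ∈ J ×ˢ J, (ZMod.stdAddChar (h * (w.1 - w.2)) : ℂ) := by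
  unfold ph
  rw [Complex.ofReal_pow, ← Complex.mul_conj', map_sum, Finset.sum_mul_sum, Finset.sum_product]
  refine Finset.sum_congr rfl fun a _ => Finset.sum_congr rfl fun b _ => ?_
  rw [← AddChar.map_neg_eq_conj, ← AddChar.map_add_eq_mul]
  congr 1
  ring

/-- Fourier inversion for `rr`. -/
theorem inv (J : Finset (ZMod p)) (t : ZMod p) :
    ((rr J t : ℕ) : ℂ) = (1 / (p : ℂ)) * ∑ h : ZMod p, ((ph J h : ℝ) : ℂ) * ZMod.stdAddChar (-(h * t)) := by
  have hp : (p : ℂ) ≠ 0 := by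
    exact_mod_cast (Fact.out : p.Prime).ne_zero
  have h1 : ∑ h : ZMod p, ((ph J h : ℝ) : ℂ) * ZMod.stdAddChar (-(h * t)) =
      ∑ w ∈ J ×ˢ J, if w.1 - w.2 = t then (p : ℂ) else 0 := by
    simp_rw [inv_c, Finset.sum_mul]
    rw [Finset.sum_comm]
    refine Finset.sum_congr rfl fun w _ => ?_
    have h2 : ∀ h : ZMod p, (ZMod.stdAddChar (h * (w.1 - w.2)) : ℂ) * ZMod.stdAddChar (-(h * t)) =
        ZMod.stdAddChar (h * (w.1 - w.2 - t)) := by
      intro h
      rw [← AddChar.map_add_eq_mul]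
      congr 1
      ring
    simp_rw [h2, AddChar.sum_mulShift _ (ZMod.isPrimitive_stdAddChar p), ZMod.card, sub_eq_zero]
    split_ifs <;> simp
  rw [h1, ← Finset.sum_filter, Finset.sum_const, nsmul_eq_mul]
  unfold rr
  field_simp
-- END inv

variable {F : Type} [Field F] [Fintype F] [Algebra (ZMod p) F]

-- BEGIN ort
/-- `λ ↦ τ (λ w)` is a nonzero linear functional if `w ≠ 0`, so the character `λ ↦ stdAddChar (- τ (λ w))` is not trivial (`AddChar.sum_eq_ite`). -/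
theorem ort (τ : F →ₗ[ZMod p] ZMod p) (hτ : τ ≠ 0) (w : F) :
    ∑ l : F, (ZMod.stdAddChar (-(τ (l * w))) : ℂ) = (open Classical in if w = 0 then (Fintype.card F : ℂ) else 0) := by
  classical
  let f : F →+ ZMod p := -(τ.toAddMonoidHom.comp (AddMonoidHom.mulRight w))
  have hf : ∀ l, f l = -(τ (l * w)) := fun l => rfl
  have h1 : ∑ l : F, (ZMod.stdAddChar (-(τ (l * w))) : ℂ) =
      ∑ l : F, ((ZMod.stdAddChar (N := p)).compAddMonoidHom f) l := by
    refine Finset.sum_congr rfl fun l _ => ?_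
    rw [AddChar.compAddMonoidHom_apply, hf]
  rw [h1, AddChar.sum_eq_ite]
  have h2 : (ZMod.stdAddChar (N := p)).compAddMonoidHom f = 0 ↔ w = 0 := by
    constructor
    · intro h
      by_contra hw
      apply hτ
      ext y
      have h3 : ((ZMod.stdAddChar (N := p)).compAddMonoidHom f) (y * w⁻¹) = 1 := by
        rw [h]
        rfl
      rw [AddChar.compAddMonoidHom_apply, hf, mul_assoc, inv_mul_cancel₀ hw, mul_one] at h3
      have h4 : -(τ y) = 0 := by
        apply ZMod.injective_stdAddChar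
        rw [h3, AddChar.map_zero_eq_one]
      rw [LinearMap.zero_apply]
      exact neg_eq_zero.mp h4
    · rintro rfl
      ext l
      rw [AddChar.compAddMonoidHom_apply, hf, mul_zero, map_zero, neg_zero, AddChar.map_zero_eq_one]
      rfl
  by_cases hw : w = 0
  · rw [if_pos (h2.2 hw), if_pos hw]
  · rw [if_neg (fun h => hw (h2.1 h)), if_neg hw]
-- END ort

-- BEGIN fou
private theorem fou_sum {A : Type} [AddCommMonoid A] {S : Type} (χ : AddChar A ℂ) (g : S → A) (s : Finset S) :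
    χ (∑ i ∈ s, g i) = ∏ i ∈ s, χ (g i) := by
  classical
  induction s using Finset.induction_on with
  | empty => rw [Finset.sum_empty, Finset.prod_empty, AddChar.map_zero_eq_one]
  | insert a s ha ih => rw [Finset.sum_insert ha, Finset.prod_insert ha, AddChar.map_add_eq_mul, ih]

/-- Insert `inv`, expand the product (`Finset.prod_univ_sum`, `Fintype.piFinset_univ`), exchange the sums, `∏ i, stdAddChar (-(h i * τ (l * w i))) = stdAddChar (-(τ (l * ∑ i, h i • w i)))`, `ort`. Both sides are real. -/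
theorem fou (τ : F →ₗ[ZMod p] ZMod p) (hτ : τ ≠ 0) {S : Type} [Fintype S] [DecidableEq S] (w : S → F)
    (J : S → Finset (ZMod p)) :
    ∑ l : F, ∏ i, ((rr (J i) (τ (l * w i)) : ℕ) : ℝ) = (Fintype.card F : ℝ) / p ^ Fintype.card S *
      ∑ h : S → ZMod p, (∏ i, ph (J i) (h i)) * (open Classical in if ∑ i, h i • w i = 0 then 1 else 0) := by
  classical
  have hχ : ∀ (h : S → ZMod p) (l : F),
      ∏ i, (ZMod.stdAddChar (-(h i * τ (l * w i))) : ℂ) = ZMod.stdAddChar (-(τ (l * ∑ i, h i • w i))) := by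
    intro h l
    have h1 : -(τ (l * ∑ i, h i • w i)) = ∑ i, -(h i * τ (l * w i)) := by
      rw [Finset.mul_sum, map_sum, Finset.sum_neg_distrib]
      congr 1
      refine Finset.sum_congr rfl fun i _ => ?_
      rw [mul_smul_comm, map_smul, smul_eq_mul]
    rw [h1, fou_sum]
  have hprod : ∀ l : F, ∏ i, ((rr (J i) (τ (l * w i)) : ℕ) : ℂ) =
      (1 / (p : ℂ)) ^ Fintype.card S * ∑ h : S → ZMod p,
        (∏ i, ((ph (J i) (h i) : ℝ) : ℂ)) * ZMod.stdAddChar (-(τ (l * ∑ i, h i • w i))) := by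
    intro l
    have h1 : ∀ i, ((rr (J i) (τ (l * w i)) : ℕ) : ℂ) = (1 / (p : ℂ)) * ∑ h : ZMod p,
        ((ph (J i) h : ℝ) : ℂ) * ZMod.stdAddChar (-(h * τ (l * w i))) := fun i => inv (J i) (τ (l * w i))
    rw [Finset.prod_congr rfl fun i _ => h1 i, Finset.prod_mul_distrib, Finset.prod_const, Finset.card_univ,
      Finset.prod_univ_sum, Fintype.piFinset_univ]
    congr 1
    refine Finset.sum_congr rfl fun h _ => ?_
    rw [Finset.prod_mul_distrib, hχ h l]
  apply Complex.ofReal_injective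
  rw [Complex.ofReal_sum, Finset.sum_congr rfl fun l _ => (Complex.ofReal_prod _ _).trans
    ((Finset.prod_congr rfl fun i _ => Complex.ofReal_natCast _).trans (hprod l)), ← Finset.mul_sum,
    Finset.sum_comm]
  have h2 : ∀ h : S → ZMod p, ∑ l : F, (∏ i, ((ph (J i) (h i) : ℝ) : ℂ)) *
      ZMod.stdAddChar (-(τ (l * ∑ i, h i • w i))) = (Fintype.card F : ℂ) *
        (((∏ i, ph (J i) (h i)) * (if ∑ i, h i • w i = 0 then 1 else 0) : ℝ) : ℂ) := by
    intro h
    rw [← Finset.mul_sum, ort τ hτ (∑ i, h i • w i)]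
    by_cases h0 : ∑ i, h i • w i = 0
    · rw [if_pos h0, if_pos h0, mul_one, Complex.ofReal_prod, mul_comm]
    · rw [if_neg h0, if_neg h0, mul_zero, mul_zero, Complex.ofReal_zero, mul_zero]
  rw [Finset.sum_congr rfl fun h _ => h2 h, ← Finset.mul_sum, ← Complex.ofReal_sum]
  push_cast
  ring
-- END fou

-- BEGIN low
/-- The term `h = 0` of `fou` (`ph0`, all terms are `≥ 0`). -/
theorem low (τ : F →ₗ[ZMod p] ZMod p) (hτ : τ ≠ 0) {S : Type} [Fintype S] [DecidableEq S] (w : S → F)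
    (J : Finset (ZMod p)) :
    (Fintype.card F : ℝ) / p ^ Fintype.card S * ((J.card : ℝ) ^ 2) ^ Fintype.card S ≤
      ∑ l : F, ∏ i, ((rr J (τ (l * w i)) : ℕ) : ℝ) := by
  classical
  rw [fou τ hτ w (fun _ => J)]
  apply mul_le_mul_of_nonneg_left _ (by positivity)
  have hph : ∀ h : ZMod p, 0 ≤ ph J h := fun h => by unfold ph; positivity
  have h0 : ((J.card : ℝ) ^ 2) ^ Fintype.card S =
      (∏ i : S, ph J ((0 : S → ZMod p) i)) * (if ∑ i, (0 : S → ZMod p) i • w i = 0 then 1 else 0) := by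
    have h1 : ∑ i, (0 : S → ZMod p) i • w i = 0 := by simp
    rw [if_pos h1, mul_one]
    simp [ph0, Finset.prod_const]
  rw [h0]
  have := Finset.single_le_sum (f := fun h : S → ZMod p => (∏ i, ph J (h i)) * (if ∑ i, h i • w i = 0 then 1 else 0))
    (fun h _ => mul_nonneg (Finset.prod_nonneg fun i _ => hph _) (by split_ifs <;> norm_num)) (Finset.mem_univ (0 : S → ZMod p))
  convert this using 2
-- END low

/-- the part of the count that comes from the relations with `h0 ≠ 0` -/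
noncomputable def Er (J' : Finset (ZMod p)) {S : Type} [Fintype S] [DecidableEq S] (w : S → F) (J : Finset (ZMod p)) (c : F) : ℝ :=
  ∑ h0 : ZMod p, ∑ h : S → ZMod p, (if h0 = 0 then 0 else ph J' h0 * ∏ i, ph J (h i)) *
    (open Classical in if h0 • c + ∑ i, h i • w i = 0 then 1 else 0)

-- BEGIN spt
/-- `fou` for the index type `Option S` with `w none = c`, `J none = J'` (`Fintype.prod_option`, `Fintype.sum_option`, the functions `Option S → ZMod p` are pairs `(h0, h)`: `Equiv.piOptionEquivProd`),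
and `fou` for `S`: the part `h0 = 0` is `|J'| ^ 2 / p` times the sum without `c` (`ph0`). -/
theorem spt (τ : F →ₗ[ZMod p] ZMod p) (hτ : τ ≠ 0) {S : Type} [Fintype S] [DecidableEq S] (w : S → F)
    (J J' : Finset (ZMod p)) (c : F) :
    ∑ l : F, (∏ i, ((rr J (τ (l * w i)) : ℕ) : ℝ)) * ((rr J' (τ (l * c)) : ℕ) : ℝ) =
      (J'.card : ℝ) ^ 2 / p * ∑ l : F, ∏ i, ((rr J (τ (l * w i)) : ℕ) : ℝ) +
      (Fintype.card F : ℝ) / p ^ (Fintype.card S + 1) * Er J' w J c := by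
  classical
  have hp0 : (p : ℝ) ≠ 0 := by exact_mod_cast (Fact.out : p.Prime).ne_zero
  have h1 := fou τ hτ (S := Option S) (fun o => o.elim c w) (fun o => o.elim J' (fun _ => J))
  have hL : ∑ l : F, (∏ i, ((rr J (τ (l * w i)) : ℕ) : ℝ)) * ((rr J' (τ (l * c)) : ℕ) : ℝ) =
      ∑ l : F, ∏ o : Option S, ((rr (o.elim J' (fun _ => J)) (τ (l * o.elim c w)) : ℕ) : ℝ) := by
    refine Finset.sum_congr rfl fun l _ => ?_
    rw [Fintype.prod_option]
    simp only [Option.elim]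
    rw [mul_comm]
  have hR : ∑ h : Option S → ZMod p, (∏ o, ph (o.elim J' (fun _ => J)) (h o)) *
      (if ∑ o, h o • (o.elim c w : F) = 0 then (1 : ℝ) else 0) =
      (J'.card : ℝ) ^ 2 * (∑ h : S → ZMod p, (∏ i, ph J (h i)) * (if ∑ i, h i • w i = 0 then (1 : ℝ) else 0)) +
        Er J' w J c := by
    have e1 : ∑ h : Option S → ZMod p, (∏ o, ph (o.elim J' (fun _ => J)) (h o)) *
        (if ∑ o, h o • (o.elim c w : F) = 0 then (1 : ℝ) else 0) =
        ∑ h0 : ZMod p, ∑ h : S → ZMod p, (ph J' h0 * ∏ i, ph J (h i)) *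
          (if h0 • c + ∑ i, h i • w i = 0 then (1 : ℝ) else 0) := by
      rw [← Fintype.sum_prod_type']
      refine Fintype.sum_equiv (Equiv.piOptionEquivProd (β := fun _ : Option S => ZMod p)) _ _ fun h => ?_
      rw [Fintype.prod_option, Fintype.sum_option]
      rfl
    rw [e1]
    have e2 : (J'.card : ℝ) ^ 2 * (∑ h : S → ZMod p, (∏ i, ph J (h i)) * (if ∑ i, h i • w i = 0 then (1 : ℝ) else 0)) =
        ∑ h0 : ZMod p, ∑ h : S → ZMod p, (if h0 = 0 then ph J' h0 * ∏ i, ph J (h i) else 0) *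
          (if h0 • c + ∑ i, h i • w i = 0 then (1 : ℝ) else 0) := by
      rw [Finset.sum_eq_single (0 : ZMod p)]
      · rw [Finset.mul_sum]
        refine Finset.sum_congr rfl fun h _ => ?_
        rw [if_pos rfl, ph0, zero_smul, zero_add]
        ring
      · intro h0 _ hne
        refine Finset.sum_eq_zero fun h _ => ?_
        rw [if_neg hne, zero_mul]
      · intro h0
        exact absurd (Finset.mem_univ _) h0
    rw [e2]
    unfold Er
    rw [← Finset.sum_add_distrib]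
    refine Finset.sum_congr rfl fun h0 _ => ?_
    rw [← Finset.sum_add_distrib]
    refine Finset.sum_congr rfl fun h _ => ?_
    rw [← add_mul]
    congr 1
    by_cases h00 : h0 = 0
    · simp [h00]
    · simp [h00]
  have h2 := fou τ hτ w (fun _ => J)
  have h3 : ∑ h : S → ZMod p, (∏ i, ph J (h i)) * (open Classical in if ∑ i, h i • w i = 0 then (1 : ℝ) else 0) =
      ∑ h : S → ZMod p, (∏ i, ph J (h i)) * (if ∑ i, h i • w i = 0 then (1 : ℝ) else 0) := by
    refine Finset.sum_congr rfl fun h _ => ?_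
    congr 1
  have h4 : ∑ h : Option S → ZMod p, (∏ o, ph (o.elim J' (fun _ => J)) (h o)) *
      (open Classical in if ∑ o, h o • (o.elim c w : F) = 0 then (1 : ℝ) else 0) =
      ∑ h : Option S → ZMod p, (∏ o, ph (o.elim J' (fun _ => J)) (h o)) *
      (if ∑ o, h o • (o.elim c w : F) = 0 then (1 : ℝ) else 0) := by
    refine Finset.sum_congr rfl fun h _ => ?_
    congr 1
  rw [hL, h1, h4, hR, h2, h3, Fintype.card_option, pow_succ]
  field_simp
-- END spt

-- BEGIN ers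
private theorem ers_root (P : Polynomial F) (k : ℕ) (h0 : P.coeff 0 ≠ 0) (hk : P.natDegree ≤ k) :
    ∑ γ : F, (open Classical in if P.eval γ = 0 then (1 : ℝ) else 0) ≤ k := by
  classical
  have hP : P ≠ 0 := by
    rintro rfl
    exact h0 (Polynomial.coeff_zero 0)
  rw [Finset.sum_boole]
  have h1 : ((univ : Finset F).filter fun γ => P.eval γ = 0) ⊆ P.roots.toFinset := by
    intro γ hγ
    rw [Multiset.mem_toFinset, Polynomial.mem_roots hP]
    exact (mem_filter.1 hγ).2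
  have h2 := (card_le_card h1).trans ((Multiset.toFinset_card_le _).trans ((Polynomial.card_roots' P).trans hk))
  exact_mod_cast h2

/-- For `h0 ≠ 0` the polynomial `C (h0 • c) + ∑ i, h i • g i` has constant coefficient `h0 • c ≠ 0` and degree `≤ k`: at most `k` roots `γ` (if `k = 0`: none). Exchange the sums; `pav` and
`∑ h : S → ZMod p, ∏ i, ph J (h i) = (∑ h, ph J h) ^ |S|`. -/
theorem ers (J' : Finset (ZMod p)) {S : Type} [Fintype S] [DecidableEq S] (g : S → Polynomial F) (k : ℕ)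
    (hg : ∀ i, (g i).natDegree ≤ k ∧ (g i).coeff 0 = 0) (J : Finset (ZMod p)) (c : F) (hc : c ≠ 0) :
    ∑ γ : F, Er J' (fun i => (g i).eval γ) J c ≤ k * ((p * J'.card) * (p * J.card : ℝ) ^ Fintype.card S) := by
  classical
  have hph : ∀ (J : Finset (ZMod p)) (h : ZMod p), 0 ≤ ph J h := fun J h => sq_nonneg _
  have h1 : ∑ γ : F, Er J' (fun i => (g i).eval γ) J c =
      ∑ h0 : ZMod p, ∑ h : S → ZMod p, (if h0 = 0 then 0 else ph J' h0 * ∏ i, ph J (h i)) *
        ∑ γ : F, (open Classical in if h0 • c + ∑ i, h i • (g i).eval γ = 0 then 1 else 0) := by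
    unfold Er
    rw [sum_comm]
    refine sum_congr rfl fun h0 _ => ?_
    rw [sum_comm]
    refine sum_congr rfl fun h _ => ?_
    rw [mul_sum]
  have h2 : ∀ (h0 : ZMod p) (h : S → ZMod p),
      (if h0 = 0 then 0 else ph J' h0 * ∏ i, ph J (h i)) *
        ∑ γ : F, (open Classical in if h0 • c + ∑ i, h i • (g i).eval γ = 0 then (1 : ℝ) else 0) ≤
      (ph J' h0 * ∏ i, ph J (h i)) * k := by
    intro h0 h
    have h3 : 0 ≤ ph J' h0 * ∏ i, ph J (h i) := mul_nonneg (hph _ _) (prod_nonneg fun i _ => hph _ _)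
    by_cases hz : h0 = 0
    · rw [if_pos hz, zero_mul]
      exact mul_nonneg h3 (Nat.cast_nonneg k)
    · rw [if_neg hz]
      refine mul_le_mul_of_nonneg_left ?_ h3
      have h4 : ∀ γ : F, (Polynomial.C (h0 • c) + ∑ i, Polynomial.C (algebraMap (ZMod p) F (h i)) * g i).eval γ =
          h0 • c + ∑ i, h i • (g i).eval γ := by
        intro γ
        rw [Polynomial.eval_add, Polynomial.eval_C, Polynomial.eval_finsetSum]
        congr 1
        refine sum_congr rfl fun i _ => ?_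
        rw [Polynomial.eval_mul, Polynomial.eval_C, Algebra.smul_def]
      have h5 := ers_root (Polynomial.C (h0 • c) + ∑ i, Polynomial.C (algebraMap (ZMod p) F (h i)) * g i) k ?_ ?_
      · simpa only [h4] using h5
      · rw [Polynomial.coeff_add, Polynomial.coeff_C_zero, Polynomial.finsetSum_coeff]
        have h6 : ∑ i, (Polynomial.C (algebraMap (ZMod p) F (h i)) * g i).coeff 0 = 0 := by
          refine sum_eq_zero fun i _ => ?_
          rw [Polynomial.coeff_C_mul, (hg i).2, mul_zero]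
        rw [h6, add_zero]
        exact smul_ne_zero hz hc
      · refine (Polynomial.natDegree_add_le _ _).trans (max_le ?_ ?_)
        · rw [Polynomial.natDegree_C]
          exact Nat.zero_le _
        · refine Polynomial.natDegree_sum_le_of_forall_le _ _ fun i _ => ?_
          exact (Polynomial.natDegree_C_mul_le _ _).trans (hg i).1
  have h7 : ∑ h : S → ZMod p, ∏ i, ph J (h i) = (p * J.card : ℝ) ^ Fintype.card S := by
    have h8 := (Finset.prod_univ_sum (fun _ : S => (univ : Finset (ZMod p))) (fun _ a => ph J a)).symm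
    rw [Fintype.piFinset_univ] at h8
    rw [h8, pav, prod_const, card_univ]
  rw [h1]
  calc ∑ h0 : ZMod p, ∑ h : S → ZMod p, (if h0 = 0 then 0 else ph J' h0 * ∏ i, ph J (h i)) *
        ∑ γ : F, (open Classical in if h0 • c + ∑ i, h i • (g i).eval γ = 0 then (1 : ℝ) else 0)
      ≤ ∑ h0 : ZMod p, ∑ h : S → ZMod p, (ph J' h0 * ∏ i, ph J (h i)) * k :=
        sum_le_sum fun h0 _ => sum_le_sum fun h _ => h2 h0 h
    _ = k * ((∑ h0 : ZMod p, ph J' h0) * ∑ h : S → ZMod p, ∏ i, ph J (h i)) := by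
        rw [sum_mul, mul_sum]
        refine sum_congr rfl fun h0 _ => ?_
        rw [mul_sum, mul_sum]
        exact sum_congr rfl fun h _ => by ring
    _ = k * ((p * J'.card) * (p * J.card : ℝ) ^ Fintype.card S) := by rw [pav, h7]
-- END ers

-- BEGIN riv
private theorem riv_inj {B : ℕ} (hB : B ≤ p) {i j : ℕ} (hi : i < B) (hj : j < B)
    (h : ((i : ℕ) : ZMod p) = ((j : ℕ) : ZMod p)) : i = j := by
  have h1 := (ZMod.natCast_eq_natCast_iff' i j p).1 h
  rwa [Nat.mod_eq_of_lt (by omega), Nat.mod_eq_of_lt (by omega)] at h1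

/-- `B ≤ p`: `iv B` has `B` elements; differences of its elements have `|valMinAbs| < B` if `2 B ≤ p`. -/
theorem riv (B : ℕ) (hB : 2 * B ≤ p) : (iv B : Finset (ZMod p)).card = B ∧
    ∀ t : ZMod p, rr (iv B) t ≠ 0 → t.valMinAbs.natAbs < B := by
  constructor
  · unfold iv
    rw [Finset.card_image_of_injOn, Finset.card_range]
    intro i hi j hj h
    rw [Finset.coe_range, Set.mem_Iio] at hi hj
    exact riv_inj (p := p) (by omega) hi hj h
  · intro t ht
    unfold rr at ht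
    obtain ⟨w, hw⟩ := Finset.card_pos.1 (Nat.pos_of_ne_zero ht)
    rw [Finset.mem_filter, Finset.mem_product] at hw
    obtain ⟨⟨h1, h2⟩, h3⟩ := hw
    unfold iv at h1 h2
    obtain ⟨i, hi, hi'⟩ := Finset.mem_image.1 h1
    obtain ⟨j, hj, hj'⟩ := Finset.mem_image.1 h2
    rw [Finset.mem_range] at hi hj
    have e : t.valMinAbs = (i : ℤ) - j := by
      rw [ZMod.valMinAbs_spec]
      refine ⟨?_, ?_, ?_⟩
      · rw [← h3, ← hi', ← hj']
        push_cast
        rfl
      · omega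
      · omega
    rw [e]
    omega

/-- For `|t| ≤ B / 2` there are `B - |t| ≥ B / 2` pairs with difference `t`. -/
theorem riw (B : ℕ) (hB : 2 * B ≤ p) (t : ZMod p) (ht : 2 * t.valMinAbs.natAbs ≤ B) : B ≤ 2 * rr (iv B) t := by
  obtain ⟨n, hn⟩ : ∃ n, t.valMinAbs.natAbs = n := ⟨_, rfl⟩
  rw [hn] at ht
  have hmem : ∀ i : ℕ, i < B → ((i : ℕ) : ZMod p) ∈ (iv B : Finset (ZMod p)) := by
    intro i hi
    unfold iv
    exact Finset.mem_image.2 ⟨i, Finset.mem_range.2 hi, rfl⟩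
  have key : (Finset.range (B - n)).card ≤ rr (iv B) t := by
    unfold rr
    rcases Int.natAbs_eq t.valMinAbs with h | h
    · rw [hn] at h
      have e : t = ((n : ℕ) : ZMod p) := by
        rw [← ZMod.coe_valMinAbs t, h]
        push_cast
        rfl
      refine Finset.card_le_card_of_injOn
        (fun i : ℕ => (((i + n : ℕ) : ZMod p), ((i : ℕ) : ZMod p))) ?_ ?_
      · intro i hi
        rw [Finset.coe_range, Set.mem_Iio] at hi
        rw [Finset.mem_coe, Finset.mem_filter, Finset.mem_product]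
        refine ⟨⟨hmem _ (by omega), hmem _ (by omega)⟩, ?_⟩
        rw [e]
        push_cast
        ring
      · intro i hi j hj hij
        rw [Finset.coe_range, Set.mem_Iio] at hi hj
        exact riv_inj (p := p) (B := B) (by omega) (by omega) (by omega) (congrArg Prod.snd hij)
    · rw [hn] at h
      have e : t = -((n : ℕ) : ZMod p) := by
        rw [← ZMod.coe_valMinAbs t, h]
        push_cast
        rfl
      refine Finset.card_le_card_of_injOn
        (fun i : ℕ => (((i : ℕ) : ZMod p), ((i + n : ℕ) : ZMod p))) ?_ ?_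
      · intro i hi
        rw [Finset.coe_range, Set.mem_Iio] at hi
        rw [Finset.mem_coe, Finset.mem_filter, Finset.mem_product]
        refine ⟨⟨hmem _ (by omega), hmem _ (by omega)⟩, ?_⟩
        rw [e]
        push_cast
        ring
      · intro i hi j hj hij
        rw [Finset.coe_range, Set.mem_Iio] at hi hj
        exact riv_inj (p := p) (B := B) (by omega) (by omega) (by omega) (congrArg Prod.fst hij)
  rw [Finset.card_range] at key
  omega
-- END riv

/-- the coefficient of the monomial `m` of the polynomial `f(x0 + .)` -/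
noncomputable def cm {ι : Type} [Fintype ι] (f : MvPolynomial ι F) (x0 : ι → F) (m : ι → ℕ) : F :=
  ∑ n ∈ f.support, f.coeff n * ∏ i, (((n i).choose (m i) : ℕ) : F) * x0 i ^ (n i - m i)

-- BEGIN she
omit [Fintype F] in
private theorem she_one (a b γ : F) (k n : ℕ) (hn : n ≤ k) :
    (a + γ * b) ^ n = ∑ j : Fin (k + 1), ((n.choose (j : ℕ) : ℕ) : F) * a ^ (n - (j : ℕ)) * (γ ^ (j : ℕ) * b ^ (j : ℕ)) := by
  rw [add_comm, add_pow, Fin.sum_univ_eq_sum_range (fun j => ((n.choose j : ℕ) : F) * a ^ (n - j) * (γ ^ j * b ^ j)) (k + 1)]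
  rw [← Finset.sum_subset (Finset.range_subset_range.2 (by omega : n + 1 ≤ k + 1))]
  · refine Finset.sum_congr rfl fun j _ => ?_
    rw [mul_pow]
    ring
  · intro j _ hj
    rw [Finset.mem_range, not_lt] at hj
    rw [Nat.choose_eq_zero_of_lt (by omega)]
    simp

omit [Fintype F] in
private theorem she_deg {ι : Type} [Fintype ι] (f : MvPolynomial ι F) (k : ℕ) (hf : f.totalDegree ≤ k) (n : ι →₀ ℕ)
    (hn : n ∈ f.support) (i : ι) : n i ≤ k := by
  classical
  have h1 : (n.sum fun _ e => e) ≤ f.totalDegree := le_totalDegree hn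
  have h2 : n i ≤ n.sum fun _ e => e := by
    by_cases hi : i ∈ n.support
    · exact Finset.single_le_sum (f := fun i => n i) (fun _ _ => Nat.zero_le _) hi
    · rw [Finsupp.notMem_support_iff] at hi
      omega
  omega

/-- The binomial theorem in every variable (all exponents of `f` are `≤ k`), `Finset.prod_univ_sum`. -/
theorem she {ι : Type} [Fintype ι] [DecidableEq ι] (f : MvPolynomial ι F) (k : ℕ) (hf : f.totalDegree ≤ k) (x0 t : ι → F) (γ : F) :
    eval (fun i => x0 i + γ * t i) f =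
      ∑ m : ι → Fin (k + 1), γ ^ (∑ i, (m i : ℕ)) * cm f x0 (fun i => (m i : ℕ)) * ∏ i, t i ^ (m i : ℕ) := by
  rw [eval_eq']
  have h1 : ∀ n ∈ f.support, f.coeff n * ∏ i, (x0 i + γ * t i) ^ n i =
      ∑ m : ι → Fin (k + 1), f.coeff n * ∏ i, ((((n i).choose (m i : ℕ) : ℕ) : F) * x0 i ^ (n i - (m i : ℕ)) *
        (γ ^ (m i : ℕ) * t i ^ (m i : ℕ))) := by
    intro n hn
    have h2 : ∀ i, (x0 i + γ * t i) ^ n i = ∑ j : Fin (k + 1), (((n i).choose (j : ℕ) : ℕ) : F) *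
        x0 i ^ (n i - (j : ℕ)) * (γ ^ (j : ℕ) * t i ^ (j : ℕ)) := fun i =>
      she_one (x0 i) (t i) γ k (n i) (she_deg f k hf n hn i)
    simp only [h2]
    rw [Finset.prod_univ_sum, Fintype.piFinset_univ, Finset.mul_sum]
  rw [Finset.sum_congr rfl h1, Finset.sum_comm]
  refine Finset.sum_congr rfl fun m _ => ?_
  unfold cm
  rw [Finset.mul_sum, Finset.sum_mul]
  refine Finset.sum_congr rfl fun n _ => ?_
  rw [Finset.prod_mul_distrib, Finset.prod_mul_distrib, Finset.prod_mul_distrib,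
    Finset.prod_pow_eq_pow_sum]
  ring

theorem sh0 {ι : Type} [Fintype ι] (f : MvPolynomial ι F) (x0 : ι → F) : cm f x0 (fun _ => 0) = eval x0 f := by
  rw [eval_eq']
  unfold cm
  simp
-- END she

-- BEGIN shp
/-- The polynomial `T ^ |m| * ∑ n, C (f.coeff n) * ∏ i, C (choose (n i) (m i)) * (C (x i) - C (s i) * T) ^ (n i - m i)`; the terms with `m ≤ n` have degree `≤ |m| + ∑ (n i - m i) = |n| ≤ k`, the others are zero. -/
theorem shp {ι : Type} [Fintype ι] (f : MvPolynomial ι F) (k : ℕ) (hf : f.totalDegree ≤ k) (x s : ι → F) (m : ι → ℕ)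
    (hm : m ≠ 0) :
    ∃ g : Polynomial F, g.natDegree ≤ k ∧ g.coeff 0 = 0 ∧
      ∀ γ : F, g.eval γ = γ ^ (∑ i, m i) * cm f (fun i => x i - γ * s i) m := by
  classical
  have hev : ∀ γ : F, (∑ n ∈ f.support, Polynomial.X ^ (∑ i, m i) * (Polynomial.C (f.coeff n) *
      ∏ i, (Polynomial.C (((n i).choose (m i) : ℕ) : F) *
        (Polynomial.C (x i) - Polynomial.C (s i) * Polynomial.X) ^ (n i - m i)))).eval γ =
      γ ^ (∑ i, m i) * cm f (fun i => x i - γ * s i) m := by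
    intro γ
    unfold cm
    rw [Polynomial.eval_finsetSum, Finset.mul_sum]
    refine Finset.sum_congr rfl fun n _ => ?_
    rw [Polynomial.eval_mul, Polynomial.eval_mul, Polynomial.eval_prod]
    simp only [Polynomial.eval_mul, Polynomial.eval_pow, Polynomial.eval_sub, Polynomial.eval_C,
      Polynomial.eval_X]
    congr 2
    refine Finset.prod_congr rfl fun i _ => ?_
    rw [mul_comm (s i) γ]
  refine ⟨_, ?_, ?_, hev⟩
  · refine Polynomial.natDegree_sum_le_of_forall_le _ _ fun n hn => ?_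
    by_cases hmn : ∀ i, m i ≤ n i
    · have hdeg : ∑ i, n i ≤ k := by
        have h1 := MvPolynomial.le_totalDegree hn
        rw [Finsupp.sum_fintype _ _ (fun _ => rfl)] at h1
        exact h1.trans hf
      have h2 : (∏ i, (Polynomial.C (((n i).choose (m i) : ℕ) : F) *
          (Polynomial.C (x i) - Polynomial.C (s i) * Polynomial.X) ^ (n i - m i))).natDegree ≤
          ∑ i, (n i - m i) := by
        refine (Polynomial.natDegree_prod_le _ _).trans (Finset.sum_le_sum fun i _ => ?_)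
        refine (Polynomial.natDegree_C_mul_le _ _).trans ?_
        refine (Polynomial.natDegree_pow_le).trans ?_
        have h3 : (Polynomial.C (x i) - Polynomial.C (s i) * Polynomial.X : Polynomial F).natDegree ≤ 1 := by
          refine (Polynomial.natDegree_sub_le _ _).trans ?_
          rw [Polynomial.natDegree_C]
          refine max_le (Nat.zero_le _) ?_
          exact (Polynomial.natDegree_C_mul_le _ _).trans Polynomial.natDegree_X_le
        calc (n i - m i) * _ ≤ (n i - m i) * 1 := Nat.mul_le_mul_left _ h3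
          _ = n i - m i := Nat.mul_one _
      have h4 : ∑ i, m i + ∑ i, (n i - m i) = ∑ i, n i := by
        rw [← Finset.sum_add_distrib]
        refine Finset.sum_congr rfl fun i _ => ?_
        have := hmn i
        omega
      refine (Polynomial.natDegree_mul_le).trans ?_
      refine le_trans (Nat.add_le_add (Polynomial.natDegree_X_pow_le _)
        ((Polynomial.natDegree_C_mul_le _ _).trans h2)) ?_
      omega
    · obtain ⟨i, hi'⟩ := not_forall.1 hmn
      have hi : n i < m i := not_le.1 hi'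
      have h0 : (∏ i, (Polynomial.C (((n i).choose (m i) : ℕ) : F) *
          (Polynomial.C (x i) - Polynomial.C (s i) * Polynomial.X) ^ (n i - m i))) = 0 := by
        refine Finset.prod_eq_zero (Finset.mem_univ i) ?_
        rw [Nat.choose_eq_zero_of_lt hi]
        simp
      rw [h0]
      simp
  · rw [Polynomial.coeff_zero_eq_eval_zero, hev]
    have h5 : ∑ i, m i ≠ 0 := by
      intro h
      apply hm
      funext i
      exact (Finset.sum_eq_zero_iff.1 h) i (Finset.mem_univ i)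
    rw [zero_pow h5, zero_mul]
-- END shp

/-- the exponents, not all zero -/
abbrev Sx (d k : ℕ) : Type := {m : Fin d ⊕ Fin d → Fin (k + 1) // m ≠ 0}

/-- the coefficients of `f` on the class of `x0` and `γ` -/
noncomputable def wv {d k : ℕ} (f : MvPolynomial (Fin d ⊕ Fin d) F) (x0 : Fin d → F) (γ : F) (m : Sx d k) : F :=
  γ ^ (∑ i, (m.1 i : ℕ)) * cm f (Sum.elim x0 x0) (fun i => (m.1 i : ℕ))

-- BEGIN pub
omit [Fintype F] in
private theorem pub_0 (J' : Finset (ZMod p)) {S : Type} [Fintype S] [DecidableEq S] (w : S → F)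
    (J : Finset (ZMod p)) (c : F) : 0 ≤ Er J' w J c := by
  unfold Er
  refine sum_nonneg fun h0 _ => sum_nonneg fun h _ => mul_nonneg ?_ ?_
  · split_ifs
    · exact le_rfl
    · exact mul_nonneg (sq_nonneg _) (prod_nonneg fun i _ => sq_nonneg _)
  · split_ifs
    · exact zero_le_one
    · exact le_rfl

private theorem pub_1 (τ : F →ₗ[ZMod p] ZMod p) (hτ : τ ≠ 0) {S : Type} [Fintype S] [DecidableEq S] (w : S → F)
    (B B' : ℕ) (hB : 1 ≤ B) (hB1 : 1 ≤ B') (hBp : 2 * B ≤ p) (hB' : 2 * B' ≤ p) (c : F) :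
    (∑ l : F, (∏ i, ((rr (iv B) (τ (l * w i)) : ℕ) : ℝ)) *
        (if 2 * (τ (l * c)).valMinAbs.natAbs ≤ B' then 1 else 0)) /
      ∑ l : F, ∏ i, ((rr (iv B) (τ (l * w i)) : ℕ) : ℝ) ≤
    2 * B' / p + 2 / (B' * p * ((B : ℝ) ^ 2) ^ Fintype.card S) * Er (iv B' : Finset (ZMod p)) w (iv B) c := by
  have hp : (0 : ℝ) < p := by
    have := (Fact.out : p.Prime).pos
    exact_mod_cast this
  have hBr : (0 : ℝ) < B := by exact_mod_cast hB
  have hBr' : (0 : ℝ) < B' := by exact_mod_cast hB1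
  have hq : (0 : ℝ) < Fintype.card F := by
    exact_mod_cast Fintype.card_pos
  have hE := pub_0 (iv B' : Finset (ZMod p)) w (iv B) c
  obtain ⟨A, hA⟩ : ∃ A : ℝ, A = ∑ l : F, ∏ i, ((rr (iv B) (τ (l * w i)) : ℕ) : ℝ) := ⟨_, rfl⟩
  have hL : (Fintype.card F : ℝ) / p ^ Fintype.card S * ((B : ℝ) ^ 2) ^ Fintype.card S ≤ A := by
    have h := low τ hτ w (iv B)
    rw [(riv B hBp).1] at h
    rw [hA]
    exact h
  have hL0 : 0 < (Fintype.card F : ℝ) / p ^ Fintype.card S * ((B : ℝ) ^ 2) ^ Fintype.card S := by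
    positivity
  have hA0 : 0 < A := lt_of_lt_of_le hL0 hL
  rw [← hA, div_le_iff₀ hA0]
  have h1 : ∑ l : F, (∏ i, ((rr (iv B) (τ (l * w i)) : ℕ) : ℝ)) *
        (if 2 * (τ (l * c)).valMinAbs.natAbs ≤ B' then 1 else 0) ≤
      ∑ l : F, (2 / (B' : ℝ)) * ((∏ i, ((rr (iv B) (τ (l * w i)) : ℕ) : ℝ)) *
        ((rr (iv B') (τ (l * c)) : ℕ) : ℝ)) := by
    refine sum_le_sum fun l _ => ?_
    have h0 : (0 : ℝ) ≤ ∏ i, ((rr (iv B) (τ (l * w i)) : ℕ) : ℝ) :=
      prod_nonneg fun i _ => Nat.cast_nonneg _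
    have h2 : (if 2 * (τ (l * c)).valMinAbs.natAbs ≤ B' then (1 : ℝ) else 0) ≤
        2 / (B' : ℝ) * ((rr (iv B') (τ (l * c)) : ℕ) : ℝ) := by
      split_ifs with hc
      · have h3 := riw B' hB' (τ (l * c)) hc
        have h4 : (B' : ℝ) ≤ 2 * ((rr (iv B') (τ (l * c)) : ℕ) : ℝ) := by exact_mod_cast h3
        rw [div_mul_eq_mul_div, le_div_iff₀ hBr', one_mul]
        exact h4
      · positivity
    have h5 := mul_le_mul_of_nonneg_left h2 h0
    refine h5.trans (le_of_eq ?_)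
    ring
  refine h1.trans ?_
  rw [← mul_sum, spt τ hτ w (iv B) (iv B') c, ← hA, (riv B' hB').1]
  have h6 : (Fintype.card F : ℝ) / p ^ (Fintype.card S + 1) * Er (iv B' : Finset (ZMod p)) w (iv B) c ≤
      1 / (p * ((B : ℝ) ^ 2) ^ Fintype.card S) * Er (iv B' : Finset (ZMod p)) w (iv B) c * A := by
    have h7 : (Fintype.card F : ℝ) / p ^ (Fintype.card S + 1) * Er (iv B' : Finset (ZMod p)) w (iv B) c =
        1 / (p * ((B : ℝ) ^ 2) ^ Fintype.card S) * Er (iv B' : Finset (ZMod p)) w (iv B) c *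
          ((Fintype.card F : ℝ) / p ^ Fintype.card S * ((B : ℝ) ^ 2) ^ Fintype.card S) := by
      field_simp
      ring
    rw [h7]
    exact mul_le_mul_of_nonneg_left hL (mul_nonneg (by positivity) hE)
  have h8 : 2 / (B' : ℝ) * ((B' : ℝ) ^ 2 / p * A + (Fintype.card F : ℝ) / p ^ (Fintype.card S + 1) *
      Er (iv B' : Finset (ZMod p)) w (iv B) c) ≤ 2 / (B' : ℝ) * ((B' : ℝ) ^ 2 / p * A +
        1 / (p * ((B : ℝ) ^ 2) ^ Fintype.card S) * Er (iv B' : Finset (ZMod p)) w (iv B) c * A) :=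
    mul_le_mul_of_nonneg_left (by linarith) (by positivity)
  refine h8.trans (le_of_eq ?_)
  field_simp

/-- `bad` is at most `2 / B'` times `rr (iv B')` (`riw`), so by `spt` and `low` the quotient is at most `2 B' / p + (2 / B') * (q / p ^ (|S| + 1)) * Er / (q / p ^ |S| * B ^ (2 |S|))`; the sum of `Er` over `γ` is at most
`k p B' (p B) ^ |S|` by `ers` with the polynomials of `shp` (`x = Sum.elim x x`, `s = Sum.elim j j`): together `(q - 1) * 2 B' / p + 2 k (p / B) ^ |S| ≤ (q - 1) / 8 + (q - 1) / 4`. (`|S| ≤ (k + 1) ^ (2 d)`, `B ≤ p`.) -/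
theorem pub (τ : F →ₗ[ZMod p] ZMod p) (hτ : τ ≠ 0) (d k : ℕ) (f : MvPolynomial (Fin d ⊕ Fin d) F)
    (hf : f.totalDegree ≤ k) (B B' : ℕ) (hB : 1 ≤ B) (hB1 : 1 ≤ B') (hBp : 2 * B ≤ p) (hB' : 16 * B' ≤ p)
    (h3 : 8 * k * p ^ ((k + 1) ^ (2 * d)) ≤ (Fintype.card F - 1) * B ^ ((k + 1) ^ (2 * d)))
    (x j : Fin d → F) (c : F) (hc : c ≠ 0) :
    ∑ γ : F, (open Classical in if γ = 0 then (0 : ℝ) else
      (∑ l : F, (∏ m : Sx d k, ((rr (iv B) (τ (l * wv f (fun i => x i - γ * j i) γ m)) : ℕ) : ℝ)) *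
        (if 2 * (τ (l * c)).valMinAbs.natAbs ≤ B' then 1 else 0)) /
      ∑ l : F, ∏ m : Sx d k, ((rr (iv B) (τ (l * wv f (fun i => x i - γ * j i) γ m)) : ℕ) : ℝ)) ≤
    ((Fintype.card F : ℝ) - 1) / 2 := by
  classical
  have hp : (0 : ℝ) < p := by
    have := (Fact.out : p.Prime).pos
    exact_mod_cast this
  have hBr : (0 : ℝ) < B := by exact_mod_cast hB
  have hBr' : (0 : ℝ) < B' := by exact_mod_cast hB1
  have hg : ∀ m : Sx d k, ∃ g : Polynomial F, g.natDegree ≤ k ∧ g.coeff 0 = 0 ∧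
      ∀ γ : F, g.eval γ = wv f (fun i => x i - γ * j i) γ m := by
    intro m
    obtain ⟨g, h1, h2, h4⟩ := shp f k hf (Sum.elim x x) (Sum.elim j j) (fun i => (m.1 i : ℕ)) (by
      intro h
      apply m.2
      funext i
      have h5 := congrFun h i
      apply Fin.ext
      simpa using h5)
    refine ⟨g, h1, h2, fun γ => ?_⟩
    rw [h4 γ]
    unfold wv
    congr 2
    funext i
    rcases i with i | i <;> rfl
  choose g hg1 hg2 hg3 using hg
  have hEr := ers (iv B' : Finset (ZMod p)) g k (fun i => ⟨hg1 i, hg2 i⟩) (iv B) c hc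
  rw [(riv B hBp).1, (riv B' (by omega)).1] at hEr
  obtain ⟨s, hs⟩ : ∃ s : ℕ, s = Fintype.card (Sx d k) := ⟨_, rfl⟩
  have hsM : s ≤ (k + 1) ^ (2 * d) := by
    rw [hs]
    refine (Fintype.card_subtype_le _).trans (le_of_eq ?_)
    rw [Fintype.card_fun, Fintype.card_fin, Fintype.card_sum, Fintype.card_fin, two_mul]
  obtain ⟨D, hD⟩ : ∃ D : ℝ, D = 2 / (B' * p * ((B : ℝ) ^ 2) ^ s) := ⟨_, rfl⟩
  have hD0 : 0 ≤ D := by
    rw [hD]
    positivity
  have hE0 : ∀ γ : F, 0 ≤ Er (iv B' : Finset (ZMod p)) (fun i => (g i).eval γ) (iv B) c := fun γ => pub_0 _ _ _ _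
  have hterm : ∀ γ : F, (open Classical in if γ = 0 then (0 : ℝ) else
      (∑ l : F, (∏ m : Sx d k, ((rr (iv B) (τ (l * wv f (fun i => x i - γ * j i) γ m)) : ℕ) : ℝ)) *
        (if 2 * (τ (l * c)).valMinAbs.natAbs ≤ B' then 1 else 0)) /
      ∑ l : F, ∏ m : Sx d k, ((rr (iv B) (τ (l * wv f (fun i => x i - γ * j i) γ m)) : ℕ) : ℝ)) ≤
      (if γ = 0 then (0 : ℝ) else 2 * B' / p) + D * Er (iv B' : Finset (ZMod p)) (fun i => (g i).eval γ) (iv B) c := by
    intro γ
    by_cases hγ : γ = 0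
    · rw [if_pos hγ, if_pos hγ, zero_add]
      exact mul_nonneg hD0 (hE0 γ)
    · rw [if_neg hγ, if_neg hγ]
      have h1 : (fun i => (g i).eval γ) = fun m => wv f (fun i => x i - γ * j i) γ m :=
        funext fun m => hg3 m γ
      rw [h1, hD, hs]
      exact pub_1 τ hτ (fun m => wv f (fun i => x i - γ * j i) γ m) B B' hB hB1 hBp (by omega) c
  refine (sum_le_sum fun γ _ => hterm γ).trans ?_
  rw [sum_add_distrib, ← mul_sum]
  have hq1 : 1 ≤ Fintype.card F := Fintype.card_pos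
  have h5 : ∑ γ : F, (if γ = 0 then (0 : ℝ) else 2 * B' / p) = ((Fintype.card F : ℝ) - 1) * (2 * B' / p) := by
    have h6 : ∀ γ : F, (if γ = 0 then (0 : ℝ) else 2 * B' / p) = 2 * B' / p - (if γ = 0 then 2 * (B' : ℝ) / p else 0) := by
      intro γ
      split_ifs <;> ring
    rw [sum_congr rfl fun γ _ => h6 γ, sum_sub_distrib, sum_const, sum_ite_eq' univ (0 : F), if_pos (mem_univ _),
      nsmul_eq_mul, card_univ]
    ring
  rw [h5]
  have hq0 : (0 : ℝ) ≤ (Fintype.card F : ℝ) - 1 := by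
    have : (1 : ℝ) ≤ Fintype.card F := by exact_mod_cast hq1
    linarith
  have h7 : 2 * (B' : ℝ) / p ≤ 1 / 8 := by
    have : (16 : ℝ) * B' ≤ p := by exact_mod_cast hB'
    rw [div_le_iff₀ hp]
    linarith
  have h8 : ((Fintype.card F : ℝ) - 1) * (2 * B' / p) ≤ ((Fintype.card F : ℝ) - 1) * (1 / 8) :=
    mul_le_mul_of_nonneg_left h7 hq0
  have h9 : D * ∑ γ : F, Er (iv B' : Finset (ZMod p)) (fun i => (g i).eval γ) (iv B) c ≤ 2 * k * ((p : ℝ) / B) ^ s := by
    refine (mul_le_mul_of_nonneg_left hEr hD0).trans (le_of_eq ?_)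
    rw [hD, ← hs, mul_pow, div_pow, sq, mul_pow]
    field_simp
  have h10 : ((p : ℝ) / B) ^ s ≤ ((p : ℝ) / B) ^ ((k + 1) ^ (2 * d)) := by
    refine pow_le_pow_right₀ ?_ hsM
    rw [le_div_iff₀ hBr, one_mul]
    have : B ≤ p := by omega
    exact_mod_cast this
  have h11 : 8 * (k : ℝ) * ((p : ℝ) / B) ^ ((k + 1) ^ (2 * d)) ≤ (Fintype.card F : ℝ) - 1 := by
    rw [div_pow, mul_div_assoc', div_le_iff₀ (by positivity)]
    have h12 : (((8 * k * p ^ ((k + 1) ^ (2 * d)) : ℕ)) : ℝ) ≤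
        (((Fintype.card F - 1) * B ^ ((k + 1) ^ (2 * d)) : ℕ) : ℝ) := by exact_mod_cast h3
    rw [Nat.cast_mul, Nat.cast_mul, Nat.cast_mul, Nat.cast_sub hq1, Nat.cast_pow, Nat.cast_pow] at h12
    simpa using h12
  have h13 : 2 * (k : ℝ) * ((p : ℝ) / B) ^ s ≤ 2 * k * ((p : ℝ) / B) ^ ((k + 1) ^ (2 * d)) :=
    mul_le_mul_of_nonneg_left h10 (by positivity)
  linarith
-- END pub

end two

-- BEGIN sel
private theorem sel_avg {Λ : Type} [Fintype Λ] (w a : Λ → ℝ) (T : ℝ) (hw : ∀ l, 0 ≤ w l) (hs : 0 < ∑ l, w l)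
    (h : ∀ l, 0 < w l → a l < T) : (∑ l, w l * a l) / ∑ l, w l < T := by
  rw [div_lt_iff₀ hs, Finset.mul_sum]
  obtain ⟨l, hl⟩ : ∃ l, 0 < w l := by
    by_contra hc
    have : ∑ l, w l ≤ 0 := Finset.sum_nonpos fun l _ => not_lt.1 fun h' => hc ⟨l, h'⟩
    linarith
  refine Finset.sum_lt_sum (fun l' _ => ?_) ⟨l, Finset.mem_univ l, ?_⟩
  · rcases (hw l').lt_or_eq with h0 | h0
    · nlinarith [h l' h0]
    · rw [← h0]
      simp
  · nlinarith [h l hl]

private theorem sel_cst {F : Type} [Field F] [Fintype F] (C : ℝ) :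
    ∑ γ : F, (open Classical in if γ = 0 then (0 : ℝ) else C) = ((Fintype.card F : ℝ) - 1) * C := by
  classical
  have h1 : ∀ γ : F, (if γ = 0 then (0 : ℝ) else C) = C - (if γ = 0 then C else 0) := by
    intro γ
    split_ifs <;> simp
  rw [Finset.sum_congr rfl fun γ _ => h1 γ, Finset.sum_sub_distrib, Finset.sum_const, Finset.card_univ,
    nsmul_eq_mul, Finset.sum_ite_eq' Finset.univ (0 : F) (fun _ => C)]
  simp
  ring

private theorem sel_inj {F : Type} [Field F] (p : ℕ) [CharP F p] (d R : ℕ) (hR : R < p) (y : Fin d → F) (γ : F)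
    (hγ : γ ≠ 0) : Function.Injective (fun (j : Fin d → Fin (R + 1)) (i : Fin d) => y i - γ * ((j i : ℕ) : F)) := by
  intro j j' hjj
  funext i
  have h1 := congrFun hjj i
  simp only at h1
  have h2 : γ * (((j i : ℕ) : F)) = γ * ((j' i : ℕ) : F) := by
    have := sub_right_injective h1
    exact this
  have h3 : ((j i : ℕ) : F) = ((j' i : ℕ) : F) := mul_left_cancel₀ hγ h2
  have h4 := CharP.natCast_injOn_Iio F p
  have h5 : (j i : ℕ) = (j' i : ℕ) := by
    refine h4 ?_ ?_ h3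
    · exact lt_of_lt_of_le (j i).isLt (by omega)
    · exact lt_of_lt_of_le (j' i).isLt (by omega)
  exact Fin.ext h5

/-- Averaging. For every `γ ≠ 0` the vertex `u` is in the class (`x u = x0 + γ j`) for `(R + 1) ^ d` points `x0 = x u - γ j`; so the sum over all `(x0, γ)`, `γ ≠ 0`, and all `u` in the class of
`1 - (∑ l, ω x0 γ l * [b u l]) / ∑ l, ω x0 γ l` is at least `n (R + 1) ^ d (q - 1) / 2` and for some `(x0, γ)` the sum over the class is at least `n (R + 1) ^ d / (2 q ^ d)`; then some `l` with `ω x0 γ l > 0`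
has at least this number of `u` in the class with not `b u l`. (`j ↦ x u - γ j` is injective on `Fin d → Fin (R + 1)` as `R + 1 ≤ char F`.) -/
theorem sel {F : Type} [Field F] [Fintype F] (p : ℕ) [CharP F p] (d R : ℕ) (hR : R < p) {V Λ : Type} [Fintype V] [Fintype Λ]
    (x : V → Fin d → F) (ω : (Fin d → F) → F → Λ → ℝ) (hω : ∀ x0 γ l, 0 ≤ ω x0 γ l) (hM : ∀ x0 γ, 0 < ∑ l, ω x0 γ l)
    (b : V → Λ → Prop)
    (h : ∀ (u : V) (j : Fin d → Fin (R + 1)), ∑ γ : F, (open Classical in if γ = 0 then (0 : ℝ) else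
      (∑ l, ω (fun i => x u i - γ * ((j i : ℕ) : F)) γ l * (if b u l then 1 else 0)) /
        ∑ l, ω (fun i => x u i - γ * ((j i : ℕ) : F)) γ l) ≤ ((Fintype.card F : ℝ) - 1) / 2) :
    ∃ x0 : Fin d → F, ∃ γ : F, ∃ l : Λ, 0 < ω x0 γ l ∧ ∃ U : Finset V,
      (∀ u ∈ U, (∃ j : Fin d → Fin (R + 1), ∀ i, x u i = x0 i + γ * ((j i : ℕ) : F)) ∧ ¬ b u l) ∧
      Fintype.card V * (R + 1) ^ d ≤ 2 * Fintype.card F ^ d * U.card := by
  classical
  by_contra hcon
  have hq : (1 : ℝ) < (Fintype.card F : ℝ) := by exact_mod_cast Fintype.one_lt_card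
  set T : ℝ := (Fintype.card V * (R + 1) ^ d : ℝ) / (2 * (Fintype.card F : ℝ) ^ d) with hT
  have hqd : (0 : ℝ) < 2 * (Fintype.card F : ℝ) ^ d := by positivity
  have hU : ∀ x0 γ l, 0 < ω x0 γ l → (((Finset.univ.filter fun u =>
      (∃ j : Fin d → Fin (R + 1), ∀ i, x u i = x0 i + γ * ((j i : ℕ) : F)) ∧ ¬ b u l).card : ℕ) : ℝ) < T := by
    intro x0 γ l hpos
    rw [hT, lt_div_iff₀ hqd]
    by_contra hc
    refine hcon ⟨x0, γ, l, hpos, Finset.univ.filter fun u =>
      (∃ j : Fin d → Fin (R + 1), ∀ i, x u i = x0 i + γ * ((j i : ℕ) : F)) ∧ ¬ b u l,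
      fun u hu => (Finset.mem_filter.1 hu).2, ?_⟩
    have hc' := not_lt.1 hc
    have : ((Fintype.card V * (R + 1) ^ d : ℕ) : ℝ) ≤ ((2 * Fintype.card F ^ d *
        (Finset.univ.filter fun u => (∃ j : Fin d → Fin (R + 1), ∀ i, x u i = x0 i + γ * ((j i : ℕ) : F)) ∧
          ¬ b u l).card : ℕ) : ℝ) := by
      push_cast
      linarith
    exact_mod_cast this
  have hA : ∀ x0 γ, (∑ l, ω x0 γ l * (((Finset.univ.filter fun u =>
      (∃ j : Fin d → Fin (R + 1), ∀ i, x u i = x0 i + γ * ((j i : ℕ) : F)) ∧ ¬ b u l).card : ℕ) : ℝ)) /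
        ∑ l, ω x0 γ l < T := fun x0 γ => sel_avg _ _ T (hω x0 γ) (hM x0 γ) (hU x0 γ)
  -- rewriting of the averages
  have hA2 : ∀ x0 γ, (∑ l, ω x0 γ l * (((Finset.univ.filter fun u =>
      (∃ j : Fin d → Fin (R + 1), ∀ i, x u i = x0 i + γ * ((j i : ℕ) : F)) ∧ ¬ b u l).card : ℕ) : ℝ)) /
        ∑ l, ω x0 γ l = ∑ u, (if ∃ j : Fin d → Fin (R + 1), ∀ i, x u i = x0 i + γ * ((j i : ℕ) : F) then
          1 - (∑ l, ω x0 γ l * (if b u l then 1 else 0)) / ∑ l, ω x0 γ l else 0) := by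
    intro x0 γ
    have hz : ∑ l, ω x0 γ l ≠ 0 := (hM x0 γ).ne'
    have e1 : ∀ l, ω x0 γ l * (((Finset.univ.filter fun u =>
        (∃ j : Fin d → Fin (R + 1), ∀ i, x u i = x0 i + γ * ((j i : ℕ) : F)) ∧ ¬ b u l).card : ℕ) : ℝ) =
        ∑ u, (if ∃ j : Fin d → Fin (R + 1), ∀ i, x u i = x0 i + γ * ((j i : ℕ) : F) then
          (ω x0 γ l - ω x0 γ l * (if b u l then 1 else 0)) else 0) := by
      intro l
      rw [Finset.card_filter, Nat.cast_sum, Finset.mul_sum]
      refine Finset.sum_congr rfl fun u _ => ?_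
      by_cases h1 : ∃ j : Fin d → Fin (R + 1), ∀ i, x u i = x0 i + γ * ((j i : ℕ) : F)
      · by_cases h2 : b u l
        · simp [h1, h2]
        · simp [h1, h2]
      · simp [h1]
    rw [Finset.sum_congr rfl fun l _ => e1 l, Finset.sum_comm, Finset.sum_div]
    refine Finset.sum_congr rfl fun u _ => ?_
    by_cases h1 : ∃ j : Fin d → Fin (R + 1), ∀ i, x u i = x0 i + γ * ((j i : ℕ) : F)
    · simp only [if_pos h1]
      rw [Finset.sum_sub_distrib, sub_div, div_self hz]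
    · simp only [if_neg h1]
      simp
  have hr : ∀ u x0 γ, (0 : ℝ) ≤ 1 - (∑ l, ω x0 γ l * (if b u l then 1 else 0)) / ∑ l, ω x0 γ l := by
    intro u x0 γ
    rw [sub_nonneg, div_le_one (hM x0 γ)]
    refine Finset.sum_le_sum fun l _ => ?_
    split_ifs
    · rw [mul_one]
    · rw [mul_zero]
      exact hω x0 γ l
  -- upper bound
  have hup : ∑ γ : F, (if γ = 0 then (0 : ℝ) else ∑ x0 : Fin d → F, ∑ u,
      (if ∃ j : Fin d → Fin (R + 1), ∀ i, x u i = x0 i + γ * ((j i : ℕ) : F) then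
          1 - (∑ l, ω x0 γ l * (if b u l then 1 else 0)) / ∑ l, ω x0 γ l else 0)) <
      ∑ γ : F, (if γ = 0 then (0 : ℝ) else (Fintype.card F : ℝ) ^ d * T) := by
    have hlt : ∀ γ : F, (∑ x0 : Fin d → F, ∑ u,
        (if ∃ j : Fin d → Fin (R + 1), ∀ i, x u i = x0 i + γ * ((j i : ℕ) : F) then
          1 - (∑ l, ω x0 γ l * (if b u l then 1 else 0)) / ∑ l, ω x0 γ l else 0)) <
        (Fintype.card F : ℝ) ^ d * T := by
      intro γ
      have e2 : (Fintype.card F : ℝ) ^ d * T = ∑ _x0 : Fin d → F, T := by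
        rw [Finset.sum_const, Finset.card_univ, nsmul_eq_mul, Fintype.card_fun, Fintype.card_fin]
        push_cast
        ring
      rw [e2]
      refine Finset.sum_lt_sum_of_nonempty ⟨fun _ => 0, Finset.mem_univ _⟩ fun x0 _ => ?_
      rw [← hA2 x0 γ]
      exact hA x0 γ
    refine Finset.sum_lt_sum (fun γ _ => ?_) ⟨1, Finset.mem_univ _, ?_⟩
    · by_cases hγ : γ = 0
      · rw [if_pos hγ, if_pos hγ]
      · rw [if_neg hγ, if_neg hγ]
        exact (hlt γ).le
    · rw [if_neg one_ne_zero, if_neg one_ne_zero]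
      exact hlt 1
  -- lower bound
  have hlow : ∑ u : V, ∑ j : Fin d → Fin (R + 1), ∑ γ : F, (if γ = 0 then (0 : ℝ) else
      1 - (∑ l, ω (fun i => x u i - γ * ((j i : ℕ) : F)) γ l * (if b u l then 1 else 0)) /
        ∑ l, ω (fun i => x u i - γ * ((j i : ℕ) : F)) γ l) ≤
      ∑ γ : F, (if γ = 0 then (0 : ℝ) else ∑ x0 : Fin d → F, ∑ u,
      (if ∃ j : Fin d → Fin (R + 1), ∀ i, x u i = x0 i + γ * ((j i : ℕ) : F) then
          1 - (∑ l, ω x0 γ l * (if b u l then 1 else 0)) / ∑ l, ω x0 γ l else 0)) := by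
    have e3 : ∑ u : V, ∑ j : Fin d → Fin (R + 1), ∑ γ : F, (if γ = 0 then (0 : ℝ) else
      1 - (∑ l, ω (fun i => x u i - γ * ((j i : ℕ) : F)) γ l * (if b u l then 1 else 0)) /
        ∑ l, ω (fun i => x u i - γ * ((j i : ℕ) : F)) γ l) =
        ∑ γ : F, (if γ = 0 then (0 : ℝ) else ∑ u : V, ∑ j : Fin d → Fin (R + 1),
      (1 - (∑ l, ω (fun i => x u i - γ * ((j i : ℕ) : F)) γ l * (if b u l then 1 else 0)) /
        ∑ l, ω (fun i => x u i - γ * ((j i : ℕ) : F)) γ l)) := by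
      have e4 : ∀ u : V, ∑ j : Fin d → Fin (R + 1), ∑ γ : F, (if γ = 0 then (0 : ℝ) else
          1 - (∑ l, ω (fun i => x u i - γ * ((j i : ℕ) : F)) γ l * (if b u l then 1 else 0)) /
          ∑ l, ω (fun i => x u i - γ * ((j i : ℕ) : F)) γ l) =
          ∑ γ : F, ∑ j : Fin d → Fin (R + 1), (if γ = 0 then (0 : ℝ) else
          1 - (∑ l, ω (fun i => x u i - γ * ((j i : ℕ) : F)) γ l * (if b u l then 1 else 0)) /
          ∑ l, ω (fun i => x u i - γ * ((j i : ℕ) : F)) γ l) := fun u => Finset.sum_comm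
      rw [Finset.sum_congr rfl fun u _ => e4 u, Finset.sum_comm]
      refine Finset.sum_congr rfl fun γ _ => ?_
      by_cases hγ : γ = 0
      · simp [hγ]
      · simp only [if_neg hγ]
    rw [e3]
    refine Finset.sum_le_sum fun γ _ => ?_
    by_cases hγ : γ = 0
    · rw [if_pos hγ, if_pos hγ]
    · rw [if_neg hγ, if_neg hγ]
      have e5 : ∑ x0 : Fin d → F, ∑ u, (if ∃ j : Fin d → Fin (R + 1), ∀ i, x u i = x0 i + γ * ((j i : ℕ) : F) then
          1 - (∑ l, ω x0 γ l * (if b u l then 1 else 0)) / ∑ l, ω x0 γ l else 0) =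
          ∑ u, ∑ x0 : Fin d → F, (if ∃ j : Fin d → Fin (R + 1), ∀ i, x u i = x0 i + γ * ((j i : ℕ) : F) then
          1 - (∑ l, ω x0 γ l * (if b u l then 1 else 0)) / ∑ l, ω x0 γ l else 0) := Finset.sum_comm
      rw [e5]
      refine Finset.sum_le_sum fun u _ => ?_
      have hinj := sel_inj p d R hR (x u) γ hγ
      have e6 : ∑ j : Fin d → Fin (R + 1),
          (1 - (∑ l, ω (fun i => x u i - γ * ((j i : ℕ) : F)) γ l * (if b u l then 1 else 0)) /
          ∑ l, ω (fun i => x u i - γ * ((j i : ℕ) : F)) γ l) =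
          ∑ x0 ∈ Finset.univ.image (fun (j : Fin d → Fin (R + 1)) (i : Fin d) => x u i - γ * ((j i : ℕ) : F)),
            (if ∃ j : Fin d → Fin (R + 1), ∀ i, x u i = x0 i + γ * ((j i : ℕ) : F) then
          1 - (∑ l, ω x0 γ l * (if b u l then 1 else 0)) / ∑ l, ω x0 γ l else 0) := by
        rw [Finset.sum_image (fun a _ a' _ haa => hinj haa)]
        refine Finset.sum_congr rfl fun j _ => ?_
        rw [if_pos ⟨j, fun i => by ring⟩]
      rw [e6]
      refine Finset.sum_le_sum_of_subset_of_nonneg (Finset.subset_univ _) fun x0 _ _ => ?_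
      split_ifs
      · exact hr u x0 γ
      · exact le_refl _
  have hlow2 : ∀ (u : V) (j : Fin d → Fin (R + 1)), ((Fintype.card F : ℝ) - 1) / 2 ≤
      ∑ γ : F, (if γ = 0 then (0 : ℝ) else
      1 - (∑ l, ω (fun i => x u i - γ * ((j i : ℕ) : F)) γ l * (if b u l then 1 else 0)) /
        ∑ l, ω (fun i => x u i - γ * ((j i : ℕ) : F)) γ l) := by
    intro u j
    have h6 := h u j
    have e7 : ∑ γ : F, (if γ = 0 then (0 : ℝ) else
      1 - (∑ l, ω (fun i => x u i - γ * ((j i : ℕ) : F)) γ l * (if b u l then 1 else 0)) /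
        ∑ l, ω (fun i => x u i - γ * ((j i : ℕ) : F)) γ l) =
        ∑ γ : F, (if γ = 0 then (0 : ℝ) else 1) - ∑ γ : F, (if γ = 0 then (0 : ℝ) else
      (∑ l, ω (fun i => x u i - γ * ((j i : ℕ) : F)) γ l * (if b u l then 1 else 0)) /
        ∑ l, ω (fun i => x u i - γ * ((j i : ℕ) : F)) γ l) := by
      rw [← Finset.sum_sub_distrib]
      refine Finset.sum_congr rfl fun γ _ => ?_
      by_cases hγ : γ = 0
      · simp [hγ]
      · simp only [if_neg hγ]
    rw [e7, sel_cst (F := F) 1]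
    linarith
  have hfin : (Fintype.card V * (R + 1) ^ d : ℝ) * (((Fintype.card F : ℝ) - 1) / 2) ≤
      ∑ u : V, ∑ j : Fin d → Fin (R + 1), ∑ γ : F, (if γ = 0 then (0 : ℝ) else
      1 - (∑ l, ω (fun i => x u i - γ * ((j i : ℕ) : F)) γ l * (if b u l then 1 else 0)) /
        ∑ l, ω (fun i => x u i - γ * ((j i : ℕ) : F)) γ l) := by
    have e8 : (Fintype.card V * (R + 1) ^ d : ℝ) * (((Fintype.card F : ℝ) - 1) / 2) =
        ∑ _u : V, ∑ _j : Fin d → Fin (R + 1), ((Fintype.card F : ℝ) - 1) / 2 := by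
      simp only [Finset.sum_const, Finset.card_univ, nsmul_eq_mul, Fintype.card_fun, Fintype.card_fin]
      push_cast
      ring
    rw [e8]
    exact Finset.sum_le_sum fun u _ => Finset.sum_le_sum fun j _ => hlow2 u j
  rw [sel_cst] at hup
  have hTq : (Fintype.card F : ℝ) ^ d * T = (Fintype.card V * (R + 1) ^ d : ℝ) / 2 := by
    rw [hT]
    field_simp
  rw [hTq] at hup
  have h9 := lt_of_le_of_lt (hfin.trans hlow) hup
  have h10 : (Fintype.card V * (R + 1) ^ d : ℝ) * (((Fintype.card F : ℝ) - 1) / 2) =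
      ((Fintype.card F : ℝ) - 1) * ((Fintype.card V * (R + 1) ^ d : ℝ) / 2) := by ring
  rw [h10] at h9
  exact lt_irrefl _ h9
-- END sel

-- BEGIN geo
/-- `a u` = `s u` in `ZMod p`, `2 s u` at distance `> η` from zero; so the absolute value of `valMinAbs (s u)` is between `η / 2` and `(p - η) / 2` (strictly) and the sum of two such residues with positive (or two with negative)
`valMinAbs` has distance `> η` from zero: the vertices with positive and those with negative `valMinAbs` are two independent sets. -/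
theorem geo (p : ℕ) [Fact p.Prime] (hp2 : p ≠ 2) {V : Type} (G : SimpleGraph V) (U : Finset V) (s : V → ZMod p) (η : ℕ)
    (h1 : ∀ u ∈ U, η < (2 * s u).valMinAbs.natAbs)
    (h2 : ∀ u ∈ U, ∀ v ∈ U, G.Adj u v → (s u + s v).valMinAbs.natAbs ≤ η) :
    ∃ I : Finset V, G.IsIndepSet (I : Set V) ∧ U.card ≤ 2 * I.card := by
  classical
  have hspec : ∀ x : ZMod p, ((x.valMinAbs : ℤ) : ZMod p) = x := fun x => ZMod.coe_valMinAbs x
  have hup : ∀ (x : ZMod p) (y : ℤ), (y : ZMod p) = x → x.valMinAbs.natAbs ≤ y.natAbs := by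
    intro x y hy
    refine ZMod.natAbs_min_of_le_div_two p x.valMinAbs y ?_ (ZMod.natAbs_valMinAbs_le x)
    rw [hspec, hy]
  have hkey : ∀ m : ℤ, (η : ℤ) < m → m < (p : ℤ) - η → ¬ ((m : ZMod p)).valMinAbs.natAbs ≤ η := by
    intro m hm1 hm2 hle
    have hc : (((m : ZMod p)).valMinAbs : ZMod p) = ((m : ℤ) : ZMod p) := hspec _
    rw [ZMod.intCast_eq_intCast_iff_dvd_sub] at hc
    obtain ⟨t, ht⟩ := hc
    have hp0 : (0 : ℤ) < p := by exact_mod_cast (Fact.out : p.Prime).pos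
    have hb : |((m : ZMod p)).valMinAbs| ≤ η := by
      rw [Int.abs_eq_natAbs]
      exact_mod_cast hle
    rw [abs_le] at hb
    have ht1 : 0 < t := by
      by_contra hcon
      have : (p : ℤ) * t ≤ 0 := mul_nonpos_of_nonneg_of_nonpos hp0.le (by omega)
      omega
    have ht2 : t < 1 := by
      by_contra hcon
      have : (p : ℤ) * 1 ≤ p * t := mul_le_mul_of_nonneg_left (by omega) hp0.le
      omega
    omega
  have hrange : ∀ x : ZMod p, -(p : ℤ) < x.valMinAbs * 2 ∧ x.valMinAbs * 2 ≤ p := by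
    intro x
    have := ZMod.valMinAbs_mem_Ioc x
    exact ⟨this.1, this.2⟩
  have hpos : ∀ u ∈ U, 0 ≤ (s u).valMinAbs → (η : ℤ) < 2 * (s u).valMinAbs ∧ 2 * (s u).valMinAbs < p - η := by
    intro u hu h0
    have a1 := h1 u hu
    have r := hrange (s u)
    have e1 : ((2 * (s u).valMinAbs : ℤ) : ZMod p) = 2 * s u := by
      simp
    have e2 : ((2 * (s u).valMinAbs - p : ℤ) : ZMod p) = 2 * s u := by
      simp
    have b1 := hup _ _ e1
    have b2 := hup _ _ e2
    omega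
  have hneg : ∀ u ∈ U, (s u).valMinAbs < 0 → (η : ℤ) < -(2 * (s u).valMinAbs) ∧ -(2 * (s u).valMinAbs) < p - η := by
    intro u hu h0
    have a1 := h1 u hu
    have r := hrange (s u)
    have e1 : ((2 * (s u).valMinAbs : ℤ) : ZMod p) = 2 * s u := by
      simp
    have e2 : ((2 * (s u).valMinAbs + p : ℤ) : ZMod p) = 2 * s u := by
      simp
    have b1 := hup _ _ e1
    have b2 := hup _ _ e2
    omega
  have hnegabs : ∀ x : ZMod p, (-x).valMinAbs.natAbs ≤ x.valMinAbs.natAbs := by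
    intro x
    have := hup (-x) (-(x.valMinAbs)) (by simp)
    rwa [Int.natAbs_neg] at this
  have hP : G.IsIndepSet ((U.filter fun u => 0 ≤ (s u).valMinAbs : Finset V) : Set V) := by
    intro u hu v hv _ hadj
    rw [Finset.mem_coe, Finset.mem_filter] at hu hv
    have a := hpos u hu.1 hu.2
    have b := hpos v hv.1 hv.2
    have c := h2 u hu.1 v hv.1 hadj
    refine hkey ((s u).valMinAbs + (s v).valMinAbs) (by omega) (by omega) ?_
    have e : (((s u).valMinAbs + (s v).valMinAbs : ℤ) : ZMod p) = s u + s v := by simp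
    rw [e]
    exact c
  have hN : G.IsIndepSet ((U.filter fun u => ¬ 0 ≤ (s u).valMinAbs : Finset V) : Set V) := by
    intro u hu v hv _ hadj
    rw [Finset.mem_coe, Finset.mem_filter] at hu hv
    have a := hneg u hu.1 (not_le.1 hu.2)
    have b := hneg v hv.1 (not_le.1 hv.2)
    have c := h2 u hu.1 v hv.1 hadj
    refine hkey (-((s u).valMinAbs + (s v).valMinAbs)) (by omega) (by omega) ?_
    have e : ((-((s u).valMinAbs + (s v).valMinAbs) : ℤ) : ZMod p) = -(s u + s v) := by simp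
    rw [e]
    exact (hnegabs _).trans c
  have hcard := Finset.card_filter_add_card_filter_not (s := U) (fun u => 0 ≤ (s u).valMinAbs)
  rcases le_total (U.filter fun u => ¬ 0 ≤ (s u).valMinAbs).card (U.filter fun u => 0 ≤ (s u).valMinAbs).card with h | h
  · exact ⟨_, hP, by omega⟩
  · exact ⟨_, hN, by omega⟩
-- END geo

-- BEGIN sml
private theorem sml_abs {p : ℕ} [Fact p.Prime] {ι : Type} (S : Finset ι) (N : ι → ℕ) (a : ι → ZMod p) :
    (∑ m ∈ S, N m • a m).valMinAbs.natAbs ≤ ∑ m ∈ S, N m * (a m).valMinAbs.natAbs := by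
  have h1 : ((∑ m ∈ S, (N m : ℤ) * (a m).valMinAbs : ℤ) : ZMod p) = ∑ m ∈ S, N m • a m := by
    push_cast
    refine Finset.sum_congr rfl fun m _ => ?_
    rw [nsmul_eq_mul]
  have h2 : (∑ m ∈ S, N m • a m).valMinAbs.natAbs ≤ (∑ m ∈ S, (N m : ℤ) * (a m).valMinAbs).natAbs := by
    refine ZMod.natAbs_min_of_le_div_two p _ _ ?_ (ZMod.natAbs_valMinAbs_le _)
    rw [h1, ZMod.coe_valMinAbs]
  refine h2.trans ((Int.natAbs_sum_le _ _).trans (Finset.sum_le_sum fun m _ => ?_))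
  rw [Int.natAbs_mul, Int.natAbs_natCast]

private theorem sml_pow {ι : Type} [Fintype ι] (R : ℕ) (J : ι → ℕ) (hJ : ∀ i, J i ≤ R) (k : ℕ) (m : ι → Fin (k + 1))
    (hm : m ≠ 0) : ∏ i, J i ^ (m i : ℕ) ≤ R ^ (Fintype.card ι * k) := by
  classical
  rcases Nat.eq_zero_or_pos R with h0 | h0
  · obtain ⟨i, hi⟩ := Function.ne_iff.1 hm
    have hi' : (m i : ℕ) ≠ 0 := by
      intro h
      exact hi (Fin.ext h)
    have : ∏ i, J i ^ (m i : ℕ) = 0 := by
      refine Finset.prod_eq_zero (Finset.mem_univ i) ?_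
      have : J i = 0 := Nat.le_zero.1 (h0 ▸ hJ i)
      rw [this, zero_pow hi']
    rw [this]
    exact Nat.zero_le _
  · calc ∏ i, J i ^ (m i : ℕ) ≤ ∏ _i : ι, R ^ k := by
          refine Finset.prod_le_prod' fun i _ => ?_
          exact (Nat.pow_le_pow_left (hJ i) _).trans (Nat.pow_le_pow_right h0 (Nat.lt_succ_iff.1 (m i).isLt))
      _ = R ^ (Fintype.card ι * k) := by
          rw [Finset.prod_const, Finset.card_univ, ← pow_mul, mul_comm]

/-- On the class the value of `τ (l * (f(x, x') - f(x0, x0)))` is small: `she` with `t` = the integers `j`, `j'` (`Sum.elim`), the term `m = 0` is `f(x0, x0)` (`sh0`); every other term is an integer `∏ j i ^ m i ≤ R ^ (2 d k)` (if `R ≥ 1`; `0` if `R = 0`) times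
`τ (l * wv ..)` of absolute value `< B` (`riv`); at most `(k + 1) ^ (2 d)` terms (`ZMod.natAbs_valMinAbs_add_le`, or lift to integers). -/
theorem sml {p : ℕ} [Fact p.Prime] {F : Type} [Field F] [Fintype F] [Algebra (ZMod p) F] (τ : F →ₗ[ZMod p] ZMod p)
    (d k : ℕ) (f : MvPolynomial (Fin d ⊕ Fin d) F) (hf : f.totalDegree ≤ k) (B R : ℕ) (hBp : 2 * B ≤ p)
    (x0 : Fin d → F) (γ l : F)
    (hl : 0 < ∏ m : Sx d k, ((rr (iv B) (τ (l * wv f x0 γ m)) : ℕ) : ℝ)) (j j' : Fin d → Fin (R + 1)) :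
    (τ (l * (eval (Sum.elim (fun i => x0 i + γ * ((j i : ℕ) : F)) (fun i => x0 i + γ * ((j' i : ℕ) : F))) f -
      eval (Sum.elim x0 x0) f))).valMinAbs.natAbs ≤ (k + 1) ^ (2 * d) * R ^ (2 * d * k) * B := by
  classical
  set J : Fin d ⊕ Fin d → ℕ := Sum.elim (fun i => (j i : ℕ)) (fun i => (j' i : ℕ)) with hJdef
  have hJ : ∀ i, J i ≤ R := by
    rintro (i | i)
    · exact Nat.lt_succ_iff.1 (j i).isLt
    · exact Nat.lt_succ_iff.1 (j' i).isLt
  have hpt : Sum.elim (fun i => x0 i + γ * ((j i : ℕ) : F)) (fun i => x0 i + γ * ((j' i : ℕ) : F)) =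
      fun i => Sum.elim x0 x0 i + γ * ((J i : ℕ) : F) := by
    funext i
    rcases i with i | i <;> rfl
  have hsum : eval (Sum.elim (fun i => x0 i + γ * ((j i : ℕ) : F)) (fun i => x0 i + γ * ((j' i : ℕ) : F))) f -
      eval (Sum.elim x0 x0) f = ∑ m : Sx d k, (∏ i, J i ^ (m.1 i : ℕ)) • wv f x0 γ m := by
    rw [hpt, she f k hf (Sum.elim x0 x0) (fun i => ((J i : ℕ) : F)) γ]
    have h0 := Fintype.sum_eq_add_sum_subtype_ne (fun m : Fin d ⊕ Fin d → Fin (k + 1) =>
      γ ^ (∑ i, (m i : ℕ)) * cm f (Sum.elim x0 x0) (fun i => (m i : ℕ)) * ∏ i, ((J i : ℕ) : F) ^ (m i : ℕ)) 0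
    rw [h0]
    have h1 : γ ^ (∑ i, (((0 : Fin d ⊕ Fin d → Fin (k + 1)) i : Fin (k + 1)) : ℕ)) *
        cm f (Sum.elim x0 x0) (fun i => (((0 : Fin d ⊕ Fin d → Fin (k + 1)) i : Fin (k + 1)) : ℕ)) *
        ∏ i, ((J i : ℕ) : F) ^ (((0 : Fin d ⊕ Fin d → Fin (k + 1)) i : Fin (k + 1)) : ℕ) =
        eval (Sum.elim x0 x0) f := by
      have h2 : (fun i => (((0 : Fin d ⊕ Fin d → Fin (k + 1)) i : Fin (k + 1)) : ℕ)) = fun _ => 0 := by
        funext i
        simp
      rw [h2, sh0]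
      simp
    rw [h1, add_sub_cancel_left]
    refine Finset.sum_congr rfl fun m _ => ?_
    rw [nsmul_eq_mul]
    unfold wv
    push_cast
    ring
  have hne : ∀ m : Sx d k, rr (iv B) (τ (l * wv f x0 γ m)) ≠ 0 := by
    intro m h
    have : ∏ m : Sx d k, ((rr (iv B) (τ (l * wv f x0 γ m)) : ℕ) : ℝ) = 0 :=
      Finset.prod_eq_zero (Finset.mem_univ m) (by rw [h, Nat.cast_zero])
    rw [this] at hl
    exact lt_irrefl _ hl
  have hτ : τ (l * (∑ m : Sx d k, (∏ i, J i ^ (m.1 i : ℕ)) • wv f x0 γ m)) =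
      ∑ m : Sx d k, (∏ i, J i ^ (m.1 i : ℕ)) • τ (l * wv f x0 γ m) := by
    rw [Finset.mul_sum, map_sum]
    refine Finset.sum_congr rfl fun m _ => ?_
    rw [mul_smul_comm, map_nsmul]
  rw [hsum, hτ]
  refine (sml_abs _ _ _).trans ?_
  have hterm : ∀ m ∈ (Finset.univ : Finset (Sx d k)),
      (∏ i, J i ^ (m.1 i : ℕ)) * (τ (l * wv f x0 γ m)).valMinAbs.natAbs ≤ R ^ (2 * d * k) * B := by
    intro m _
    refine Nat.mul_le_mul ?_ ((riv B hBp).2 _ (hne m)).le
    have h3 := sml_pow R J hJ k m.1 m.2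
    rwa [Fintype.card_sum, Fintype.card_fin, ← two_mul] at h3
  refine (Finset.sum_le_card_nsmul _ _ _ hterm).trans ?_
  rw [smul_eq_mul, mul_assoc ((k + 1) ^ (2 * d))]
  refine Nat.mul_le_mul_right _ ?_
  rw [Finset.card_univ]
  refine (Fintype.card_subtype_le _).trans (le_of_eq ?_)
  rw [Fintype.card_fun, Fintype.card_fin, Fintype.card_sum, Fintype.card_fin, ← two_mul]
-- END sml

-- BEGIN smc
/-- `sel` with `Λ = F`, `ω x0 γ l = ∏ m, rr (iv B) (τ (l * wv f x0 γ m))` (positive sum by `low`), `b u l` = `2 |τ (l * (2 z u - f(x u, x u)))| ≤ B'`, `pub`; then `geo` with `s u = τ (l * z u) - τ (l * f(x0, x0)) / 2` and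
`η = B' / 2 - ε` or so, `ε = (k + 1) ^ (2 d) R ^ (2 d k) B` (`sml`): `2 s u = τ (l * (2 z u - f(x u, x u))) + τ (l * (f(x u, x u) - f(x0, x0)))`, and `s u + s v = τ (l * (f(x u, x v) - f(x0, x0)))` for an edge. (`p` is the characteristic: `ZMod.charP`-algebra;
for `τ` take any nonzero functional.) -/
theorem smc (p : ℕ) [Fact p.Prime] (hp2 : p ≠ 2) {F : Type} [Field F] [Fintype F] [Algebra (ZMod p) F] (d k : ℕ)
    (f : MvPolynomial (Fin d ⊕ Fin d) F) (hf : f.totalDegree ≤ k)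
    {V : Type} [Fintype V] (G : SimpleGraph V) (x : V → Fin d → F) (z : V → F)
    (hna : ∀ u, 2 * z u ≠ eval (Sum.elim (x u) (x u)) f)
    (hG : ∀ u v, G.Adj u v → z u + z v = eval (Sum.elim (x u) (x v)) f)
    (B B' R : ℕ) (hB : 1 ≤ B) (hB1 : 1 ≤ B') (hB' : 16 * B' ≤ p) (hR : R < p)
    (h2 : 8 * ((k + 1) ^ (2 * d) * R ^ (2 * d * k) * B) ≤ B') (hBp : 2 * B ≤ p)
    (h3 : 8 * k * p ^ ((k + 1) ^ (2 * d)) ≤ (Fintype.card F - 1) * B ^ ((k + 1) ^ (2 * d))) :
    ∃ I : Finset V, G.IsIndepSet (I : Set V) ∧ Fintype.card V * (R + 1) ^ d ≤ 4 * Fintype.card F ^ d * I.card := by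
  classical
  have : CharP F p := charP_of_injective_algebraMap (algebraMap (ZMod p) F).injective p
  obtain ⟨τ, hτ⟩ : ∃ τ : F →ₗ[ZMod p] ZMod p, τ ≠ 0 := by
    by_contra hcon
    push Not at hcon
    have h1 : ∀ φ : Module.Dual (ZMod p) F, φ (1 : F) = 0 := fun φ => by rw [hcon φ]; rfl
    exact one_ne_zero ((Module.forall_dual_apply_eq_zero_iff (ZMod p) (1 : F)).1 h1)
  set ω : (Fin d → F) → F → F → ℝ := fun x0 γ l => ∏ m : Sx d k, ((rr (iv B) (τ (l * wv f x0 γ m)) : ℕ) : ℝ) with hω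
  have hcard : ((iv B : Finset (ZMod p)).card : ℝ) = B := by exact_mod_cast (riv (p := p) B hBp).1
  have hB0 : (0 : ℝ) < B := by exact_mod_cast hB
  have hpp : (0 : ℝ) < p := by exact_mod_cast (Fact.out : p.Prime).pos
  have hF0 : (0 : ℝ) < Fintype.card F := by exact_mod_cast Fintype.card_pos
  obtain ⟨x0, γ, l, hl, U, hU, hcU⟩ := sel p d R hR x ω
    (fun x0 γ l => Finset.prod_nonneg fun m _ => Nat.cast_nonneg _)
    (fun x0 γ => by
      refine lt_of_lt_of_le ?_ (low τ hτ (fun m : Sx d k => wv f x0 γ m) (iv B))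
      rw [hcard]
      positivity)
    (fun u l => 2 * (τ (l * (2 * z u - eval (Sum.elim (x u) (x u)) f))).valMinAbs.natAbs ≤ B')
    (fun u j => by
      have h1 := pub τ hτ d k f hf B B' hB hB1 hBp hB' h3 (x u) (fun i => ((j i : ℕ) : F))
        (2 * z u - eval (Sum.elim (x u) (x u)) f) (sub_ne_zero.2 (hna u))
      refine le_trans (le_of_eq ?_) h1
      refine Finset.sum_congr rfl fun γ _ => ?_
      split_ifs with h0
      · rfl
      · congr 1
        refine Finset.sum_congr rfl fun l _ => ?_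
        congr!)
  set e : F := eval (Sum.elim x0 x0) f with he
  set ε : ℕ := (k + 1) ^ (2 * d) * R ^ (2 * d * k) * B with hε
  have h2ne : (2 : ZMod p) ≠ 0 := by
    intro h0
    have h1 : ((2 : ℕ) : ZMod p) = 0 := by exact_mod_cast h0
    rw [ZMod.natCast_eq_zero_iff] at h1
    exact hp2 ((Nat.prime_dvd_prime_iff_eq (Fact.out : p.Prime) Nat.prime_two).1 h1)
  have hsml : ∀ u ∈ U, ∀ v ∈ U, (τ (l * (eval (Sum.elim (x u) (x v)) f - e))).valMinAbs.natAbs ≤ ε := by
    intro u hu v hv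
    obtain ⟨j, hj⟩ := (hU u hu).1
    obtain ⟨j', hj'⟩ := (hU v hv).1
    have e1 : x u = fun i => x0 i + γ * ((j i : ℕ) : F) := funext hj
    have e2 : x v = fun i => x0 i + γ * ((j' i : ℕ) : F) := funext hj'
    rw [e1, e2]
    exact sml τ d k f hf B R hBp x0 γ l hl j j'
  obtain ⟨I, hI, hUI⟩ := geo p hp2 G U (fun u => τ (l * z u) - τ (l * e) / 2) ε
    (fun u hu => by
      have h4 := (hU u hu).2
      have h5 := hsml u hu u hu
      set a : ZMod p := τ (l * (2 * z u - eval (Sum.elim (x u) (x u)) f)) with ha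
      set b : ZMod p := τ (l * (eval (Sum.elim (x u) (x u)) f - e)) with hb
      have e1 : 2 * (τ (l * z u) - τ (l * e) / 2) = a + b := by
        rw [ha, hb, ← map_add, mul_sub, mul_div_cancel₀ _ h2ne, two_mul, ← map_add, ← map_sub]
        congr 1
        ring
      show ε < (2 * (τ (l * z u) - τ (l * e) / 2)).valMinAbs.natAbs
      rw [e1]
      have h6 : a.valMinAbs.natAbs ≤ (a + b).valMinAbs.natAbs + b.valMinAbs.natAbs := by
        have h7 := ZMod.natAbs_valMinAbs_add_le (a + b) (-b)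
        rw [add_neg_cancel_right] at h7
        have h8 := Int.natAbs_add_le (a + b).valMinAbs (-b).valMinAbs
        rw [ZMod.natAbs_valMinAbs_neg] at h8
        omega
      have h4' : B' < 2 * a.valMinAbs.natAbs := not_le.1 h4
      omega)
    (fun u hu v hv huv => by
      have h5 := hsml u hu v hv
      rw [← hG u v huv] at h5
      have e1 : (τ (l * z u) - τ (l * e) / 2) + (τ (l * z v) - τ (l * e) / 2) = τ (l * (z u + z v - e)) := by
        have e2 : τ (l * e) / 2 + τ (l * e) / 2 = τ (l * e) := by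
          rw [← two_mul, mul_div_cancel₀ _ h2ne]
        have e3 : τ (l * (z u + z v - e)) = τ (l * z u) + τ (l * z v) - τ (l * e) := by
          rw [← map_add, ← map_sub]
          congr 1
          ring
        rw [e3]
        linear_combination (-1 : ZMod p) * e2
      show ((τ (l * z u) - τ (l * e) / 2) + (τ (l * z v) - τ (l * e) / 2)).valMinAbs.natAbs ≤ ε
      rw [e1]
      exact h5)
  refine ⟨I, hI, hcU.trans ?_⟩
  calc 2 * Fintype.card F ^ d * U.card ≤ 2 * Fintype.card F ^ d * (2 * I.card) := Nat.mul_le_mul_left _ hUI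
    _ = 4 * Fintype.card F ^ d * I.card := by ring
-- END smc

/-! ## Part 3: parameters and the end -/

-- BEGIN pra
/-- `A = (k + 1) ^ (2 d)`, `t = r / (4 A (k + 1))`: then `(k t + 1) A ≤ r / 2`, so `2 k p ^ ((k t + 1) A) ≤ 2 k q ^ (1/2) ≤ q - 1` for `r ≥ R0`, and `t ≥ r / (8 A (k + 1))`, so `(p ^ t) ^ d ≥ q ^ (d κ')`, `κ' = 1 / (8 A (k + 1))`, and
`4 q ^ κ ≤ q ^ κ' ≤ (p ^ t) ^ d` with `κ = κ' / 2` for `R0` large. -/
theorem pra (d k : ℕ) (hd : 1 ≤ d) : ∃ κ : ℝ, 0 < κ ∧ ∃ R0 : ℕ, 1 ≤ R0 ∧ ∀ p r : ℕ, 2 ≤ p → R0 ≤ r →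
    ∃ t : ℕ, t ≤ r ∧ 2 * (k * p ^ ((k * t + 1) * (k + 1) ^ (2 * d))) ≤ p ^ r - 1 ∧
      4 * ((p ^ r : ℕ) : ℝ) ^ κ ≤ ((p ^ t : ℕ) : ℝ) ^ d := by
  obtain ⟨A, hA⟩ : ∃ A, A = (k + 1) ^ (2 * d) := ⟨_, rfl⟩
  have hA1 : 1 ≤ A := by rw [hA]; exact Nat.one_le_pow _ _ (Nat.succ_pos k)
  obtain ⟨M, hM⟩ : ∃ M, M = 4 * A * (k + 1) := ⟨_, rfl⟩
  have hM1 : 4 * A ≤ M := by rw [hM]; exact Nat.le_mul_of_pos_right _ (Nat.succ_pos k)
  have hM0 : 0 < M := by omega
  have hMR : (0 : ℝ) < M := by exact_mod_cast hM0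
  rw [← hA]
  refine ⟨1 / (4 * (M : ℝ)), by positivity, 8 * M + 4 * k + 2, by omega, fun p r hp hr => ?_⟩
  have ht1 : M * (r / M) ≤ r := Nat.mul_div_le r M
  have ht2 : r < M * (r / M) + M := by
    have h1 := Nat.div_add_mod r M
    have h2 := Nat.mod_lt r hM0
    omega
  obtain ⟨t, ht⟩ : ∃ t, t = r / M := ⟨_, rfl⟩
  rw [← ht] at ht1 ht2
  refine ⟨t, ?_, ?_, ?_⟩
  · calc t ≤ M * t := Nat.le_mul_of_pos_left _ hM0
      _ ≤ r := ht1
  · have h1 : 4 * ((k * t + 1) * A) ≤ M * t + 4 * A := by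
      rw [hM]
      nlinarith [Nat.zero_le (A * t)]
    have h2 : 2 * ((k * t + 1) * A) ≤ r := by omega
    obtain ⟨s, hs⟩ : ∃ s, s = (k * t + 1) * A := ⟨_, rfl⟩
    rw [← hs] at h2 ⊢
    have h3 : 2 * k + 1 ≤ p ^ (r - s) := by
      have h4 : 2 * k + 1 ≤ r - s := by omega
      calc 2 * k + 1 ≤ r - s := h4
        _ ≤ 2 ^ (r - s) := Nat.lt_two_pow_self.le
        _ ≤ p ^ (r - s) := Nat.pow_le_pow_left hp _
    have h5 : p ^ r = p ^ s * p ^ (r - s) := by
      rw [← pow_add]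
      congr 1
      omega
    have h6 : 1 ≤ p ^ s := Nat.one_le_pow _ _ (by omega)
    have h7 : p ^ s * (2 * k + 1) ≤ p ^ r := by
      rw [h5]
      exact Nat.mul_le_mul_left _ h3
    have h8 : 2 * (k * p ^ s) + 1 ≤ p ^ r := by
      calc 2 * (k * p ^ s) + 1 ≤ 2 * (k * p ^ s) + p ^ s := by omega
        _ = p ^ s * (2 * k + 1) := by ring
        _ ≤ p ^ r := h7
    omega
  · have hP : (2 : ℝ) ≤ p := by exact_mod_cast hp
    have hP0 : (0 : ℝ) ≤ p := by linarith
    have hP1 : (1 : ℝ) ≤ p := by linarith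
    have hPp : (0 : ℝ) < p := by linarith
    have e1 : ((p ^ r : ℕ) : ℝ) ^ (1 / (4 * (M : ℝ))) = (p : ℝ) ^ ((r : ℝ) * (1 / (4 * (M : ℝ)))) := by
      rw [Real.rpow_mul hP0, Real.rpow_natCast, Nat.cast_pow]
    have e2 : (2 : ℝ) ≤ (r : ℝ) * (1 / (4 * (M : ℝ))) := by
      rw [mul_one_div, le_div_iff₀ (by positivity)]
      have h1 : 8 * M ≤ r := by omega
      have h2 : (8 : ℝ) * M ≤ r := by exact_mod_cast h1
      linarith
    have e3 : (4 : ℝ) ≤ (p : ℝ) ^ ((r : ℝ) * (1 / (4 * (M : ℝ)))) := by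
      calc (4 : ℝ) ≤ (p : ℝ) ^ (2 : ℕ) := by nlinarith
        _ = (p : ℝ) ^ ((2 : ℕ) : ℝ) := (Real.rpow_natCast _ _).symm
        _ ≤ _ := Real.rpow_le_rpow_of_exponent_le hP1 (by exact_mod_cast e2)
    rw [e1]
    have e4 : (r : ℝ) * (1 / (4 * (M : ℝ))) + (r : ℝ) * (1 / (4 * (M : ℝ))) ≤ (t : ℝ) := by
      have h1 : r ≤ 2 * M * t := by
        have : 2 * M * t = 2 * (M * t) := by ring
        rw [this]
        omega
      have h2 : (r : ℝ) ≤ 2 * M * t := by exact_mod_cast h1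
      have h3 : (r : ℝ) * (1 / (4 * (M : ℝ))) + (r : ℝ) * (1 / (4 * (M : ℝ))) = r / (2 * M) := by
        have h4 : (M : ℝ) ≠ 0 := hMR.ne'
        rw [← mul_add, ← add_div, mul_div_assoc', div_eq_div_iff (by positivity) (by positivity)]
        ring
      rw [h3, div_le_iff₀ (by positivity)]
      linarith
    calc 4 * (p : ℝ) ^ ((r : ℝ) * (1 / (4 * (M : ℝ))))
        ≤ (p : ℝ) ^ ((r : ℝ) * (1 / (4 * (M : ℝ)))) * (p : ℝ) ^ ((r : ℝ) * (1 / (4 * (M : ℝ)))) :=
          mul_le_mul_of_nonneg_right e3 (Real.rpow_nonneg hP0 _)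
      _ = (p : ℝ) ^ ((r : ℝ) * (1 / (4 * (M : ℝ))) + (r : ℝ) * (1 / (4 * (M : ℝ)))) := (Real.rpow_add hPp _ _).symm
      _ ≤ (p : ℝ) ^ (t : ℝ) := Real.rpow_le_rpow_of_exponent_le hP1 e4
      _ = ((p ^ t : ℕ) : ℝ) ^ 1 := by rw [Real.rpow_natCast, Nat.cast_pow, pow_one]
      _ ≤ ((p ^ t : ℕ) : ℝ) ^ d := by
          refine pow_le_pow_right₀ ?_ hd
          rw [Nat.cast_pow]
          exact one_le_pow₀ hP1
-- END pra

-- BEGIN prb
/-- `A = (k + 1) ^ (2 d)`, `B' = p / 16`, `R` = the integer part of `p ^ (1 / (4 A (2 d k + 1)))`, `B = B' / (8 A R ^ (2 d k))`: `(p / B) ^ A ≤ (300 A R ^ (2 d k)) ^ A ≤ (300 A) ^ A p ^ (1/4)`, `κ = 1 / (8 A (2 d k + 1) R0)`, `q = p ^ r ≤ p ^ R0`. -/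
theorem prb (d k R0 : ℕ) (hd : 1 ≤ d) : ∃ κ : ℝ, 0 < κ ∧ ∃ p₀ : ℕ, ∀ p r : ℕ, p₀ ≤ p → 1 ≤ r → r ≤ R0 →
    ∃ B B' R : ℕ, 1 ≤ B ∧ 1 ≤ B' ∧ 16 * B' ≤ p ∧ R < p ∧ 8 * ((k + 1) ^ (2 * d) * R ^ (2 * d * k) * B) ≤ B' ∧ 2 * B ≤ p ∧
      8 * k * p ^ ((k + 1) ^ (2 * d)) ≤ (p ^ r - 1) * B ^ ((k + 1) ^ (2 * d)) ∧
      4 * ((p ^ r : ℕ) : ℝ) ^ κ ≤ ((R : ℝ) + 1) ^ d := by
  obtain ⟨A, hA⟩ : ∃ A, A = (k + 1) ^ (2 * d) := ⟨_, rfl⟩
  have hA1 : 1 ≤ A := by rw [hA]; exact Nat.one_le_pow _ _ (Nat.succ_pos k)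
  obtain ⟨D, hD⟩ : ∃ D, D = 2 * d * k := ⟨_, rfl⟩
  obtain ⟨X, hX⟩ : ∃ X, X = 4 * A * (D + 1) := ⟨_, rfl⟩
  have hX4 : 4 ≤ X := by
    rw [hX]
    nlinarith
  have hXR : (0 : ℝ) < X := by
    have : 0 < X := by omega
    exact_mod_cast this
  rw [← hA, ← hD]
  obtain ⟨C1, hC1⟩ : ∃ C1, C1 = 16 * k * (512 * A) ^ A := ⟨_, rfl⟩
  obtain ⟨Y1, hY1⟩ : ∃ Y1, Y1 = (128 * A) ^ 2 := ⟨_, rfl⟩
  obtain ⟨Y2, hY2⟩ : ∃ Y2, Y2 = C1 ^ 2 := ⟨_, rfl⟩
  obtain ⟨Y3, hY3⟩ : ∃ Y3, Y3 = 16 ^ X := ⟨_, rfl⟩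
  refine ⟨1 / (2 * (X : ℝ) * (R0 + 1)), by positivity, Y1 + Y2 + Y3 + 16, fun p r hp hr hrR => ?_⟩
  have hp16 : 16 ≤ p := by omega
  obtain ⟨R, hR⟩ : ∃ R, R = Nat.findGreatest (fun R => R ^ X ≤ p) p := ⟨_, rfl⟩
  have hR1 : R ^ X ≤ p := by
    have h1 := Nat.findGreatest_spec (P := fun R => R ^ X ≤ p) (m := 1) (n := p) (by omega) (by
      show 1 ^ X ≤ p
      rw [one_pow]
      omega)
    rw [hR]
    exact h1
  have hR2 : p < (R + 1) ^ X := by
    by_contra hcon
    have h1 : (R + 1) ^ X ≤ p := not_lt.1 hcon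
    have h2 : R + 1 ≤ p := (Nat.le_self_pow (by omega) (R + 1)).trans h1
    have h3 := Nat.le_findGreatest (P := fun R => R ^ X ≤ p) h2 h1
    rw [← hR] at h3
    omega
  have hR0 : 1 ≤ R := by
    by_contra hcon
    have h1 : R = 0 := by omega
    rw [h1, zero_add, one_pow] at hR2
    omega
  obtain ⟨Q, hQ⟩ : ∃ Q, Q = R ^ D := ⟨_, rfl⟩
  have hQ1 : 1 ≤ Q := by rw [hQ]; exact Nat.one_le_pow _ _ hR0
  have hQA : (Q ^ A) ^ 4 ≤ p := by
    rw [hQ, ← pow_mul, ← pow_mul]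
    refine le_trans (Nat.pow_le_pow_right hR0 ?_) hR1
    rw [hX]
    nlinarith
  have hZ1 : 1 ≤ Q ^ A := Nat.one_le_pow _ _ hQ1
  have hZ2 : (Q ^ A) ^ 2 ≤ p := le_trans (Nat.pow_le_pow_right hZ1 (by norm_num)) hQA
  have hQZ : Q ≤ Q ^ A := Nat.le_self_pow (by omega) Q
  have hQ2 : Q ^ 2 ≤ p := le_trans (Nat.pow_le_pow_left hQZ 2) hZ2
  have hB'1 : 16 * (p / 16) ≤ p := Nat.mul_div_le p 16
  have hB'2 : p < 16 * (p / 16) + 16 := by omega
  obtain ⟨B', hB'⟩ : ∃ B', B' = p / 16 := ⟨_, rfl⟩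
  rw [← hB'] at hB'1 hB'2
  have hB'0 : 1 ≤ B' := by omega
  have h128 : 128 * A * Q ≤ p := by
    have h1 : (128 * A * Q) ^ 2 ≤ p ^ 2 := by
      calc (128 * A * Q) ^ 2 = (128 * A) ^ 2 * Q ^ 2 := by ring
        _ ≤ p * p := Nat.mul_le_mul (by rw [← hY1]; omega) hQ2
        _ = p ^ 2 := by ring
    exact (Nat.pow_le_pow_iff_left (by norm_num)).1 h1
  have hN : 8 * A * Q ≤ B' := by
    have h1 : 16 * (8 * A * Q) ≤ p := by
      calc 16 * (8 * A * Q) = 128 * A * Q := by ring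
        _ ≤ p := h128
    omega
  have hN0 : 0 < 8 * A * Q := by positivity
  obtain ⟨B, hB⟩ : ∃ B, B = B' / (8 * A * Q) := ⟨_, rfl⟩
  have hB1 : 8 * A * Q * B ≤ B' := by rw [hB]; exact Nat.mul_div_le _ _
  have hB0 : 1 ≤ B := by rw [hB]; exact (Nat.one_le_div_iff hN0).2 hN
  have hB2 : B' < 8 * A * Q * B + 8 * A * Q := by
    have h1 := Nat.div_add_mod B' (8 * A * Q)
    have h2 := Nat.mod_lt B' hN0
    rw [← hB] at h1
    omega
  have hBB : B ≤ B' := by rw [hB]; exact Nat.div_le_self _ _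
  have hpB : p ≤ 512 * A * Q * B := by
    have h1 : 8 * A * Q ≤ 8 * A * Q * B := Nat.le_mul_of_pos_right _ hB0
    have h2 : B' ≤ 16 * A * Q * B := by
      have : 16 * A * Q * B = 8 * A * Q * B + 8 * A * Q * B := by ring
      omega
    have h3 : p ≤ 32 * B' := by omega
    calc p ≤ 32 * B' := h3
      _ ≤ 32 * (16 * A * Q * B) := Nat.mul_le_mul_left _ h2
      _ = 512 * A * Q * B := by ring
  have hC : C1 * Q ^ A ≤ p := by
    have h1 : (C1 * Q ^ A) ^ 2 ≤ p ^ 2 := by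
      calc (C1 * Q ^ A) ^ 2 = C1 ^ 2 * (Q ^ A) ^ 2 := by ring
        _ ≤ p * p := Nat.mul_le_mul (by rw [← hY2]; omega) hZ2
        _ = p ^ 2 := by ring
    exact (Nat.pow_le_pow_iff_left (by norm_num)).1 h1
  refine ⟨B, B', R, hB0, hB'0, hB'1, ?_, ?_, ?_, ?_, ?_⟩
  · rcases Nat.lt_or_ge R 2 with h1 | h1
    · omega
    · calc R < R ^ 2 := by nlinarith
        _ ≤ R ^ X := Nat.pow_le_pow_right hR0 (by omega)
        _ ≤ p := hR1
  · rw [← hQ]
    calc 8 * (A * Q * B) = 8 * A * Q * B := by ring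
      _ ≤ B' := hB1
  · omega
  · have h1 : p ^ A ≤ (512 * A) ^ A * Q ^ A * B ^ A := by
      calc p ^ A ≤ (512 * A * Q * B) ^ A := Nat.pow_le_pow_left hpB A
        _ = (512 * A) ^ A * Q ^ A * B ^ A := by rw [mul_pow, mul_pow]
    have h2 : 2 * (8 * k * p ^ A) ≤ p * B ^ A := by
      calc 2 * (8 * k * p ^ A) ≤ 2 * (8 * k * ((512 * A) ^ A * Q ^ A * B ^ A)) :=
            Nat.mul_le_mul_left _ (Nat.mul_le_mul_left _ h1)
        _ = C1 * Q ^ A * B ^ A := by rw [hC1]; ring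
        _ ≤ p * B ^ A := Nat.mul_le_mul_right _ hC
    have h3 : p ≤ 2 * (p ^ r - 1) := by
      have h4 : p ≤ p ^ r := Nat.le_self_pow (by omega) p
      omega
    have h5 : 2 * (8 * k * p ^ A) ≤ 2 * ((p ^ r - 1) * B ^ A) := by
      calc 2 * (8 * k * p ^ A) ≤ p * B ^ A := h2
        _ ≤ 2 * (p ^ r - 1) * B ^ A := Nat.mul_le_mul_right _ h3
        _ = 2 * ((p ^ r - 1) * B ^ A) := by ring
    omega
  · have hP0 : (0 : ℝ) ≤ p := Nat.cast_nonneg p
    have hP1 : (1 : ℝ) ≤ p := by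
      have : 1 ≤ p := by omega
      exact_mod_cast this
    have hPp : (0 : ℝ) < p := by linarith
    have e1 : ((p ^ r : ℕ) : ℝ) ^ (1 / (2 * (X : ℝ) * (R0 + 1))) = (p : ℝ) ^ ((r : ℝ) * (1 / (2 * (X : ℝ) * (R0 + 1)))) := by
      rw [Real.rpow_mul hP0, Real.rpow_natCast, Nat.cast_pow]
    have e2 : (r : ℝ) * (1 / (2 * (X : ℝ) * (R0 + 1))) ≤ 1 / (2 * (X : ℝ)) := by
      rw [mul_one_div, div_le_div_iff₀ (by positivity) (by positivity), one_mul]
      have h1 : (r : ℝ) ≤ R0 + 1 := by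
        have : r ≤ R0 + 1 := by omega
        exact_mod_cast this
      have h2 : (0 : ℝ) < 2 * X := by positivity
      nlinarith
    have e3 : (4 : ℝ) ≤ (p : ℝ) ^ (1 / (2 * (X : ℝ))) := by
      have h1 : ((16 : ℝ) ^ X) ≤ p := by
        have h2 : 16 ^ X ≤ p := by
          rw [← hY3]
          omega
        exact_mod_cast h2
      have h3 : (4 : ℝ) = ((16 : ℝ) ^ X) ^ (1 / (2 * (X : ℝ))) := by
        rw [← Real.rpow_natCast, ← Real.rpow_mul (by norm_num)]
        have h4 : (X : ℝ) * (1 / (2 * (X : ℝ))) = 1 / 2 := by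
          field_simp
        rw [h4]
        have h5 : (16 : ℝ) = 4 ^ (2 : ℝ) := by
          rw [show (2 : ℝ) = ((2 : ℕ) : ℝ) by norm_num, Real.rpow_natCast]
          norm_num
        rw [h5, ← Real.rpow_mul (by norm_num)]
        norm_num
      rw [h3]
      exact Real.rpow_le_rpow (by positivity) h1 (by positivity)
    have e4 : (p : ℝ) ^ (1 / (X : ℝ)) ≤ (R : ℝ) + 1 := by
      have h1 : (p : ℝ) ≤ ((R : ℝ) + 1) ^ X := by exact_mod_cast hR2.le
      calc (p : ℝ) ^ (1 / (X : ℝ)) ≤ (((R : ℝ) + 1) ^ X) ^ (1 / (X : ℝ)) :=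
            Real.rpow_le_rpow hP0 h1 (by positivity)
        _ = (R : ℝ) + 1 := by
            rw [← Real.rpow_natCast, ← Real.rpow_mul (by positivity), mul_one_div, div_self hXR.ne', Real.rpow_one]
    rw [e1]
    calc 4 * (p : ℝ) ^ ((r : ℝ) * (1 / (2 * (X : ℝ) * (R0 + 1))))
        ≤ (p : ℝ) ^ (1 / (2 * (X : ℝ))) * (p : ℝ) ^ (1 / (2 * (X : ℝ))) :=
          mul_le_mul e3 (Real.rpow_le_rpow_of_exponent_le hP1 e2) (Real.rpow_nonneg hP0 _) (Real.rpow_nonneg hP0 _)
      _ = (p : ℝ) ^ (1 / (X : ℝ)) := by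
          rw [← Real.rpow_add hPp]
          congr 1
          field_simp
          norm_num
      _ ≤ ((R : ℝ) + 1) ^ 1 := by rw [pow_one]; exact e4
      _ ≤ ((R : ℝ) + 1) ^ d := pow_le_pow_right₀ (by linarith [(Nat.cast_nonneg R : (0 : ℝ) ≤ R)]) hd
-- END prb

/-- the statement for one field -/
def Gd (d k : ℕ) (κ C : ℝ) (F : Type) [Field F] [Fintype F] : Prop :=
  ∀ f : MvPolynomial (Fin d ⊕ Fin d) F, f.totalDegree ≤ k →
    ∀ (V : Type) [Fintype V] (G : SimpleGraph V) (x : V → Fin d → F) (z : V → F),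
      (∀ u, 2 * z u ≠ eval (Sum.elim (x u) (x u)) f) →
      (∀ u v, G.Adj u v → z u + z v = eval (Sum.elim (x u) (x v)) f) →
      ∃ I : Finset V, G.IsIndepSet (I : Set V) ∧
        (Fintype.card V : ℝ) ≤ C * (Fintype.card F : ℝ) ^ ((d : ℝ) - κ) * I.card

-- BEGIN trv
/-- Vertices with the same labels `(x, z)` are not adjacent: the largest class of equal labels has at least `n / q ^ (d + 1)` elements. -/
theorem trv (d k : ℕ) (κ : ℝ) (F : Type) [Field F] [Fintype F] :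
    Gd d k κ ((Fintype.card F : ℝ) ^ (1 + κ)) F := by
  classical
  intro f hf V _ G x z hna hG
  have hQ : (0 : ℝ) < (Fintype.card F : ℝ) := by exact_mod_cast Fintype.card_pos
  obtain ⟨w, -, hw⟩ := Finset.exists_max_image (Finset.univ : Finset ((Fin d → F) × F))
    (fun w => (Finset.univ.filter fun v : V => (x v, z v) = w).card) ⟨(fun _ => 0, 0), Finset.mem_univ _⟩
  refine ⟨Finset.univ.filter fun v : V => (x v, z v) = w, ?_, ?_⟩
  · intro a ha b hb _ hab
    have ha' : (x a, z a) = w := by simpa using ha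
    have hb' : (x b, z b) = w := by simpa using hb
    have h1 := hG a b hab
    have hx : x b = x a := by rw [← ha'] at hb'; exact (Prod.mk.inj hb').1
    have hz : z b = z a := by rw [← ha'] at hb'; exact (Prod.mk.inj hb').2
    rw [hx, hz] at h1
    exact hna a (by rw [← h1]; ring)
  · have h1 : Fintype.card V = ∑ j : (Fin d → F) × F, (Finset.univ.filter fun v : V => (x v, z v) = j).card := by
      rw [← Finset.card_univ]
      exact Finset.card_eq_sum_card_fiberwise (fun v _ => Finset.mem_univ _)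
    have h2 : Fintype.card V ≤ Fintype.card F ^ (d + 1) * (Finset.univ.filter fun v : V => (x v, z v) = w).card := by
      rw [h1]
      calc ∑ j : (Fin d → F) × F, (Finset.univ.filter fun v : V => (x v, z v) = j).card
          ≤ ∑ _j : (Fin d → F) × F, (Finset.univ.filter fun v : V => (x v, z v) = w).card :=
            Finset.sum_le_sum fun j hj => hw j hj
        _ = Fintype.card F ^ (d + 1) * (Finset.univ.filter fun v : V => (x v, z v) = w).card := by
            rw [Finset.sum_const, Finset.card_univ, Fintype.card_prod, Fintype.card_fun, Fintype.card_fin, pow_succ,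
              smul_eq_mul]
    have h3 : (Fintype.card F : ℝ) ^ (1 + κ) * (Fintype.card F : ℝ) ^ ((d : ℝ) - κ) = (Fintype.card F : ℝ) ^ (d + 1) := by
      rw [← Real.rpow_add hQ]
      have : (1 + κ) + ((d : ℝ) - κ) = ((d + 1 : ℕ) : ℝ) := by push_cast; ring
      rw [this, Real.rpow_natCast]
    rw [h3]
    exact_mod_cast h2
-- END trv

-- BEGIN mno
theorem mno {d k : ℕ} {κ κ' C C' : ℝ} {F : Type} [Field F] [Fintype F] (h : Gd d k κ C F) (hκ : κ' ≤ κ) (hC : C ≤ C')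
    (hC0 : 0 ≤ C) : Gd d k κ' C' F := by
  intro f hf V _ G x z h1 h2
  obtain ⟨I, hI, hc⟩ := h f hf V G x z h1 h2
  refine ⟨I, hI, hc.trans ?_⟩
  have hq : (1 : ℝ) ≤ (Fintype.card F : ℝ) := by
    exact_mod_cast Fintype.card_pos
  have h3 : (Fintype.card F : ℝ) ^ ((d : ℝ) - κ) ≤ (Fintype.card F : ℝ) ^ ((d : ℝ) - κ') :=
    Real.rpow_le_rpow_of_exponent_le hq (by linarith)
  have h4 : (0 : ℝ) ≤ (Fintype.card F : ℝ) ^ ((d : ℝ) - κ) := Real.rpow_nonneg (by linarith) _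
  have h5 : (0 : ℝ) ≤ (I.card : ℝ) := Nat.cast_nonneg _
  have h6 : C * (Fintype.card F : ℝ) ^ ((d : ℝ) - κ) ≤ C' * (Fintype.card F : ℝ) ^ ((d : ℝ) - κ') :=
    mul_le_mul hC h3 h4 (hC0.trans hC)
  exact mul_le_mul_of_nonneg_right h6 h5
-- END mno

-- BEGIN fin
/-- `pra` gives `R0`, `prb` with this `R0` gives `p₀` (enlarge it to `3`); `FiniteField.card'`: `q = p ^ r`. `r ≥ R0`: `big` with `K = ZMod p`; `r < R0` and `p ≥ p₀`: `smc`; `r < R0` and `p < p₀`: `q < p₀ ^ R0`, `trv` with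
`C = (p₀ ^ R0) ^ (1 + κ)`. In the first two cases the bound holds with `C = 1`. -/
theorem fin (d k : ℕ) (hd : 1 ≤ d) : ∃ κ : ℝ, 0 < κ ∧ ∃ C : ℝ, ∀ (F : Type) [Field F] [Fintype F], Gd d k κ C F := by
  obtain ⟨κa, hκa, R0, hR0, ha⟩ := pra d k hd
  obtain ⟨κb, hκb, p0, hb⟩ := prb d k R0 hd
  have hκ : 0 < min κa κb := lt_min hκa hκb
  refine ⟨min κa κb, hκ, max 1 ((((max p0 3) ^ R0 : ℕ) : ℝ) ^ (1 + min κa κb)), ?_⟩
  intro F _ _
  obtain ⟨p, hchar⟩ := CharP.exists F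
  obtain ⟨⟨r, hr⟩, hp, hcard⟩ := FiniteField.card F p
  have hcard : Fintype.card F = p ^ r := hcard
  haveI : Fact p.Prime := ⟨hp⟩
  letI : Algebra (ZMod p) F := ZMod.algebra F p
  have hQ : (1 : ℝ) < (Fintype.card F : ℝ) := by exact_mod_cast Fintype.one_lt_card
  have hQ0 : (0 : ℝ) < (Fintype.card F : ℝ) := by linarith
  have hfin : r = Module.finrank (ZMod p) F := by
    have h1 := Module.card_eq_pow_finrank (K := ZMod p) (V := F)
    rw [ZMod.card, hcard] at h1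
    exact Nat.pow_right_injective hp.two_le h1
  -- the conclusion from a bound with `4`
  have conc : ∀ (κ T : ℝ) (n i : ℕ), 4 * ((p ^ r : ℕ) : ℝ) ^ κ ≤ T → (n : ℝ) * T ≤ 4 * (Fintype.card F : ℝ) ^ d * i →
      (n : ℝ) ≤ 1 * (Fintype.card F : ℝ) ^ ((d : ℝ) - κ) * i := by
    intro κ T n i h1 h2
    rw [← hcard] at h1
    have hk : 0 < (Fintype.card F : ℝ) ^ κ := Real.rpow_pos_of_pos hQ0 _
    have h3 : (n : ℝ) * (4 * (Fintype.card F : ℝ) ^ κ) ≤ 4 * (Fintype.card F : ℝ) ^ d * i :=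
      (mul_le_mul_of_nonneg_left h1 (Nat.cast_nonneg n)).trans h2
    have h4 : (Fintype.card F : ℝ) ^ d = (Fintype.card F : ℝ) ^ ((d : ℝ) - κ) * (Fintype.card F : ℝ) ^ κ := by
      rw [← Real.rpow_add hQ0, sub_add_cancel, Real.rpow_natCast]
    have h5 : (n : ℝ) * (Fintype.card F : ℝ) ^ κ ≤
        (1 * (Fintype.card F : ℝ) ^ ((d : ℝ) - κ) * i) * (Fintype.card F : ℝ) ^ κ := by
      rw [h4] at h3
      linarith
    exact le_of_mul_le_mul_right h5 hk
  rcases le_or_gt R0 r with h | h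
  · have hg : Gd d k κa 1 F := by
      intro f hf V _ G x z hna hG
      obtain ⟨t, ht, h1, h2⟩ := ha p r hp.two_le h
      obtain ⟨I, hI, hn⟩ := big (K := ZMod p) d k t (by rw [← hfin]; exact ht) f hf G x z hna hG
        (by rw [ZMod.card, hcard]; exact h1)
      refine ⟨I, hI, conc κa (((p ^ t : ℕ) : ℝ) ^ d) _ _ h2 ?_⟩
      rw [ZMod.card] at hn
      exact_mod_cast hn
    exact mno hg (min_le_left _ _) (le_max_left _ _) zero_le_one
  · rcases le_or_gt (max p0 3) p with h' | h'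
    · have hg : Gd d k κb 1 F := by
        intro f hf V _ G x z hna hG
        obtain ⟨B, B', R, h1, h2, h3, h4, h5, h6, h7, h8⟩ := hb p r ((le_max_left _ _).trans h') hr h.le
        have hp2 : p ≠ 2 := by
          have := (le_max_right p0 3).trans h'
          omega
        obtain ⟨I, hI, hn⟩ := smc p hp2 d k f hf G x z hna hG B B' R h1 h2 h3 h4 h5 h6 (by rw [hcard]; exact h7)
        refine ⟨I, hI, conc κb (((R : ℝ) + 1) ^ d) _ _ h8 ?_⟩
        exact_mod_cast hn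
      exact mno hg (min_le_right _ _) (le_max_left _ _) zero_le_one
    · refine mno (trv d k (min κa κb) F) le_rfl ?_ (Real.rpow_nonneg hQ0.le _)
      refine le_trans ?_ (le_max_right _ _)
      apply Real.rpow_le_rpow hQ0.le _ (by linarith)
      rw [hcard]
      have h1 : p ^ r ≤ (max p0 3) ^ R0 :=
        (Nat.pow_le_pow_left h'.le r).trans (Nat.pow_le_pow_right (by positivity) h.le)
      exact_mod_cast h1
-- END fin

/-! ## Part 4: the chromatic number -/

/-- greedy colouring: if every set `S` of vertices has an independent subset with at least `|S| / M` elements, then a set `S` with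
`|S| (1 - 1/M)^s < 1` is the union of `s` independent sets -/
theorem grs {P : Type} [Fintype P] (H : SimpleGraph P) (M : ℝ) (hM : 1 ≤ M)
    (h : ∀ S : Finset P, ∃ I : Finset P, I ⊆ S ∧ H.IsIndepSet (I : Set P) ∧ (S.card : ℝ) ≤ M * I.card) :
    ∀ (s : ℕ) (S : Finset P), (S.card : ℝ) * (1 - 1 / M) ^ s < 1 →
      ∃ g : P → ℕ, (∀ a ∈ S, g a < s) ∧ ∀ a ∈ S, ∀ b ∈ S, H.Adj a b → g a ≠ g b := by
  classical
  have hM0 : 0 < M := by linarith
  have hr : 0 ≤ 1 - 1 / M := by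
    have : 1 / M ≤ 1 := by
      rw [div_le_one hM0]; exact hM
    linarith
  intro s
  induction s with
  | zero =>
    intro S hS
    have h0 : S = ∅ := by
      rw [← Finset.card_eq_zero]
      have : (S.card : ℝ) < 1 := by simpa using hS
      have : S.card < 1 := by exact_mod_cast this
      omega
    refine ⟨fun _ => 0, ?_, ?_⟩
    · intro a ha; simp [h0] at ha
    · intro a ha; simp [h0] at ha
  | succ s ih =>
    intro S hS
    obtain ⟨I, hIS, hI, hc⟩ := h S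
    have hcard : ((S \ I).card : ℝ) = S.card - I.card := by
      have := Finset.card_sdiff_add_card_eq_card hIS
      have : ((S \ I).card : ℝ) + I.card = S.card := by exact_mod_cast this
      linarith
    have h1 : ((S \ I).card : ℝ) ≤ S.card * (1 - 1 / M) := by
      rw [hcard]
      have : (S.card : ℝ) / M ≤ I.card := by
        rw [div_le_iff₀ hM0]
        linarith
      have e : (S.card : ℝ) * (1 - 1 / M) = S.card - S.card / M := by ring
      linarith
    have h2 : ((S \ I).card : ℝ) * (1 - 1 / M) ^ s < 1 := by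
      calc ((S \ I).card : ℝ) * (1 - 1 / M) ^ s ≤ (S.card * (1 - 1 / M)) * (1 - 1 / M) ^ s :=
            mul_le_mul_of_nonneg_right h1 (pow_nonneg hr _)
        _ = S.card * (1 - 1 / M) ^ (s + 1) := by ring
        _ < 1 := hS
    obtain ⟨g, hg1, hg2⟩ := ih (S \ I) h2
    refine ⟨fun a => if a ∈ I then s else g a, ?_, ?_⟩
    · intro a ha
      by_cases haI : a ∈ I
      · simp [haI]
      · simp only [haI, if_false]
        have := hg1 a (Finset.mem_sdiff.mpr ⟨ha, haI⟩)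
        omega
    · intro a ha b hb hab
      by_cases haI : a ∈ I <;> by_cases hbI : b ∈ I
      · exfalso
        exact hI (by exact_mod_cast haI) (by exact_mod_cast hbI) hab.ne hab
      · simp only [haI, hbI, if_true, if_false]
        have := hg1 b (Finset.mem_sdiff.mpr ⟨hb, hbI⟩)
        omega
      · simp only [haI, hbI, if_true, if_false]
        have := hg1 a (Finset.mem_sdiff.mpr ⟨ha, haI⟩)
        omega
      · simp only [haI, hbI, if_false]
        exact hg2 a (Finset.mem_sdiff.mpr ⟨ha, haI⟩) b (Finset.mem_sdiff.mpr ⟨hb, hbI⟩) hab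

/-- the number of colours -/
theorem grd {P : Type} [Fintype P] (H : SimpleGraph P) (M N : ℝ) (hM : 1 ≤ M) (hN : 1 ≤ N) (hPN : (Fintype.card P : ℝ) ≤ N)
    (h : ∀ S : Finset P, ∃ I : Finset P, I ⊆ S ∧ H.IsIndepSet (I : Set P) ∧ (S.card : ℝ) ≤ M * I.card) :
    ∃ c : ℕ, (c : ℝ) ≤ M * Real.log N + 1 ∧ H.Colorable c := by
  have hM0 : 0 < M := by linarith
  have hN0 : 0 < N := by linarith
  set s : ℕ := ⌊M * Real.log N⌋₊ + 1 with hs
  have hlog : 0 ≤ Real.log N := Real.log_nonneg hN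
  have hs1 : (s : ℝ) ≤ M * Real.log N + 1 := by
    rw [hs]; push_cast
    have := Nat.floor_le (mul_nonneg hM0.le hlog)
    linarith
  have hs2 : M * Real.log N < (s : ℝ) := by
    rw [hs]; push_cast
    exact Nat.lt_floor_add_one _
  have hr : 0 ≤ 1 - 1 / M := by
    have : 1 / M ≤ 1 := by
      rw [div_le_one hM0]; exact hM
    linarith
  have key : ((Finset.univ : Finset P).card : ℝ) * (1 - 1 / M) ^ s < 1 := by
    have h1 : (1 - 1 / M) ^ s ≤ Real.exp (-((s : ℝ) / M)) := by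
      have h0 : 1 - 1 / M ≤ Real.exp (-(1 / M)) := by
        have := Real.add_one_le_exp (-(1 / M))
        linarith
      calc (1 - 1 / M) ^ s ≤ (Real.exp (-(1 / M))) ^ s := pow_le_pow_left₀ hr h0 s
        _ = Real.exp (-((s : ℝ) / M)) := by
            rw [← Real.exp_nat_mul]
            congr 1
            ring
    have h2 : Real.exp (-((s : ℝ) / M)) < Real.exp (-Real.log N) := by
      apply Real.exp_lt_exp.mpr
      have : Real.log N < (s : ℝ) / M := by
        rw [lt_div_iff₀ hM0]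
        linarith
      linarith
    have h3 : Real.exp (-Real.log N) = 1 / N := by
      rw [Real.exp_neg, Real.exp_log hN0, one_div]
    calc ((Finset.univ : Finset P).card : ℝ) * (1 - 1 / M) ^ s ≤ N * (1 - 1 / M) ^ s := by
          apply mul_le_mul_of_nonneg_right _ (pow_nonneg hr _)
          simpa using hPN
      _ ≤ N * Real.exp (-((s : ℝ) / M)) := mul_le_mul_of_nonneg_left h1 hN0.le
      _ < N * (1 / N) := by
          apply mul_lt_mul_of_pos_left _ hN0
          rw [← h3]; exact h2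
      _ = 1 := by field_simp
  obtain ⟨g, hg1, hg2⟩ := grs H M hM h s Finset.univ key
  refine ⟨s, hs1, ⟨SimpleGraph.Coloring.mk (fun a => (⟨g a, hg1 a (Finset.mem_univ _)⟩ : Fin s)) ?_⟩⟩
  intro a b hab he
  exact hg2 a (Finset.mem_univ _) b (Finset.mem_univ _) hab (by simpa using he)

/-- the graph of all labels without the absolute ones -/
def lg {F : Type} [Field F] {d : ℕ} (f : MvPolynomial (Fin d ⊕ Fin d) F) :
    SimpleGraph {w : (Fin d → F) × F // 2 * w.2 ≠ eval (Sum.elim w.1 w.1) f} where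
  Adj a b := a.1.2 + b.1.2 = eval (Sum.elim a.1.1 b.1.1) f ∧ b.1.2 + a.1.2 = eval (Sum.elim b.1.1 a.1.1) f
  symm := ⟨fun _ _ h => ⟨h.2, h.1⟩⟩
  loopless := ⟨fun a h => a.2 (by rw [← h.1]; ring)⟩

/-- the number of colours for one field -/
theorem clo {d k : ℕ} {κ C : ℝ} {F : Type} [Field F] [Fintype F] (h : Gd d k κ C F) (hC : 1 ≤ C) (hκ : κ ≤ d)
    (f : MvPolynomial (Fin d ⊕ Fin d) F) (hf : f.totalDegree ≤ k)
    (V : Type) (G : SimpleGraph V) (x : V → Fin d → F) (z : V → F)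
    (hna : ∀ u, 2 * z u ≠ eval (Sum.elim (x u) (x u)) f)
    (hG : ∀ u v, G.Adj u v → z u + z v = eval (Sum.elim (x u) (x v)) f) :
    ∃ c : ℕ, (c : ℝ) ≤ C * (Fintype.card F : ℝ) ^ ((d : ℝ) - κ) * Real.log ((Fintype.card F : ℝ) ^ (d + 1)) + 1 ∧
      G.Colorable c := by
  classical
  have hQ : (1 : ℝ) < (Fintype.card F : ℝ) := by exact_mod_cast Fintype.one_lt_card
  have hM : 1 ≤ C * (Fintype.card F : ℝ) ^ ((d : ℝ) - κ) := by
    have h1 : 1 ≤ (Fintype.card F : ℝ) ^ ((d : ℝ) - κ) := Real.one_le_rpow hQ.le (by linarith)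
    nlinarith
  obtain ⟨c, hc, hcol⟩ := grd (lg f) (C * (Fintype.card F : ℝ) ^ ((d : ℝ) - κ)) ((Fintype.card F : ℝ) ^ (d + 1)) hM
    (one_le_pow₀ hQ.le)
    (by
      have h1 : Fintype.card {w : (Fin d → F) × F // 2 * w.2 ≠ eval (Sum.elim w.1 w.1) f} ≤
          Fintype.card ((Fin d → F) × F) := Fintype.card_subtype_le _
      have h2 : Fintype.card ((Fin d → F) × F) = Fintype.card F ^ (d + 1) := by
        rw [Fintype.card_prod, Fintype.card_fun, Fintype.card_fin, pow_succ]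
      rw [h2] at h1
      exact_mod_cast h1)
    (by
      intro S
      obtain ⟨I, hI, hn⟩ := h f hf S ((lg f).comap (fun a : S => a.1)) (fun a => a.1.1.1) (fun a => a.1.1.2)
        (fun a => a.1.2) (fun a b hab => hab.1)
      refine ⟨I.map (Function.Embedding.subtype _), ?_, ?_, ?_⟩
      · intro a ha
        obtain ⟨b, _, rfl⟩ := Finset.mem_map.mp ha
        exact b.2
      · intro a ha b hb hab hadj
        obtain ⟨a', ha', rfl⟩ := Finset.mem_map.mp (by exact_mod_cast ha)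
        obtain ⟨b', hb', rfl⟩ := Finset.mem_map.mp (by exact_mod_cast hb)
        exact hI (by exact_mod_cast ha') (by exact_mod_cast hb') (fun e => hab (by rw [e])) hadj
      · rw [Finset.card_map]
        simpa using hn)
  refine ⟨c, hc, ?_⟩
  exact hcol.of_hom (⟨fun v => ⟨(x v, z v), hna v⟩, fun {a b} hab => ⟨hG a b hab, hG b a hab.symm⟩⟩ : G →g lg f)

theorem mn2 {d k : ℕ} {κ κ' C C' : ℝ} {F : Type} [Field F] [Fintype F] (h : Gd d k κ C F) (hκ : κ' ≤ κ) (hC : C ≤ C')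
    (hC0 : 0 ≤ C') : Gd d k κ' C' F := by
  intro f hf V _ G x z hna hG
  obtain ⟨I, hI, hn⟩ := h f hf V G x z hna hG
  have hQ : (1 : ℝ) < (Fintype.card F : ℝ) := by exact_mod_cast Fintype.one_lt_card
  have hI0 : (0 : ℝ) ≤ (I.card : ℝ) := by positivity
  have hpow0 : 0 < (Fintype.card F : ℝ) ^ ((d : ℝ) - κ) := Real.rpow_pos_of_pos (by linarith) _
  have hpow1 : (Fintype.card F : ℝ) ^ ((d : ℝ) - κ) ≤ (Fintype.card F : ℝ) ^ ((d : ℝ) - κ') :=
    Real.rpow_le_rpow_of_exponent_le hQ.le (by linarith)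
  refine ⟨I, hI, ?_⟩
  calc (Fintype.card V : ℝ) ≤ C * (Fintype.card F : ℝ) ^ ((d : ℝ) - κ) * I.card := hn
    _ ≤ C' * (Fintype.card F : ℝ) ^ ((d : ℝ) - κ) * I.card := by
        apply mul_le_mul_of_nonneg_right _ hI0
        exact mul_le_mul_of_nonneg_right hC hpow0.le
    _ ≤ C' * (Fintype.card F : ℝ) ^ ((d : ℝ) - κ') * I.card := by
        apply mul_le_mul_of_nonneg_right _ hI0
        exact mul_le_mul_of_nonneg_left hpow1 hC0

/-- a largest colour class -/
theorem cla {V : Type} [Fintype V] (G : SimpleGraph V) (c : ℕ) (h : G.Colorable c) :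
    ∃ I : Finset V, G.IsIndepSet (I : Set V) ∧ Fintype.card V ≤ c * I.card := by
  classical
  obtain ⟨g⟩ := h
  rcases Nat.eq_zero_or_pos c with h0 | h0
  · subst h0
    refine ⟨∅, by simp [SimpleGraph.IsIndepSet], ?_⟩
    have : IsEmpty V := ⟨fun v => (g v).elim0⟩
    simp
  · haveI : Nonempty (Fin c) := ⟨⟨0, h0⟩⟩
    obtain ⟨i, -, hi⟩ := Finset.exists_max_image (Finset.univ : Finset (Fin c))
      (fun i => (Finset.univ.filter fun v : V => g v = i).card) Finset.univ_nonempty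
    refine ⟨Finset.univ.filter fun v : V => g v = i, ?_, ?_⟩
    · intro a ha b hb _ hab
      have ha' : g a = i := by simpa using ha
      have hb' : g b = i := by simpa using hb
      exact g.valid hab (ha'.trans hb'.symm)
    · have h1 : Fintype.card V = ∑ j : Fin c, (Finset.univ.filter fun v : V => g v = j).card := by
        rw [← Finset.card_univ]
        exact Finset.card_eq_sum_card_fiberwise (fun v _ => Finset.mem_univ _)
      rw [h1]
      calc ∑ j : Fin c, (Finset.univ.filter fun v : V => g v = j).card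
          ≤ ∑ _j : Fin c, (Finset.univ.filter fun v : V => g v = i).card := Finset.sum_le_sum fun j hj => hi j hj
        _ = c * (Finset.univ.filter fun v : V => g v = i).card := by simp

/-- the exponents -/
theorem pwr (d : ℕ) (hd : 1 ≤ d) (κ C Q N T : ℝ) (hκ : 0 < κ) (hκ1 : κ ≤ 1) (hQ : 1 < Q)
    (h1 : N ≤ C * Q ^ ((d : ℝ) - κ) * T) (hbig : Q ^ (2 * (d : ℝ) - κ) ≤ N) :
    N ^ ((1 : ℝ) / 2 + κ / (4 * d)) ≤ C * T := by
  have hQ0 : 0 < Q := by linarith
  have hd1 : (1 : ℝ) ≤ (d : ℝ) := by exact_mod_cast hd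
  have hd0 : (0 : ℝ) < (d : ℝ) := by linarith
  have hNpos : 0 < N := lt_of_lt_of_le (Real.rpow_pos_of_pos hQ0 _) hbig
  have hb : κ / (4 * d) ≤ 1 / 4 := by
    rw [div_le_div_iff₀ (by positivity) (by norm_num)]
    nlinarith
  have hb0 : 0 < κ / (4 * d) := by positivity
  have h2 : Q ^ ((d : ℝ) - κ) ≤ N ^ ((1 : ℝ) / 2 - κ / (4 * d)) := by
    calc Q ^ ((d : ℝ) - κ) ≤ Q ^ ((2 * (d : ℝ) - κ) * ((1 : ℝ) / 2 - κ / (4 * d))) := by
          apply Real.rpow_le_rpow_of_exponent_le hQ.le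
          have e : (2 * (d : ℝ) - κ) * ((1 : ℝ) / 2 - κ / (4 * d)) = (d : ℝ) - κ + κ ^ 2 / (4 * d) := by
            field_simp
            ring
          rw [e]
          have : 0 ≤ κ ^ 2 / (4 * d) := by positivity
          linarith
      _ = (Q ^ (2 * (d : ℝ) - κ)) ^ ((1 : ℝ) / 2 - κ / (4 * d)) := by
          rw [Real.rpow_mul hQ0.le]
      _ ≤ N ^ ((1 : ℝ) / 2 - κ / (4 * d)) := by
          apply Real.rpow_le_rpow (Real.rpow_nonneg hQ0.le _) hbig
          linarith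
  have hQk : 0 < Q ^ ((d : ℝ) - κ) := Real.rpow_pos_of_pos hQ0 _
  have h3 : N ^ ((1 : ℝ) / 2 + κ / (4 * d)) * Q ^ ((d : ℝ) - κ) ≤ (C * T) * Q ^ ((d : ℝ) - κ) := by
    calc N ^ ((1 : ℝ) / 2 + κ / (4 * d)) * Q ^ ((d : ℝ) - κ)
        ≤ N ^ ((1 : ℝ) / 2 + κ / (4 * d)) * N ^ ((1 : ℝ) / 2 - κ / (4 * d)) :=
          mul_le_mul_of_nonneg_left h2 (Real.rpow_nonneg hNpos.le _)
      _ = N := by
          rw [← Real.rpow_add hNpos]
          have : (1 : ℝ) / 2 + κ / (4 * d) + (1 / 2 - κ / (4 * d)) = 1 := by ring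
          rw [this, Real.rpow_one]
      _ ≤ (C * T) * Q ^ ((d : ℝ) - κ) := by
          calc N ≤ C * Q ^ ((d : ℝ) - κ) * T := h1
            _ = (C * T) * Q ^ ((d : ℝ) - κ) := by ring
  exact le_of_mul_le_mul_right h3 hQk

/-- the chromatic number, and the independence number for many vertices -/
theorem col (d k : ℕ) (hd : 1 ≤ d) :
    ∃ κ : ℝ, 0 < κ ∧ ∃ C : ℝ, ∀ (F : Type) [Field F] [Fintype F] (f : MvPolynomial (Fin d ⊕ Fin d) F),
      f.totalDegree ≤ k →
      ∀ (V : Type) (G : SimpleGraph V) (x : V → Fin d → F) (z : V → F),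
        (∀ u, 2 * z u ≠ eval (Sum.elim (x u) (x u)) f) →
        (∀ u v, G.Adj u v → z u + z v = eval (Sum.elim (x u) (x v)) f) →
        (∃ c : ℕ, (c : ℝ) ≤ C * (Fintype.card F : ℝ) ^ ((d : ℝ) - κ) ∧ G.Colorable c) ∧
        ∀ [Fintype V], (Fintype.card F : ℝ) ^ (2 * (d : ℝ) - κ) ≤ Fintype.card V →
          ∃ I : Finset V, G.IsIndepSet (I : Set V) ∧
            (Fintype.card V : ℝ) ^ ((1 : ℝ) / 2 + κ / (4 * d)) ≤ C * I.card := by
  obtain ⟨κ0, hκ0, C0, hC0⟩ := fin d k hd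
  set κ1 : ℝ := min κ0 1 with hκ1def
  have hκ1 : 0 < κ1 := lt_min hκ0 one_pos
  have hκ1' : κ1 ≤ 1 := min_le_right _ _
  set C1 : ℝ := max C0 1 with hC1def
  have hC1 : 1 ≤ C1 := le_max_right _ _
  have hd1 : (1 : ℝ) ≤ (d : ℝ) := by exact_mod_cast hd
  refine ⟨κ1 / 2, by positivity, C1 * ((d : ℝ) + 1) * (2 / κ1) + 1, ?_⟩
  intro F _ _ f hf V G x z hna hG
  have hQ : (1 : ℝ) < (Fintype.card F : ℝ) := by exact_mod_cast Fintype.one_lt_card
  have hg : Gd d k κ1 C1 F := mn2 (hC0 F) (min_le_left _ _) (le_max_left _ _) (by linarith)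
  obtain ⟨c, hc, hcol⟩ := clo hg hC1 (by linarith) f hf V G x z hna hG
  set Q : ℝ := (Fintype.card F : ℝ) with hQdef
  have hQ0 : 0 < Q := by linarith
  have hcC : (c : ℝ) ≤ (C1 * ((d : ℝ) + 1) * (2 / κ1) + 1) * Q ^ ((d : ℝ) - κ1 / 2) := by
    have h1 : Real.log (Q ^ (d + 1)) ≤ ((d : ℝ) + 1) * (Q ^ (κ1 / 2) / (κ1 / 2)) := by
      rw [Real.log_pow]
      push_cast
      apply mul_le_mul_of_nonneg_left _ (by linarith)
      exact Real.log_le_rpow_div hQ0.le (by positivity)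
    have h2 : (1 : ℝ) ≤ Q ^ ((d : ℝ) - κ1 / 2) := Real.one_le_rpow hQ.le (by linarith)
    have h3 : 0 < Q ^ ((d : ℝ) - κ1) := Real.rpow_pos_of_pos hQ0 _
    have h4 : Q ^ ((d : ℝ) - κ1) * Q ^ (κ1 / 2) = Q ^ ((d : ℝ) - κ1 / 2) := by
      rw [← Real.rpow_add hQ0]
      congr 1
      ring
    calc (c : ℝ) ≤ C1 * Q ^ ((d : ℝ) - κ1) * Real.log (Q ^ (d + 1)) + 1 := hc
      _ ≤ C1 * Q ^ ((d : ℝ) - κ1) * (((d : ℝ) + 1) * (Q ^ (κ1 / 2) / (κ1 / 2))) + Q ^ ((d : ℝ) - κ1 / 2) := by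
          have h5 : 0 ≤ C1 * Q ^ ((d : ℝ) - κ1) := by positivity
          have := mul_le_mul_of_nonneg_left h1 h5
          linarith
      _ = C1 * ((d : ℝ) + 1) * (2 / κ1) * (Q ^ ((d : ℝ) - κ1) * Q ^ (κ1 / 2)) + Q ^ ((d : ℝ) - κ1 / 2) := by
          field_simp
      _ = (C1 * ((d : ℝ) + 1) * (2 / κ1) + 1) * Q ^ ((d : ℝ) - κ1 / 2) := by
          rw [h4]; ring
  refine ⟨⟨c, hcC, hcol⟩, ?_⟩
  intro _ hbig
  obtain ⟨I, hI, hn⟩ := cla G c hcol
  refine ⟨I, hI, ?_⟩
  apply pwr d hd (κ1 / 2) (C1 * ((d : ℝ) + 1) * (2 / κ1) + 1) Q (Fintype.card V : ℝ) (I.card : ℝ) (by positivity)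
    (by linarith) hQ _ hbig
  calc (Fintype.card V : ℝ) ≤ (c : ℝ) * I.card := by exact_mod_cast hn
    _ ≤ (C1 * ((d : ℝ) + 1) * (2 / κ1) + 1) * Q ^ ((d : ℝ) - κ1 / 2) * I.card :=
        mul_le_mul_of_nonneg_right hcC (by positivity)

end Pool.Agent.C4i
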