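import Pool.Agent.C4i.Av

/-!
# Graphs defined by a polynomial of bounded degree over a finite field: all vertices of `C₄`-free graphs
-/

set_option autoImplicit false

namespace Pool.Agent.C4i

open Finset MvPolynomial

/-- a maximal independent subset of `S` -/
theorem mis {V : Type} (G : SimpleGraph V) (S : Finset V) (D : ℕ)
    (h : ∀ v ∈ S, (open Classical in (S.filter fun w => G.Adj v w)).card ≤ D) :
    ∃ I : Finset V, I ⊆ S ∧ G.IsIndepSet (I : Set V) ∧ S.card ≤ (D + 1) * I.card := by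
  classical
  obtain ⟨I, hI, hmax⟩ := Finset.exists_max_image (S.powerset.filter fun I : Finset V => G.IsIndepSet (I : Set V)) Finset.card
    ⟨∅, by simp [SimpleGraph.IsIndepSet]⟩
  rw [Finset.mem_filter, Finset.mem_powerset] at hI
  refine ⟨I, hI.1, hI.2, ?_⟩
  have hcov : S ⊆ I.biUnion fun i => insert i (S.filter fun w => G.Adj i w) := by
    intro v hv
    rw [Finset.mem_biUnion]
    by_cases hvI : v ∈ I
    · exact ⟨v, hvI, Finset.mem_insert_self _ _⟩
    · by_contra hno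
      push Not at hno
      have hind : G.IsIndepSet ((insert v I : Finset V) : Set V) := by
        intro a ha b hb hab hadj
        rw [Finset.coe_insert, Set.mem_insert_iff] at ha hb
        rcases ha with rfl | ha
        · rcases hb with rfl | hb
          · exact hab rfl
          · exact hno b (by exact_mod_cast hb) (Finset.mem_insert_of_mem (Finset.mem_filter.mpr ⟨hv, hadj.symm⟩))
        · rcases hb with rfl | hb
          · exact hno a (by exact_mod_cast ha) (Finset.mem_insert_of_mem (Finset.mem_filter.mpr ⟨hv, hadj⟩))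
          · exact hI.2 ha hb hab hadj
      have h1 := hmax (insert v I) (Finset.mem_filter.mpr ⟨Finset.mem_powerset.mpr
        (Finset.insert_subset hv hI.1), hind⟩)
      rw [Finset.card_insert_of_notMem hvI] at h1
      omega
  refine (Finset.card_le_card hcov).trans ?_
  refine (Finset.card_biUnion_le_card_mul _ _ (D + 1) fun i hi => ?_).trans (le_of_eq (mul_comm _ _))
  refine (Finset.card_insert_le _ _).trans ?_
  exact Nat.add_le_add_right (by convert h i (hI.1 hi)) 1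

/-- two different vertices have at most one common neighbour -/
def C4F {V : Type} (G : SimpleGraph V) : Prop :=
  ∀ u v a b, u ≠ v → a ≠ b → G.Adj u a → G.Adj u b → G.Adj v a → G.Adj v b → False

/-- the independence number of a `C₄`-free graph -/
theorem c4a {V : Type} (G : SimpleGraph V) (hG : C4F G) (S : Finset V) (N : ℝ) (hN : (S.card : ℝ) ≤ N) :
    ∃ I : Finset V, I ⊆ S ∧ G.IsIndepSet (I : Set V) ∧ (S.card : ℝ) ≤ 2 * Real.sqrt N * I.card := by
  classical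
  have hs0 : (0 : ℝ) ≤ (S.card : ℝ) := by positivity
  have hsN : Real.sqrt (S.card : ℝ) ≤ Real.sqrt N := Real.sqrt_le_sqrt hN
  have hss : Real.sqrt (S.card : ℝ) * Real.sqrt (S.card : ℝ) = S.card := Real.mul_self_sqrt hs0
  have hnat : ((Nat.sqrt S.card : ℕ) : ℝ) ≤ Real.sqrt (S.card : ℝ) := Real.nat_sqrt_le_real_sqrt
  have hnat2 : Real.sqrt (S.card : ℝ) ≤ ((Nat.sqrt S.card : ℕ) : ℝ) + 1 := Real.real_sqrt_le_nat_sqrt_succ
  rcases Finset.eq_empty_or_nonempty S with hS | hS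
  · refine ⟨∅, by simp, by simp [SimpleGraph.IsIndepSet], ?_⟩
    rw [hS]; simp
  have hS1 : (1 : ℝ) ≤ (S.card : ℝ) := by exact_mod_cast hS.card_pos
  have hsq1 : 1 ≤ Real.sqrt (S.card : ℝ) := by
    rw [show (1 : ℝ) = Real.sqrt 1 by simp]
    exact Real.sqrt_le_sqrt hS1
  by_cases hdeg : ∀ v ∈ S, (S.filter fun w => G.Adj v w).card ≤ Nat.sqrt S.card
  · obtain ⟨I, hIS, hI, hc⟩ := mis G S (Nat.sqrt S.card) (fun v hv => by convert hdeg v hv)
    refine ⟨I, hIS, hI, ?_⟩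
    have hc' : (S.card : ℝ) ≤ (((Nat.sqrt S.card : ℕ) : ℝ) + 1) * I.card := by exact_mod_cast hc
    refine hc'.trans ?_
    apply mul_le_mul_of_nonneg_right _ (Nat.cast_nonneg _)
    linarith
  · push Not at hdeg
    obtain ⟨v, hv, hvd⟩ := hdeg
    obtain ⟨I, hIT, hI, hc⟩ := mis G (S.filter fun w => G.Adj v w) 1 (by
      intro u hu
      have hu' := (Finset.mem_filter.mp hu).2
      have hgoal : ((S.filter fun w => G.Adj v w).filter fun w => G.Adj u w).card ≤ 1 := by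
        rw [Finset.card_le_one]
        intro a ha b hb
        by_contra hab
        rw [Finset.mem_filter, Finset.mem_filter] at ha hb
        exact hG v u a b hu'.ne hab ha.1.2 hb.1.2 ha.2 hb.2
      convert hgoal)
    refine ⟨I, hIT.trans (Finset.filter_subset _ _), hI, ?_⟩
    have h1 : Real.sqrt (S.card : ℝ) ≤ 2 * I.card := by
      have h2 : ((Nat.sqrt S.card : ℕ) : ℝ) + 1 ≤ ((S.filter fun w => G.Adj v w).card : ℝ) := by exact_mod_cast hvd
      have h3 : ((S.filter fun w => G.Adj v w).card : ℝ) ≤ (1 + 1) * I.card := by exact_mod_cast hc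
      linarith
    have hN0 : 0 ≤ Real.sqrt N := Real.sqrt_nonneg _
    calc (S.card : ℝ) = Real.sqrt (S.card : ℝ) * Real.sqrt (S.card : ℝ) := hss.symm
      _ ≤ Real.sqrt N * (2 * I.card) := mul_le_mul hsN h1 (Real.sqrt_nonneg _) hN0
      _ = 2 * Real.sqrt N * I.card := by ring

/-- the chromatic number of a `C₄`-free graph -/
theorem c4c {V : Type} [Fintype V] (G : SimpleGraph V) (hG : C4F G) (N : ℝ) (hN : 1 ≤ N) (hV : (Fintype.card V : ℝ) ≤ N) :
    ∃ c : ℕ, (c : ℝ) ≤ 2 * Real.sqrt N * Real.log N + 1 ∧ G.Colorable c := by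
  refine grd G (2 * Real.sqrt N) N ?_ hN hV ?_
  · have : 1 ≤ Real.sqrt N := by
      rw [show (1 : ℝ) = Real.sqrt 1 by simp]
      exact Real.sqrt_le_sqrt hN
    linarith
  · intro S
    refine c4a G hG S N ?_
    refine le_trans ?_ hV
    exact_mod_cast Finset.card_le_univ S

/-- the number of absolute vertices -/
theorem abn {F : Type} [Field F] [Fintype F] (d e k : ℕ) (f : MvPolynomial (Fin d ⊕ Fin d) F) (hf : f.totalDegree ≤ k)
    (hD : (2 : F) = 0 → rename (Sum.elim id id : Fin d ⊕ Fin d → Fin d) f ≠ 0)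
    {V : Type} [Fintype V] (x : V → Fin d → F) (y : V → Fin e → F) (z : V → F)
    (hinj : Function.Injective fun v => (x v, y v, z v)) (ha : ∀ u, 2 * z u = eval (Sum.elim (x u) (x u)) f) :
    Fintype.card V ≤ (k + 1) * Fintype.card F ^ (d + e) := by
  classical
  set A : Set ((Fin d → F) × F) := {w | 2 * w.2 = eval (Sum.elim w.1 w.1) f} with hA
  have h1 := Pool.Agent.C4h.dia d k f hf hD
  have h2 : Fintype.card V ≤ Fintype.card (A × (Fin e → F)) := by
    refine Fintype.card_le_of_injective (fun v => ((⟨(x v, z v), ha v⟩ : A), y v)) ?_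
    intro u v huv
    have h3 := Prod.mk.inj huv
    have h4 := Prod.mk.inj (Subtype.mk.inj h3.1)
    exact hinj (by simp only [h4.1, h4.2, h3.2])
  rw [Fintype.card_prod, Fintype.card_fun, Fintype.card_fin] at h2
  have h5 : Fintype.card A = A.ncard := by
    rw [Set.ncard_eq_toFinset_card', Set.toFinset_card]
  rw [h5] at h2
  refine h2.trans ?_
  rw [pow_add, ← mul_assoc]
  exact Nat.mul_le_mul_right _ h1

/-- two parts -/
theorem uco {V : Type} (G : SimpleGraph V) (P : V → Prop) (c c' : ℕ) (h : (G.induce {v | P v}).Colorable c)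
    (h' : (G.induce {v | ¬ P v}).Colorable c') : G.Colorable (c + c') := by
  classical
  obtain ⟨g⟩ := h
  obtain ⟨g'⟩ := h'
  have key : Nonempty (G.Coloring (Fin c ⊕ Fin c')) := by
    refine ⟨SimpleGraph.Coloring.mk (fun v => if hv : P v then Sum.inl (g ⟨v, hv⟩) else Sum.inr (g' ⟨v, hv⟩)) ?_⟩
    intro u v huv
    by_cases hu : P u <;> by_cases hv : P v
    · simp only [hu, hv, dif_pos]
      intro he
      exact g.valid (v := ⟨u, hu⟩) (w := ⟨v, hv⟩) (by simpa using huv) (Sum.inl.inj he)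
    · simp only [hu, hv, dif_pos, dif_neg, not_false_eq_true]
      exact Sum.inl_ne_inr
    · simp only [hu, hv, dif_pos, dif_neg, not_false_eq_true]
      exact Sum.inr_ne_inl
    · simp only [hu, hv, dif_neg, not_false_eq_true]
      intro he
      exact g'.valid (v := ⟨u, hu⟩) (w := ⟨v, hv⟩) (by simpa using huv) (Sum.inr.inj he)
  obtain ⟨g0⟩ := key
  have h3 := g0.colorable
  rwa [Fintype.card_sum, Fintype.card_fin, Fintype.card_fin] at h3

/-- `√N log N` for `N = (k + 1) Q ^ (2 d - 1)` -/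
theorem nlg (d k : ℕ) (hd : 1 ≤ d) (Q N : ℝ) (hQ : 1 < Q) (hN : N = ((k : ℝ) + 1) * Q ^ (d + (d - 1))) :
    1 ≤ N ∧ 2 * Real.sqrt N * Real.log N + 1 ≤
      (2 * ((k : ℝ) + 1) * ((k : ℝ) + 1 + 8 * d) + 1) * Q ^ ((d : ℝ) - 1 / 4) := by
  have hQ0 : 0 < Q := by linarith
  have hk1 : (1 : ℝ) ≤ (k : ℝ) + 1 := by
    have : (0 : ℝ) ≤ k := Nat.cast_nonneg k
    linarith
  have hd1 : (1 : ℝ) ≤ (d : ℝ) := by exact_mod_cast hd
  have hP : 1 ≤ Q ^ (d + (d - 1)) := one_le_pow₀ hQ.le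
  have hN1 : 1 ≤ N := by rw [hN]; nlinarith
  refine ⟨hN1, ?_⟩
  have hexp : Q ^ (d + (d - 1)) = Q ^ (2 * ((d : ℝ) - 1 / 2)) := by
    rw [← Real.rpow_natCast]
    congr 1
    rw [Nat.cast_add, Nat.cast_sub hd]
    push_cast
    ring
  have hsq : Real.sqrt N ≤ ((k : ℝ) + 1) * Q ^ ((d : ℝ) - 1 / 2) := by
    apply Real.sqrt_le_iff.mpr
    refine ⟨by positivity, ?_⟩
    rw [hN, mul_pow, hexp, mul_comm (2 : ℝ), Real.rpow_mul hQ0.le]
    have h2 : (Q ^ ((d : ℝ) - 1 / 2)) ^ (2 : ℝ) = (Q ^ ((d : ℝ) - 1 / 2)) ^ 2 := by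
      rw [← Real.rpow_natCast]; norm_num
    rw [h2]
    apply mul_le_mul_of_nonneg_right _ (by positivity)
    nlinarith
  have hQ4 : 1 ≤ Q ^ ((1 : ℝ) / 4) := Real.one_le_rpow hQ.le (by norm_num)
  have hlogN : Real.log N ≤ ((k : ℝ) + 1 + 8 * d) * Q ^ ((1 : ℝ) / 4) := by
    have h1 : Real.log N = Real.log ((k : ℝ) + 1) + ((d + (d - 1) : ℕ) : ℝ) * Real.log Q := by
      rw [hN, Real.log_mul (by positivity) (by positivity), Real.log_pow]
    have h2 : Real.log ((k : ℝ) + 1) ≤ (k : ℝ) + 1 := by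
      have := Real.log_le_sub_one_of_pos (show (0 : ℝ) < (k : ℝ) + 1 by linarith)
      linarith
    have h3 : Real.log Q ≤ Q ^ ((1 : ℝ) / 4) / (1 / 4) := Real.log_le_rpow_div hQ0.le (by norm_num)
    have h4 : ((d + (d - 1) : ℕ) : ℝ) ≤ 2 * d := by
      have : d + (d - 1) ≤ 2 * d := by omega
      exact_mod_cast this
    have h5 : 0 ≤ Real.log Q := Real.log_nonneg hQ.le
    have h6 : ((d + (d - 1) : ℕ) : ℝ) * Real.log Q ≤ 2 * d * (Q ^ ((1 : ℝ) / 4) / (1 / 4)) :=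
      mul_le_mul h4 h3 h5 (by positivity)
    rw [h1]
    have h7 : (k : ℝ) + 1 ≤ ((k : ℝ) + 1) * Q ^ ((1 : ℝ) / 4) := by nlinarith
    have h8 : 2 * (d : ℝ) * (Q ^ ((1 : ℝ) / 4) / (1 / 4)) = 8 * d * Q ^ ((1 : ℝ) / 4) := by ring
    rw [h8] at h6
    nlinarith
  have hQd : 1 ≤ Q ^ ((d : ℝ) - 1 / 4) := Real.one_le_rpow hQ.le (by linarith)
  have hmul : Real.sqrt N * Real.log N ≤
      (((k : ℝ) + 1) * Q ^ ((d : ℝ) - 1 / 2)) * (((k : ℝ) + 1 + 8 * d) * Q ^ ((1 : ℝ) / 4)) :=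
    mul_le_mul hsq hlogN (Real.log_nonneg hN1) (by positivity)
  have hadd : Q ^ ((d : ℝ) - 1 / 2) * Q ^ ((1 : ℝ) / 4) = Q ^ ((d : ℝ) - 1 / 4) := by
    rw [← Real.rpow_add hQ0]
    congr 1
    ring
  have hmul2 : Real.sqrt N * Real.log N ≤ ((k : ℝ) + 1) * ((k : ℝ) + 1 + 8 * d) * Q ^ ((d : ℝ) - 1 / 4) := by
    refine hmul.trans (le_of_eq ?_)
    rw [← hadd]; ring
  nlinarith

/-- the chromatic number of `C₄`-free graphs with different labels, with the absolute vertices -/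
theorem cfr (d k : ℕ) (hd : 1 ≤ d) (κ0 C0 : ℝ) {F : Type} [Field F] [Fintype F]
    (f : MvPolynomial (Fin d ⊕ Fin d) F) (hf : f.totalDegree ≤ k)
    (hcol : ∀ (V : Type) (G : SimpleGraph V) (x : V → Fin d → F) (z : V → F),
        (∀ u, 2 * z u ≠ eval (Sum.elim (x u) (x u)) f) →
        (∀ u v, G.Adj u v → z u + z v = eval (Sum.elim (x u) (x v)) f) →
        ∃ c : ℕ, (c : ℝ) ≤ C0 * (Fintype.card F : ℝ) ^ ((d : ℝ) - κ0) ∧ G.Colorable c)
    (hD : (2 : F) = 0 → rename (Sum.elim id id : Fin d ⊕ Fin d → Fin d) f ≠ 0)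
    (V : Type) (G : SimpleGraph V) (x : V → Fin d → F) (y : V → Fin (d - 1) → F) (z : V → F)
    (hinj : Function.Injective fun v => (x v, y v, z v)) (h4 : C4F G)
    (hG : ∀ u v, G.Adj u v → z u + z v = eval (Sum.elim (x u) (x v)) f) :
    ∃ c : ℕ, (c : ℝ) ≤ C0 * (Fintype.card F : ℝ) ^ ((d : ℝ) - κ0) +
      (2 * ((k : ℝ) + 1) * ((k : ℝ) + 1 + 8 * d) + 1) * (Fintype.card F : ℝ) ^ ((d : ℝ) - 1 / 4) ∧ G.Colorable c := by
  classical
  have hQ : (1 : ℝ) < (Fintype.card F : ℝ) := by exact_mod_cast Fintype.one_lt_card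
  obtain ⟨c1, hc1, hcol1⟩ := hcol {v | ¬ 2 * z v = eval (Sum.elim (x v) (x v)) f}
    (G.induce {v | ¬ 2 * z v = eval (Sum.elim (x v) (x v)) f}) (fun v => x v.1) (fun v => z v.1)
    (fun v => v.2) (fun u v huv => hG u.1 v.1 (by simpa using huv))
  have _ : Finite V := Finite.of_injective _ hinj
  let _ : Fintype V := Fintype.ofFinite V
  obtain ⟨hN1, hN2⟩ := nlg d k hd (Fintype.card F : ℝ) _ hQ rfl
  have hA : (Fintype.card {v | 2 * z v = eval (Sum.elim (x v) (x v)) f} : ℝ) ≤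
      ((k : ℝ) + 1) * (Fintype.card F : ℝ) ^ (d + (d - 1)) := by
    have h1 := abn d (d - 1) k f hf hD (V := {v | 2 * z v = eval (Sum.elim (x v) (x v)) f})
      (fun v => x v.1) (fun v => y v.1) (fun v => z v.1)
      (fun u v huv => Subtype.ext (hinj huv)) (fun v => v.2)
    exact_mod_cast h1
  obtain ⟨c2, hc2, hcol2⟩ := c4c (G.induce {v | 2 * z v = eval (Sum.elim (x v) (x v)) f})
    (fun u v a b huv hab h1 h2 h3 h5 => h4 u.1 v.1 a.1 b.1 (fun h => huv (Subtype.ext h)) (fun h => hab (Subtype.ext h))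
      (by simpa using h1) (by simpa using h2) (by simpa using h3) (by simpa using h5)) _ hN1 hA
  refine ⟨c2 + c1, ?_, uco G (fun v => 2 * z v = eval (Sum.elim (x v) (x v)) f) c2 c1 hcol2 hcol1⟩
  push_cast
  linarith

/-- the two cases together -/
theorem all (d k : ℕ) (hd : 1 ≤ d) :
    ∃ κ : ℝ, 0 < κ ∧ ∃ C : ℝ, ∀ (F : Type) [Field F] [Fintype F] (f : MvPolynomial (Fin d ⊕ Fin d) F),
      f.totalDegree ≤ k →
      ∀ (V : Type) (G : SimpleGraph V) (x : V → Fin d → F) (z : V → F),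
        (∀ u v, G.Adj u v → z u + z v = eval (Sum.elim (x u) (x v)) f) →
        ((∀ u, 2 * z u ≠ eval (Sum.elim (x u) (x u)) f) ∨
          ((∀ u v a b, u ≠ v → a ≠ b → G.Adj u a → G.Adj u b → G.Adj v a → G.Adj v b → False) ∧
            (∃ y : V → Fin (d - 1) → F, Function.Injective fun v => (x v, y v, z v)) ∧
            ((2 : F) = 0 → rename (Sum.elim id id : Fin d ⊕ Fin d → Fin d) f ≠ 0))) →
        (∃ c : ℕ, (c : ℝ) ≤ C * (Fintype.card F : ℝ) ^ ((d : ℝ) - κ) ∧ G.Colorable c) ∧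
        ∀ [Fintype V], (Fintype.card F : ℝ) ^ (2 * (d : ℝ) - κ) ≤ Fintype.card V →
          ∃ I : Finset V, G.IsIndepSet (I : Set V) ∧
            (Fintype.card V : ℝ) ^ ((1 : ℝ) / 2 + κ / (4 * d)) ≤ C * I.card := by
  obtain ⟨κ0, hκ0, C0, hC0⟩ := col d k hd
  have hκ : 0 < min κ0 (1 / 4) := lt_min hκ0 (by norm_num)
  refine ⟨min κ0 (1 / 4), hκ, max C0 0 + (2 * ((k : ℝ) + 1) * ((k : ℝ) + 1 + 8 * d) + 1), ?_⟩
  intro F _ _ f hf V G x z hG hcase
  have hQ : (1 : ℝ) < (Fintype.card F : ℝ) := by exact_mod_cast Fintype.one_lt_card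
  set Q : ℝ := (Fintype.card F : ℝ) with hQdef
  have hQ0 : 0 < Q := by linarith
  set K : ℝ := 2 * ((k : ℝ) + 1) * ((k : ℝ) + 1 + 8 * d) + 1 with hK
  have hK0 : 0 ≤ K := by positivity
  have hC00 : 0 ≤ max C0 0 := le_max_right _ _
  have hpos : 0 < Q ^ ((d : ℝ) - min κ0 (1 / 4)) := Real.rpow_pos_of_pos hQ0 _
  have e1 : C0 * Q ^ ((d : ℝ) - κ0) ≤ max C0 0 * Q ^ ((d : ℝ) - min κ0 (1 / 4)) :=
    mul_le_mul (le_max_left _ _)
      (Real.rpow_le_rpow_of_exponent_le hQ.le (by linarith [min_le_left κ0 (1 / 4 : ℝ)]))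
      (Real.rpow_nonneg hQ0.le _) hC00
  have e2 : K * Q ^ ((d : ℝ) - 1 / 4) ≤ K * Q ^ ((d : ℝ) - min κ0 (1 / 4)) :=
    mul_le_mul_of_nonneg_left
      (Real.rpow_le_rpow_of_exponent_le hQ.le (by linarith [min_le_right κ0 (1 / 4 : ℝ)])) hK0
  have hc : ∃ c : ℕ, (c : ℝ) ≤ (max C0 0 + K) * Q ^ ((d : ℝ) - min κ0 (1 / 4)) ∧ G.Colorable c := by
    rcases hcase with hna | ⟨h4, ⟨y, hinj⟩, hD⟩
    · obtain ⟨⟨c, hc, hcol⟩, -⟩ := hC0 F f hf V G x z hna hG
      refine ⟨c, ?_, hcol⟩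
      have := mul_nonneg hK0 hpos.le
      nlinarith
    · obtain ⟨c, hc, hcol⟩ := cfr d k hd κ0 C0 f hf (fun V G x z h1 h2 => (hC0 F f hf V G x z h1 h2).1) hD V G x y z
        hinj h4 hG
      refine ⟨c, ?_, hcol⟩
      rw [← hQdef] at hc
      nlinarith
  refine ⟨hc, ?_⟩
  intro _ hbig
  obtain ⟨c, hcC, hcol⟩ := hc
  obtain ⟨I, hI, hn⟩ := cla G c hcol
  refine ⟨I, hI, ?_⟩
  apply pwr d hd (min κ0 (1 / 4)) (max C0 0 + K) Q (Fintype.card V : ℝ) (I.card : ℝ) hκ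
    ((min_le_right _ _).trans (by norm_num)) hQ _ hbig
  calc (Fintype.card V : ℝ) ≤ (c : ℝ) * I.card := by exact_mod_cast hn
    _ ≤ (max C0 0 + K) * Q ^ ((d : ℝ) - min κ0 (1 / 4)) * I.card :=
        mul_le_mul_of_nonneg_right hcC (by positivity)

end Pool.Agent.C4i
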