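import Pool.Agent.C4i.Cf

/-!
# Graphs defined by several polynomials of bounded degree over a finite field (one equation for every edge)
-/

set_option autoImplicit false

namespace Pool.Agent.C4i

open Finset MvPolynomial

/-! ## Part A: copies of the variables -/

/-- the variable `a` of copy `i` -/
def cpi {T d : ℕ} (i : Fin T) (a : Fin d) : Fin (T * d) := finProdFinEquiv (i, a)

/-- all copies are `x` -/
def cp (T : ℕ) {α : Type} {d : ℕ} (x : Fin d → α) : Fin (T * d) → α := fun m => x (finProdFinEquiv.symm m).2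

/-- copy `i` is `x`, the others are `x0` -/
def blk {T : ℕ} {α : Type} {d : ℕ} (i : Fin T) (x0 x : Fin d → α) : Fin (T * d) → α :=
  fun m => if (finProdFinEquiv.symm m).1 = i then x (finProdFinEquiv.symm m).2 else x0 (finProdFinEquiv.symm m).2

theorem cp_cpi (T : ℕ) {α : Type} {d : ℕ} (x : Fin d → α) (i : Fin T) : (fun a => cp T x (cpi i a)) = x := by
  funext a
  simp [cp, cpi]

theorem blk_cpi_self {T : ℕ} {α : Type} {d : ℕ} (i : Fin T) (x0 x : Fin d → α) :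
    (fun a => blk i x0 x (cpi i a)) = x := by
  funext a
  simp [blk, cpi]

theorem blk_cpi_ne {T : ℕ} {α : Type} {d : ℕ} {i j : Fin T} (h : j ≠ i) (x0 x : Fin d → α) :
    (fun a => blk i x0 x (cpi j a)) = x0 := by
  funext a
  simp [blk, cpi, h]

/-- the sum of the polynomials in different copies of the variables -/
noncomputable def fam {F : Type} [Field F] {T d : ℕ} (f : Fin T → MvPolynomial (Fin d ⊕ Fin d) F) :
    MvPolynomial (Fin (T * d) ⊕ Fin (T * d)) F :=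
  ∑ i, rename (Sum.map (cpi i) (cpi i)) (f i)

theorem fam_deg {F : Type} [Field F] {T d k : ℕ} (f : Fin T → MvPolynomial (Fin d ⊕ Fin d) F)
    (hf : ∀ i, (f i).totalDegree ≤ k) : (fam f).totalDegree ≤ k := by
  unfold fam
  exact totalDegree_finsetSum_le fun i _ => (totalDegree_rename_le _ _).trans (hf i)

theorem fam_eval {F : Type} [Field F] {T d : ℕ} (f : Fin T → MvPolynomial (Fin d ⊕ Fin d) F)
    (X X' : Fin (T * d) → F) :
    eval (Sum.elim X X') (fam f) = ∑ i, eval (Sum.elim (fun a => X (cpi i a)) (fun a => X' (cpi i a))) (f i) := by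
  unfold fam
  rw [map_sum]
  refine Finset.sum_congr rfl fun i _ => ?_
  rw [eval_rename]
  congr 2
  funext a
  rcases a with a | a <;> rfl

theorem fam_blk {F : Type} [Field F] {T d : ℕ} (f : Fin T → MvPolynomial (Fin d ⊕ Fin d) F) (i : Fin T)
    (x0 x x' : Fin d → F) :
    eval (Sum.elim (blk i x0 x) (blk i x0 x')) (fam f) - eval (Sum.elim (cp T x0) (cp T x0)) (fam f) =
      eval (Sum.elim x x') (f i) - eval (Sum.elim x0 x0) (f i) := by
  classical
  rw [fam_eval, fam_eval, ← Finset.sum_sub_distrib]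
  rw [Finset.sum_eq_single i]
  · rw [blk_cpi_self, blk_cpi_self, cp_cpi]
  · intro j _ hj
    rw [blk_cpi_ne hj, blk_cpi_ne hj, cp_cpi, sub_self]
  · intro h
    exact absurd (Finset.mem_univ i) h

/-! ## Part B: large degree over the prime field -/

/-- the group generated by the differences of the values of the `f i` on the pairs of `C` -/
def WCt {F : Type} [Field F] {T d : ℕ} (f : Fin T → MvPolynomial (Fin d ⊕ Fin d) F) (C : Set (Fin d → F)) :
    AddSubgroup F :=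
  AddSubgroup.closure {w | ∃ i, ∃ a ∈ C, ∃ b ∈ C, ∃ a' ∈ C, ∃ b' ∈ C,
    w = eval (Sum.elim a b) (f i) - eval (Sum.elim a' b') (f i)}

theorem wct {F : Type} [Field F] [Fintype F] (T d k : ℕ) (f : Fin T → MvPolynomial (Fin d ⊕ Fin d) F)
    (hf : ∀ i, (f i).totalDegree ≤ k)
    (L L' : AddSubgroup F) (hL : ∀ s : Multiset F, Multiset.card s ≤ k → (∀ a ∈ s, a ∈ L) → s.prod ∈ L')
    (x0 : Fin d → F) (c : F) (hc : c ≠ 0) :
    {γ : F | c ∈ WCt f (Cl L x0 γ)}.ncard ≤ k * Nat.card L' ^ ((k + 1) ^ (2 * (T * d))) := by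
  obtain ⟨Wf, h1, h2⟩ := cls (T * d) k (fam f) (fam_deg f hf) L L' hL (cp T x0)
  refine le_trans (Set.ncard_le_ncard (fun γ hγ => ?_) (Set.toFinite _)) (h2 c hc)
  have key : ∀ (i : Fin T) (s s' : Fin d → F), (∀ a, s a ∈ L) → (∀ a, s' a ∈ L) →
      eval (Sum.elim (fun a => x0 a + γ * s a) (fun a => x0 a + γ * s' a)) (f i) -
        eval (Sum.elim x0 x0) (f i) ∈ Wf γ := by
    intro i s s' hs hs'
    have h3 := h1 γ (blk i (fun _ => 0) s) (blk i (fun _ => 0) s') (fun m => by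
      unfold blk
      split_ifs
      · exact hs _
      · exact L.zero_mem) (fun m => by
      unfold blk
      split_ifs
      · exact hs' _
      · exact L.zero_mem)
    have e : ∀ s : Fin d → F, (fun m => cp T x0 m + γ * blk i (fun _ => 0) s m) =
        blk i x0 (fun a => x0 a + γ * s a) := by
      intro s
      funext m
      unfold blk cp
      split_ifs
      · rfl
      · rw [mul_zero, add_zero]
    rw [e s, e s', fam_blk] at h3
    exact h3
  have hle : WCt f (Cl L x0 γ) ≤ Wf γ := by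
    unfold WCt
    rw [AddSubgroup.closure_le]
    rintro w ⟨i, a, ⟨sa, hsa, ha⟩, b, ⟨sb, hsb, hb⟩, a', ⟨sa', hsa', ha'⟩, b', ⟨sb', hsb', hb'⟩, rfl⟩
    obtain rfl : a = fun i => x0 i + γ * sa i := funext ha
    obtain rfl : b = fun i => x0 i + γ * sb i := funext hb
    obtain rfl : a' = fun i => x0 i + γ * sa' i := funext ha'
    obtain rfl : b' = fun i => x0 i + γ * sb' i := funext hb'
    have e1 := key i sa sb hsa hsb
    have e2 := key i sa' sb' hsa' hsb'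
    have := (Wf γ).sub_mem e1 e2
    rw [sub_sub_sub_cancel_right] at this
    exact this
  exact hle hγ

/-- `half` inside `U` -/
theorem hlc {V Q : Type} [AddCommGroup Q] (G : SimpleGraph V) (U : Finset V) (a : V → Q) (c : Q)
    (h1 : ∀ u ∈ U, a u + a u ≠ c) :
    ∃ I : Finset V, I ⊆ U ∧ (∀ u ∈ I, ∀ v ∈ I, G.Adj u v → a u + a v ≠ c) ∧ U.card ≤ 2 * I.card := by
  classical
  let H : SimpleGraph U :=
    { Adj := fun u v => G.Adj u.1 v.1 ∧ a u.1 + a v.1 = c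
      symm := ⟨fun u v h => ⟨h.1.symm, by rw [add_comm]; exact h.2⟩⟩
      loopless := ⟨fun u h => G.loopless.irrefl _ h.1⟩ }
  obtain ⟨I, hI, hc⟩ := half H Finset.univ (fun u : U => a u.1) c (fun u _ => h1 u.1 u.2) (fun u _ v _ h => h.2)
  refine ⟨I.map (Function.Embedding.subtype _), ?_, ?_, ?_⟩
  · intro v hv
    obtain ⟨w, _, rfl⟩ := Finset.mem_map.mp hv
    exact w.2
  · intro u hu v hv huv he
    obtain ⟨u', hu', rfl⟩ := Finset.mem_map.mp hu
    obtain ⟨v', hv', rfl⟩ := Finset.mem_map.mp hv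
    exact hI (by exact_mod_cast hu') (by exact_mod_cast hv') (fun e => by
      rw [e] at huv; exact G.loopless.irrefl _ huv) ⟨huv, he⟩
  · rw [Finset.card_map]
    simpa using hc

/-- `geo` inside `U` -/
theorem gec (p : ℕ) [Fact p.Prime] (hp2 : p ≠ 2) {V : Type} (G : SimpleGraph V) (U : Finset V) (s : V → ZMod p) (η : ℕ)
    (h1 : ∀ u ∈ U, η < (2 * s u).valMinAbs.natAbs) :
    ∃ I : Finset V, I ⊆ U ∧ (∀ u ∈ I, ∀ v ∈ I, G.Adj u v → ¬ (s u + s v).valMinAbs.natAbs ≤ η) ∧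
      U.card ≤ 2 * I.card := by
  classical
  let H : SimpleGraph U :=
    { Adj := fun u v => G.Adj u.1 v.1 ∧ (s u.1 + s v.1).valMinAbs.natAbs ≤ η
      symm := ⟨fun u v h => ⟨h.1.symm, by rw [add_comm]; exact h.2⟩⟩
      loopless := ⟨fun u h => G.loopless.irrefl _ h.1⟩ }
  obtain ⟨I, hI, hc⟩ := geo p hp2 H Finset.univ (fun u : U => s u.1) η (fun u _ => h1 u.1 u.2) (fun u _ v _ h => h.2)
  refine ⟨I.map (Function.Embedding.subtype _), ?_, ?_, ?_⟩
  · intro v hv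
    obtain ⟨w, _, rfl⟩ := Finset.mem_map.mp hv
    exact w.2
  · intro u hu v hv huv he
    obtain ⟨u', hu', rfl⟩ := Finset.mem_map.mp hu
    obtain ⟨v', hv', rfl⟩ := Finset.mem_map.mp hv
    exact hI (by exact_mod_cast hu') (by exact_mod_cast hv') (fun e => by
      rw [e] at huv; exact G.loopless.irrefl _ huv) ⟨huv, he⟩
  · rw [Finset.card_map]
    simpa using hc

/-- iteration over the equations -/
theorem itr {V : Type} (G : SimpleGraph V) (T : ℕ) (R : Fin T → V → V → Prop) (U : Finset V)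
    (hcov : ∀ u ∈ U, ∀ v ∈ U, G.Adj u v → ∃ i, R i u v)
    (hstep : ∀ i, ∀ U' : Finset V, U' ⊆ U →
      ∃ I : Finset V, I ⊆ U' ∧ (∀ u ∈ I, ∀ v ∈ I, G.Adj u v → ¬ R i u v) ∧ U'.card ≤ 2 * I.card) :
    ∃ I : Finset V, G.IsIndepSet (I : Set V) ∧ U.card ≤ 2 ^ T * I.card := by
  have key : ∀ m : ℕ, m ≤ T → ∃ I : Finset V, I ⊆ U ∧
      (∀ i : Fin T, (i : ℕ) < m → ∀ u ∈ I, ∀ v ∈ I, G.Adj u v → ¬ R i u v) ∧ U.card ≤ 2 ^ m * I.card := by
    intro m
    induction m with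
    | zero =>
      intro _
      exact ⟨U, Finset.Subset.refl _, fun i hi => absurd hi (Nat.not_lt_zero _), by simp⟩
    | succ m ih =>
      intro hm
      obtain ⟨I, hIU, hI, hc⟩ := ih (by omega)
      obtain ⟨J, hJI, hJ, hcJ⟩ := hstep ⟨m, by omega⟩ I hIU
      refine ⟨J, hJI.trans hIU, ?_, ?_⟩
      · intro i hi u hu v hv huv
        rcases Nat.lt_succ_iff_lt_or_eq.mp hi with h | h
        · exact hI i h u (hJI hu) v (hJI hv) huv
        · have : i = ⟨m, by omega⟩ := Fin.ext h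
          rw [this]
          exact hJ u hu v hv huv
      · calc U.card ≤ 2 ^ m * I.card := hc
          _ ≤ 2 ^ m * (2 * J.card) := Nat.mul_le_mul_left _ hcJ
          _ = 2 ^ (m + 1) * J.card := by ring
  obtain ⟨I, hIU, hI, hc⟩ := key T le_rfl
  refine ⟨I, ?_, hc⟩
  intro u hu v hv _ huv
  obtain ⟨i, hi⟩ := hcov u (hIU (by exact_mod_cast hu)) v (hIU (by exact_mod_cast hv)) huv
  exact hI i i.2 u (by exact_mod_cast hu) v (by exact_mod_cast hv) huv hi

theorem bgt {K F : Type} [Field K] [Fintype K] [Field F] [Fintype F] [Algebra K F] (T d k t : ℕ)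
    (ht : t ≤ Module.finrank K F) (f : Fin T → MvPolynomial (Fin d ⊕ Fin d) F) (hf : ∀ i, (f i).totalDegree ≤ k)
    {V : Type} [Fintype V] (G : SimpleGraph V) (x : V → Fin d → F) (z : V → F)
    (hna : ∀ i u, 2 * z u ≠ eval (Sum.elim (x u) (x u)) (f i))
    (hG : ∀ u v, G.Adj u v → ∃ i, z u + z v = eval (Sum.elim (x u) (x v)) (f i))
    (hB : 2 * (T * (k * Fintype.card K ^ ((k * t + 1) * (k + 1) ^ (2 * (T * d))))) ≤ Fintype.card F - 1) :
    ∃ I : Finset V, G.IsIndepSet (I : Set V) ∧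
      Fintype.card V * (Fintype.card K ^ t) ^ d ≤ 2 ^ (T + 1) * Fintype.card F ^ d * I.card := by
  classical
  obtain ⟨L, L', hL1, hL2, hL3⟩ := exl K F k t ht
  have hM1 : ∀ i u, {γ : F | 2 * z u - eval (Sum.elim (x u) (x u)) (f i) ∈ WCt f (Cl L (x u) γ)}.ncard ≤
      k * Fintype.card K ^ ((k * t + 1) * (k + 1) ^ (2 * (T * d))) := by
    intro i u
    refine (wct T d k f hf L L' hL3 (x u) _ (sub_ne_zero.2 (hna i u))).trans ?_
    rw [pow_mul (Fintype.card K)]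
    exact Nat.mul_le_mul_left _ (Nat.pow_le_pow_left hL2 _)
  have hM : ∀ u, {γ : F | ∃ i, 2 * z u - eval (Sum.elim (x u) (x u)) (f i) ∈ WCt f (Cl L (x u) γ)}.ncard ≤
      T * (k * Fintype.card K ^ ((k * t + 1) * (k + 1) ^ (2 * (T * d)))) := by
    intro u
    have e : {γ : F | ∃ i, 2 * z u - eval (Sum.elim (x u) (x u)) (f i) ∈ WCt f (Cl L (x u) γ)} =
        ⋃ i ∈ (Finset.univ : Finset (Fin T)),
          {γ : F | 2 * z u - eval (Sum.elim (x u) (x u)) (f i) ∈ WCt f (Cl L (x u) γ)} := by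
      ext γ
      simp
    rw [e]
    refine (Finset.set_ncard_biUnion_le _ _).trans ?_
    refine (Finset.sum_le_sum fun i _ => hM1 i u).trans ?_
    rw [Finset.sum_const, Finset.card_univ, Fintype.card_fin, smul_eq_mul]
  obtain ⟨x0, γ, hγ, U, hU, hcard⟩ := ava d x L
    (fun u γ => ∃ i, 2 * z u - eval (Sum.elim (x u) (x u)) (f i) ∈ WCt f (Cl L (x u) γ)) _ hM hB
  have hx0 : x0 ∈ Cl L x0 γ := ⟨fun _ => 0, fun _ => L.zero_mem, fun i => by rw [mul_zero, add_zero]⟩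
  have hval : ∀ i, ∀ a ∈ Cl L x0 γ, ∀ c ∈ Cl L x0 γ,
      eval (Sum.elim a c) (f i) - eval (Sum.elim x0 x0) (f i) ∈ WCt f (Cl L x0 γ) := fun i a ha c hc =>
    AddSubgroup.subset_closure ⟨i, a, ha, c, hc, x0, hx0, x0, hx0, rfl⟩
  have hmk : ∀ i, ∀ a ∈ Cl L x0 γ, ∀ c ∈ Cl L x0 γ,
      (QuotientAddGroup.mk (eval (Sum.elim a c) (f i)) : F ⧸ WCt f (Cl L x0 γ)) =
        QuotientAddGroup.mk (eval (Sum.elim x0 x0) (f i)) := by
    intro i a ha c hc
    rw [eq_comm, QuotientAddGroup.eq]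
    have h1 := hval i a ha c hc
    rwa [sub_eq_neg_add] at h1
  obtain ⟨I, hI, hUI⟩ := itr G T (fun i u v => z u + z v = eval (Sum.elim (x u) (x v)) (f i)) U
    (fun u _ v _ huv => hG u v huv) (by
      intro i U' hU'
      obtain ⟨I, hIU, hI, hc⟩ := hlc G U' (fun u => (QuotientAddGroup.mk (z u) : F ⧸ WCt f (Cl L x0 γ)))
        (QuotientAddGroup.mk (eval (Sum.elim x0 x0) (f i))) (by
          intro u hu h
          obtain ⟨h1, h2⟩ := hU u (hU' hu)
          apply h2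
          refine ⟨i, ?_⟩
          rw [← cos L x0 (x u) γ h1]
          rw [← hmk i (x u) h1 (x u) h1, ← QuotientAddGroup.mk_add, eq_comm, QuotientAddGroup.eq] at h
          rwa [sub_eq_neg_add, two_mul])
      refine ⟨I, hIU, ?_, hc⟩
      intro u hu v hv huv he
      apply hI u hu v hv huv
      show (QuotientAddGroup.mk (z u) : F ⧸ WCt f (Cl L x0 γ)) + QuotientAddGroup.mk (z v) = _
      rw [← QuotientAddGroup.mk_add, he]
      exact hmk i (x u) (hU u (hU' (hIU hu))).1 (x v) (hU v (hU' (hIU hv))).1)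
  refine ⟨I, hI, ?_⟩
  rw [← hL1]
  calc Fintype.card V * Nat.card L ^ d ≤ 2 * Fintype.card F ^ d * U.card := hcard
    _ ≤ 2 * Fintype.card F ^ d * (2 ^ T * I.card) := Nat.mul_le_mul_left _ hUI
    _ = 2 ^ (T + 1) * Fintype.card F ^ d * I.card := by ring

/-! ## Part C: large characteristic -/

section three

variable {p : ℕ} [Fact p.Prime]
variable {F : Type} [Field F] [Fintype F] [Algebra (ZMod p) F]

omit [Fintype F] in
private theorem pbt_0 (J' : Finset (ZMod p)) {S : Type} [Fintype S] [DecidableEq S] (w : S → F)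
    (J : Finset (ZMod p)) (c : F) : 0 ≤ Er J' w J c := by
  unfold Er
  refine sum_nonneg fun h0 _ => sum_nonneg fun h _ => mul_nonneg ?_ ?_
  · split_ifs
    · exact le_rfl
    · exact mul_nonneg (sq_nonneg _) (prod_nonneg fun i _ => sq_nonneg _)
  · split_ifs
    · exact zero_le_one
    · exact le_rfl

private theorem pbt_1 (τ : F →ₗ[ZMod p] ZMod p) (hτ : τ ≠ 0) {S : Type} [Fintype S] [DecidableEq S] (w : S → F)
    (B B' : ℕ) (hB : 1 ≤ B) (hB1 : 1 ≤ B') (hBp : 2 * B ≤ p) (hB' : 2 * B' ≤ p) (c : F) :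
    (∑ l : F, (∏ i, ((rr (iv B) (τ (l * w i)) : ℕ) : ℝ)) *
        (if 2 * (τ (l * c)).valMinAbs.natAbs ≤ B' then 1 else 0)) /
      ∑ l : F, ∏ i, ((rr (iv B) (τ (l * w i)) : ℕ) : ℝ) ≤
    2 * B' / p + 2 / (B' * p * ((B : ℝ) ^ 2) ^ Fintype.card S) * Er (iv B' : Finset (ZMod p)) w (iv B) c := by
  have hp : (0 : ℝ) < p := by
    have := (Fact.out : p.Prime).pos
    exact_mod_cast this
  have hBr : (0 : ℝ) < B := by exact_mod_cast hB
  have hBr' : (0 : ℝ) < B' := by exact_mod_cast hB1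
  have hq : (0 : ℝ) < Fintype.card F := by
    exact_mod_cast Fintype.card_pos
  have hE := pbt_0 (iv B' : Finset (ZMod p)) w (iv B) c
  obtain ⟨A, hA⟩ : ∃ A : ℝ, A = ∑ l : F, ∏ i, ((rr (iv B) (τ (l * w i)) : ℕ) : ℝ) := ⟨_, rfl⟩
  have hL : (Fintype.card F : ℝ) / p ^ Fintype.card S * ((B : ℝ) ^ 2) ^ Fintype.card S ≤ A := by
    have h := low τ hτ w (iv B)
    rw [(riv B hBp).1] at h
    rw [hA]
    exact h
  have hL0 : 0 < (Fintype.card F : ℝ) / p ^ Fintype.card S * ((B : ℝ) ^ 2) ^ Fintype.card S := by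
    positivity
  have hA0 : 0 < A := lt_of_lt_of_le hL0 hL
  rw [← hA, div_le_iff₀ hA0]
  have h1 : ∑ l : F, (∏ i, ((rr (iv B) (τ (l * w i)) : ℕ) : ℝ)) *
        (if 2 * (τ (l * c)).valMinAbs.natAbs ≤ B' then 1 else 0) ≤
      ∑ l : F, (2 / (B' : ℝ)) * ((∏ i, ((rr (iv B) (τ (l * w i)) : ℕ) : ℝ)) *
        ((rr (iv B') (τ (l * c)) : ℕ) : ℝ)) := by
    refine sum_le_sum fun l _ => ?_
    have h0 : (0 : ℝ) ≤ ∏ i, ((rr (iv B) (τ (l * w i)) : ℕ) : ℝ) :=
      prod_nonneg fun i _ => Nat.cast_nonneg _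
    have h2 : (if 2 * (τ (l * c)).valMinAbs.natAbs ≤ B' then (1 : ℝ) else 0) ≤
        2 / (B' : ℝ) * ((rr (iv B') (τ (l * c)) : ℕ) : ℝ) := by
      split_ifs with hc
      · have h3 := riw B' hB' (τ (l * c)) hc
        have h4 : (B' : ℝ) ≤ 2 * ((rr (iv B') (τ (l * c)) : ℕ) : ℝ) := by exact_mod_cast h3
        rw [div_mul_eq_mul_div, le_div_iff₀ hBr', one_mul]
        exact h4
      · positivity
    have h5 := mul_le_mul_of_nonneg_left h2 h0
    refine h5.trans (le_of_eq ?_)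
    ring
  refine h1.trans ?_
  rw [← mul_sum, spt τ hτ w (iv B) (iv B') c, ← hA, (riv B' hB').1]
  have h6 : (Fintype.card F : ℝ) / p ^ (Fintype.card S + 1) * Er (iv B' : Finset (ZMod p)) w (iv B) c ≤
      1 / (p * ((B : ℝ) ^ 2) ^ Fintype.card S) * Er (iv B' : Finset (ZMod p)) w (iv B) c * A := by
    have h7 : (Fintype.card F : ℝ) / p ^ (Fintype.card S + 1) * Er (iv B' : Finset (ZMod p)) w (iv B) c =
        1 / (p * ((B : ℝ) ^ 2) ^ Fintype.card S) * Er (iv B' : Finset (ZMod p)) w (iv B) c *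
          ((Fintype.card F : ℝ) / p ^ Fintype.card S * ((B : ℝ) ^ 2) ^ Fintype.card S) := by
      field_simp
      ring
    rw [h7]
    exact mul_le_mul_of_nonneg_left hL (mul_nonneg (by positivity) hE)
  have h8 : 2 / (B' : ℝ) * ((B' : ℝ) ^ 2 / p * A + (Fintype.card F : ℝ) / p ^ (Fintype.card S + 1) *
      Er (iv B' : Finset (ZMod p)) w (iv B) c) ≤ 2 / (B' : ℝ) * ((B' : ℝ) ^ 2 / p * A +
        1 / (p * ((B : ℝ) ^ 2) ^ Fintype.card S) * Er (iv B' : Finset (ZMod p)) w (iv B) c * A) :=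
    mul_le_mul_of_nonneg_left (by linarith) (by positivity)
  refine h8.trans (le_of_eq ?_)
  field_simp

/-- `bad` is at most `2 / B'` times `rr (iv B')` (`riw`), so by `spt` and `low` the quotient is at most `2 B' / p + (2 / B') * (q / p ^ (|S| + 1)) * Er / (q / p ^ |S| * B ^ (2 |S|))`; the sum of `Er` over `γ` is at most
`k p B' (p B) ^ |S|` by `ers` with the polynomials of `shp` (`x = Sum.elim x x`, `s = Sum.elim j j`): together `(q - 1) * 2 B' / p + 2 k (p / B) ^ |S| ≤ (q - 1) / 8 + (q - 1) / 4`. (`|S| ≤ (k + 1) ^ (2 d)`, `B ≤ p`.) -/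
theorem pbt (τ : F →ₗ[ZMod p] ZMod p) (hτ : τ ≠ 0) (M : ℕ) (hM1 : 1 ≤ M) (d k : ℕ) (f : MvPolynomial (Fin d ⊕ Fin d) F)
    (hf : f.totalDegree ≤ k) (B B' : ℕ) (hB : 1 ≤ B) (hB1 : 1 ≤ B') (hBp : 2 * B ≤ p) (hB' : 16 * M * B' ≤ p)
    (h3 : 8 * M * k * p ^ ((k + 1) ^ (2 * d)) ≤ (Fintype.card F - 1) * B ^ ((k + 1) ^ (2 * d)))
    (x j : Fin d → F) (c : F) (hc : c ≠ 0) :
    ∑ γ : F, (open Classical in if γ = 0 then (0 : ℝ) else
      (∑ l : F, (∏ m : Sx d k, ((rr (iv B) (τ (l * wv f (fun i => x i - γ * j i) γ m)) : ℕ) : ℝ)) *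
        (if 2 * (τ (l * c)).valMinAbs.natAbs ≤ B' then 1 else 0)) /
      ∑ l : F, ∏ m : Sx d k, ((rr (iv B) (τ (l * wv f (fun i => x i - γ * j i) γ m)) : ℕ) : ℝ)) ≤
    ((Fintype.card F : ℝ) - 1) / (2 * M) := by
  classical
  have hB16 : 16 * B' ≤ p := by
    refine le_trans ?_ hB'
    have : 16 * B' * 1 ≤ 16 * B' * M := Nat.mul_le_mul_left _ hM1
    nlinarith
  have hMr : (1 : ℝ) ≤ M := by exact_mod_cast hM1
  have hp : (0 : ℝ) < p := by
    have := (Fact.out : p.Prime).pos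
    exact_mod_cast this
  have hBr : (0 : ℝ) < B := by exact_mod_cast hB
  have hBr' : (0 : ℝ) < B' := by exact_mod_cast hB1
  have hg : ∀ m : Sx d k, ∃ g : Polynomial F, g.natDegree ≤ k ∧ g.coeff 0 = 0 ∧
      ∀ γ : F, g.eval γ = wv f (fun i => x i - γ * j i) γ m := by
    intro m
    obtain ⟨g, h1, h2, h4⟩ := shp f k hf (Sum.elim x x) (Sum.elim j j) (fun i => (m.1 i : ℕ)) (by
      intro h
      apply m.2
      funext i
      have h5 := congrFun h i
      apply Fin.ext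
      simpa using h5)
    refine ⟨g, h1, h2, fun γ => ?_⟩
    rw [h4 γ]
    unfold wv
    congr 2
    funext i
    rcases i with i | i <;> rfl
  choose g hg1 hg2 hg3 using hg
  have hEr := ers (iv B' : Finset (ZMod p)) g k (fun i => ⟨hg1 i, hg2 i⟩) (iv B) c hc
  rw [(riv B hBp).1, (riv B' (by omega)).1] at hEr
  obtain ⟨s, hs⟩ : ∃ s : ℕ, s = Fintype.card (Sx d k) := ⟨_, rfl⟩
  have hsM : s ≤ (k + 1) ^ (2 * d) := by
    rw [hs]
    refine (Fintype.card_subtype_le _).trans (le_of_eq ?_)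
    rw [Fintype.card_fun, Fintype.card_fin, Fintype.card_sum, Fintype.card_fin, two_mul]
  obtain ⟨D, hD⟩ : ∃ D : ℝ, D = 2 / (B' * p * ((B : ℝ) ^ 2) ^ s) := ⟨_, rfl⟩
  have hD0 : 0 ≤ D := by
    rw [hD]
    positivity
  have hE0 : ∀ γ : F, 0 ≤ Er (iv B' : Finset (ZMod p)) (fun i => (g i).eval γ) (iv B) c := fun γ => pbt_0 _ _ _ _
  have hterm : ∀ γ : F, (open Classical in if γ = 0 then (0 : ℝ) else
      (∑ l : F, (∏ m : Sx d k, ((rr (iv B) (τ (l * wv f (fun i => x i - γ * j i) γ m)) : ℕ) : ℝ)) *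
        (if 2 * (τ (l * c)).valMinAbs.natAbs ≤ B' then 1 else 0)) /
      ∑ l : F, ∏ m : Sx d k, ((rr (iv B) (τ (l * wv f (fun i => x i - γ * j i) γ m)) : ℕ) : ℝ)) ≤
      (if γ = 0 then (0 : ℝ) else 2 * B' / p) + D * Er (iv B' : Finset (ZMod p)) (fun i => (g i).eval γ) (iv B) c := by
    intro γ
    by_cases hγ : γ = 0
    · rw [if_pos hγ, if_pos hγ, zero_add]
      exact mul_nonneg hD0 (hE0 γ)
    · rw [if_neg hγ, if_neg hγ]
      have h1 : (fun i => (g i).eval γ) = fun m => wv f (fun i => x i - γ * j i) γ m :=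
        funext fun m => hg3 m γ
      rw [h1, hD, hs]
      exact pbt_1 τ hτ (fun m => wv f (fun i => x i - γ * j i) γ m) B B' hB hB1 hBp (by omega) c
  refine (sum_le_sum fun γ _ => hterm γ).trans ?_
  rw [sum_add_distrib, ← mul_sum]
  have hq1 : 1 ≤ Fintype.card F := Fintype.card_pos
  have h5 : ∑ γ : F, (if γ = 0 then (0 : ℝ) else 2 * B' / p) = ((Fintype.card F : ℝ) - 1) * (2 * B' / p) := by
    have h6 : ∀ γ : F, (if γ = 0 then (0 : ℝ) else 2 * B' / p) = 2 * B' / p - (if γ = 0 then 2 * (B' : ℝ) / p else 0) := by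
      intro γ
      split_ifs <;> ring
    rw [sum_congr rfl fun γ _ => h6 γ, sum_sub_distrib, sum_const, sum_ite_eq' univ (0 : F), if_pos (mem_univ _),
      nsmul_eq_mul, card_univ]
    ring
  rw [h5]
  have hq0 : (0 : ℝ) ≤ (Fintype.card F : ℝ) - 1 := by
    have : (1 : ℝ) ≤ Fintype.card F := by exact_mod_cast hq1
    linarith
  have h7 : 2 * (B' : ℝ) / p ≤ 1 / (8 * M) := by
    have : (16 : ℝ) * M * B' ≤ p := by exact_mod_cast hB'
    rw [div_le_div_iff₀ hp (by positivity)]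
    linarith
  have h8 : ((Fintype.card F : ℝ) - 1) * (2 * B' / p) ≤ ((Fintype.card F : ℝ) - 1) * (1 / (8 * M)) :=
    mul_le_mul_of_nonneg_left h7 hq0
  have h9 : D * ∑ γ : F, Er (iv B' : Finset (ZMod p)) (fun i => (g i).eval γ) (iv B) c ≤ 2 * k * ((p : ℝ) / B) ^ s := by
    refine (mul_le_mul_of_nonneg_left hEr hD0).trans (le_of_eq ?_)
    rw [hD, ← hs, mul_pow, div_pow, sq, mul_pow]
    field_simp
  have h10 : ((p : ℝ) / B) ^ s ≤ ((p : ℝ) / B) ^ ((k + 1) ^ (2 * d)) := by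
    refine pow_le_pow_right₀ ?_ hsM
    rw [le_div_iff₀ hBr, one_mul]
    have : B ≤ p := by omega
    exact_mod_cast this
  have h11 : 8 * (M : ℝ) * (k : ℝ) * ((p : ℝ) / B) ^ ((k + 1) ^ (2 * d)) ≤ (Fintype.card F : ℝ) - 1 := by
    rw [div_pow, mul_div_assoc', div_le_iff₀ (by positivity)]
    have h12 : (((8 * M * k * p ^ ((k + 1) ^ (2 * d)) : ℕ)) : ℝ) ≤
        (((Fintype.card F - 1) * B ^ ((k + 1) ^ (2 * d)) : ℕ) : ℝ) := by exact_mod_cast h3
    rw [Nat.cast_mul, Nat.cast_mul, Nat.cast_mul, Nat.cast_mul, Nat.cast_sub hq1, Nat.cast_pow, Nat.cast_pow] at h12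
    simpa using h12
  have h13 : 2 * (k : ℝ) * ((p : ℝ) / B) ^ s ≤ 2 * k * ((p : ℝ) / B) ^ ((k + 1) ^ (2 * d)) :=
    mul_le_mul_of_nonneg_left h10 (by positivity)
  obtain ⟨X, hX⟩ : ∃ X : ℝ, X = (k : ℝ) * ((p : ℝ) / B) ^ ((k + 1) ^ (2 * d)) := ⟨_, rfl⟩
  have h14 : 2 * (k : ℝ) * ((p : ℝ) / B) ^ ((k + 1) ^ (2 * d)) = 2 * X := by rw [hX]; ring
  have h15 : 8 * (M : ℝ) * X ≤ (Fintype.card F : ℝ) - 1 := by rw [hX]; linarith
  have h16 : X ≤ ((Fintype.card F : ℝ) - 1) / (8 * M) := by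
    rw [le_div_iff₀ (by positivity)]
    linarith
  have h17 : ((Fintype.card F : ℝ) - 1) * (1 / (8 * M)) = ((Fintype.card F : ℝ) - 1) / (8 * M) := by ring
  have h18 : ((Fintype.card F : ℝ) - 1) / (2 * M) = 4 * (((Fintype.card F : ℝ) - 1) / (8 * M)) := by
    field_simp
    ring
  have h19 : 0 ≤ ((Fintype.card F : ℝ) - 1) / (8 * M) := by positivity
  rw [h18]
  rw [h14] at h13
  rw [h17] at h8
  linarith

end three

theorem smt (p : ℕ) [Fact p.Prime] (hp2 : p ≠ 2) {F : Type} [Field F] [Fintype F] [Algebra (ZMod p) F] (T M d k : ℕ)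
    (hTM : T ≤ M) (hM1 : 1 ≤ M)
    (f : Fin T → MvPolynomial (Fin d ⊕ Fin d) F) (hf : ∀ i, (f i).totalDegree ≤ k)
    {V : Type} [Fintype V] (G : SimpleGraph V) (x : V → Fin d → F) (z : V → F)
    (hna : ∀ i u, 2 * z u ≠ eval (Sum.elim (x u) (x u)) (f i))
    (hG : ∀ u v, G.Adj u v → ∃ i, z u + z v = eval (Sum.elim (x u) (x v)) (f i))
    (B B' R : ℕ) (hB : 1 ≤ B) (hB1 : 1 ≤ B') (hB' : 16 * M * B' ≤ p) (hR : R < p)
    (h2 : 8 * ((k + 1) ^ (2 * (T * d)) * R ^ (2 * (T * d) * k) * B) ≤ B') (hBp : 2 * B ≤ p)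
    (h3 : 8 * M * k * p ^ ((k + 1) ^ (2 * (T * d))) ≤ (Fintype.card F - 1) * B ^ ((k + 1) ^ (2 * (T * d)))) :
    ∃ I : Finset V, G.IsIndepSet (I : Set V) ∧
      Fintype.card V * (R + 1) ^ d ≤ 2 ^ (T + 1) * Fintype.card F ^ d * I.card := by
  classical
  have : CharP F p := charP_of_injective_algebraMap (algebraMap (ZMod p) F).injective p
  obtain ⟨τ, hτ⟩ : ∃ τ : F →ₗ[ZMod p] ZMod p, τ ≠ 0 := by
    by_contra hcon
    push Not at hcon
    have h1 : ∀ φ : Module.Dual (ZMod p) F, φ (1 : F) = 0 := fun φ => by rw [hcon φ]; rfl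
    exact one_ne_zero ((Module.forall_dual_apply_eq_zero_iff (ZMod p) (1 : F)).1 h1)
  set ω : (Fin d → F) → F → F → ℝ := fun x0 γ l =>
    ∏ m : Sx (T * d) k, ((rr (iv B) (τ (l * wv (fam f) (cp T x0) γ m)) : ℕ) : ℝ) with hω
  have hcard : ((iv B : Finset (ZMod p)).card : ℝ) = B := by exact_mod_cast (riv (p := p) B hBp).1
  have hB0 : (0 : ℝ) < B := by exact_mod_cast hB
  have hpp : (0 : ℝ) < p := by exact_mod_cast (Fact.out : p.Prime).pos
  have hF0 : (0 : ℝ) < Fintype.card F := by exact_mod_cast Fintype.card_pos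
  have hF1 : (1 : ℝ) ≤ Fintype.card F := by exact_mod_cast (Fintype.card_pos : 0 < Fintype.card F)
  have hω0 : ∀ x0 γ l, 0 ≤ ω x0 γ l := fun x0 γ l => Finset.prod_nonneg fun m _ => Nat.cast_nonneg _
  have hωs : ∀ x0 γ, 0 < ∑ l, ω x0 γ l := fun x0 γ => by
      refine lt_of_lt_of_le ?_ (low τ hτ (fun m : Sx (T * d) k => wv (fam f) (cp T x0) γ m) (iv B))
      rw [hcard]
      positivity
  obtain ⟨x0, γ, l, hl, U, hU, hcU⟩ := sel p d R hR x ω hω0 hωs
    (fun u l => ∃ i, 2 * (τ (l * (2 * z u - eval (Sum.elim (x u) (x u)) (f i)))).valMinAbs.natAbs ≤ B')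
    (fun u j => by
      have h1 : ∀ i : Fin T, ∑ γ : F, (if γ = 0 then (0 : ℝ) else
          (∑ l, ω (fun i => x u i - γ * ((j i : ℕ) : F)) γ l *
            (if 2 * (τ (l * (2 * z u - eval (Sum.elim (x u) (x u)) (f i)))).valMinAbs.natAbs ≤ B' then 1 else 0)) /
            ∑ l, ω (fun i => x u i - γ * ((j i : ℕ) : F)) γ l) ≤ ((Fintype.card F : ℝ) - 1) / (2 * M) := by
        intro i
        have h1 := pbt τ hτ M hM1 (T * d) k (fam f) (fam_deg f hf) B B' hB hB1 hBp hB' h3 (cp T (x u))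
          (cp T (fun i => ((j i : ℕ) : F)))
          (2 * z u - eval (Sum.elim (x u) (x u)) (f i)) (sub_ne_zero.2 (hna i u))
        refine le_trans (le_of_eq ?_) h1
        refine Finset.sum_congr rfl fun γ _ => ?_
        split_ifs with h0
        · rfl
        · congr 1
      have h2 : ∀ γ : F, (if γ = 0 then (0 : ℝ) else
          (∑ l, ω (fun i => x u i - γ * ((j i : ℕ) : F)) γ l *
            (if ∃ i, 2 * (τ (l * (2 * z u - eval (Sum.elim (x u) (x u)) (f i)))).valMinAbs.natAbs ≤ B' then 1 else 0)) /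
            ∑ l, ω (fun i => x u i - γ * ((j i : ℕ) : F)) γ l) ≤
          ∑ i : Fin T, (if γ = 0 then (0 : ℝ) else
          (∑ l, ω (fun i => x u i - γ * ((j i : ℕ) : F)) γ l *
            (if 2 * (τ (l * (2 * z u - eval (Sum.elim (x u) (x u)) (f i)))).valMinAbs.natAbs ≤ B' then 1 else 0)) /
            ∑ l, ω (fun i => x u i - γ * ((j i : ℕ) : F)) γ l) := by
        intro γ
        by_cases h0 : γ = 0
        · simp [h0]
        · simp only [h0, if_false]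
          rw [← Finset.sum_div]
          apply div_le_div_of_nonneg_right _ (hωs _ _).le
          rw [Finset.sum_comm]
          refine Finset.sum_le_sum fun l _ => ?_
          rw [← Finset.mul_sum]
          apply mul_le_mul_of_nonneg_left _ (hω0 _ _ _)
          split_ifs with hex
          · obtain ⟨i, hi⟩ := hex
            refine le_trans ?_ (Finset.single_le_sum (f := fun i : Fin T =>
              (if 2 * (τ (l * (2 * z u - eval (Sum.elim (x u) (x u)) (f i)))).valMinAbs.natAbs ≤ B' then (1 : ℝ) else 0))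
              (fun i _ => by positivity) (Finset.mem_univ i))
            simp only [hi, if_true, le_refl]
          · exact Finset.sum_nonneg fun i _ => by positivity
      have h4 : ∑ γ : F, (if γ = 0 then (0 : ℝ) else
          (∑ l, ω (fun i => x u i - γ * ((j i : ℕ) : F)) γ l *
            (if ∃ i, 2 * (τ (l * (2 * z u - eval (Sum.elim (x u) (x u)) (f i)))).valMinAbs.natAbs ≤ B' then 1 else 0)) /
            ∑ l, ω (fun i => x u i - γ * ((j i : ℕ) : F)) γ l) ≤ ((Fintype.card F : ℝ) - 1) / 2 := by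
        refine (Finset.sum_le_sum fun γ _ => h2 γ).trans ?_
        rw [Finset.sum_comm]
        refine (Finset.sum_le_sum fun i _ => h1 i).trans ?_
        rw [Finset.sum_const, Finset.card_univ, Fintype.card_fin, nsmul_eq_mul]
        have hMr : (1 : ℝ) ≤ M := by exact_mod_cast hM1
        have hTr : (T : ℝ) ≤ M := by exact_mod_cast hTM
        rw [mul_div_assoc', div_le_div_iff₀ (by positivity) (by norm_num)]
        nlinarith
      refine le_trans (le_of_eq ?_) h4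
      refine Finset.sum_congr rfl fun γ _ => ?_
      split_ifs with h0
      · rfl
      · congr 1
        refine Finset.sum_congr rfl fun l _ => ?_
        congr!)
  set ε : ℕ := (k + 1) ^ (2 * (T * d)) * R ^ (2 * (T * d) * k) * B with hε
  have h2ne : (2 : ZMod p) ≠ 0 := by
    intro h0
    have h1 : ((2 : ℕ) : ZMod p) = 0 := by exact_mod_cast h0
    rw [ZMod.natCast_eq_zero_iff] at h1
    exact hp2 ((Nat.prime_dvd_prime_iff_eq (Fact.out : p.Prime) Nat.prime_two).1 h1)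
  have hsml : ∀ i, ∀ u ∈ U, ∀ v ∈ U, (τ (l * (eval (Sum.elim (x u) (x v)) (f i) -
      eval (Sum.elim x0 x0) (f i)))).valMinAbs.natAbs ≤ ε := by
    intro i u hu v hv
    obtain ⟨j, hj⟩ := (hU u hu).1
    obtain ⟨j', hj'⟩ := (hU v hv).1
    rw [← fam_blk]
    have e : ∀ (w : V) (j : Fin d → Fin (R + 1)), (∀ i, x w i = x0 i + γ * ((j i : ℕ) : F)) →
        blk i x0 (x w) = fun m => cp T x0 m + γ * (((blk i (fun _ => (0 : Fin (R + 1))) j) m : ℕ) : F) := by
      intro w j hj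
      funext m
      unfold blk cp
      split_ifs
      · exact hj _
      · simp
    rw [e u j hj, e v j' hj']
    exact sml τ (T * d) k (fam f) (fam_deg f hf) B R hBp (cp T x0) γ l hl _ _
  obtain ⟨I, hI, hUI⟩ := itr G T (fun i u v => z u + z v = eval (Sum.elim (x u) (x v)) (f i)) U
    (fun u _ v _ huv => hG u v huv) (by
      intro i U' hU'
      set e : F := eval (Sum.elim x0 x0) (f i) with he
      obtain ⟨I, hIU, hI, hc⟩ := gec p hp2 G U' (fun u => τ (l * z u) - τ (l * e) / 2) ε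
        (fun u hu => by
          have h4 : ¬ 2 * (τ (l * (2 * z u - eval (Sum.elim (x u) (x u)) (f i)))).valMinAbs.natAbs ≤ B' :=
            fun hh => (hU u (hU' hu)).2 ⟨i, hh⟩
          have h5 := hsml i u (hU' hu) u (hU' hu)
          set a : ZMod p := τ (l * (2 * z u - eval (Sum.elim (x u) (x u)) (f i))) with ha
          set b : ZMod p := τ (l * (eval (Sum.elim (x u) (x u)) (f i) - e)) with hb
          have e1 : 2 * (τ (l * z u) - τ (l * e) / 2) = a + b := by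
            rw [ha, hb, ← map_add, mul_sub, mul_div_cancel₀ _ h2ne, two_mul, ← map_add, ← map_sub]
            congr 1
            ring
          show ε < (2 * (τ (l * z u) - τ (l * e) / 2)).valMinAbs.natAbs
          rw [e1]
          have h6 : a.valMinAbs.natAbs ≤ (a + b).valMinAbs.natAbs + b.valMinAbs.natAbs := by
            have h7 := ZMod.natAbs_valMinAbs_add_le (a + b) (-b)
            rw [add_neg_cancel_right] at h7
            have h8 := Int.natAbs_add_le (a + b).valMinAbs (-b).valMinAbs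
            rw [ZMod.natAbs_valMinAbs_neg] at h8
            omega
          have h4' : B' < 2 * a.valMinAbs.natAbs := not_le.1 h4
          omega)
      refine ⟨I, hIU, ?_, hc⟩
      intro u hu v hv huv hR'
      apply hI u hu v hv huv
      have h5 := hsml i u (hU' (hIU hu)) v (hU' (hIU hv))
      rw [← hR'] at h5
      have e1 : (τ (l * z u) - τ (l * e) / 2) + (τ (l * z v) - τ (l * e) / 2) = τ (l * (z u + z v - e)) := by
        have e2 : τ (l * e) / 2 + τ (l * e) / 2 = τ (l * e) := by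
          rw [← two_mul, mul_div_cancel₀ _ h2ne]
        have e3 : τ (l * (z u + z v - e)) = τ (l * z u) + τ (l * z v) - τ (l * e) := by
          rw [← map_add, ← map_sub]
          congr 1
          ring
        rw [e3]
        linear_combination (-1 : ZMod p) * e2
      show ((τ (l * z u) - τ (l * e) / 2) + (τ (l * z v) - τ (l * e) / 2)).valMinAbs.natAbs ≤ ε
      rw [e1]
      exact h5)
  refine ⟨I, hI, hcU.trans ?_⟩
  calc 2 * Fintype.card F ^ d * U.card ≤ 2 * Fintype.card F ^ d * (2 ^ T * I.card) := Nat.mul_le_mul_left _ hUI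
    _ = 2 ^ (T + 1) * Fintype.card F ^ d * I.card := by ring

/-! ## Part D: parameters -/

theorem rot (T : ℕ) (hT : 1 ≤ T) (κ0 X Y : ℝ) (hκ0 : 0 < κ0) (hX : 1 ≤ X) (hY : 0 ≤ Y) (h : 4 * X ^ κ0 ≤ Y ^ T)
    (hbig : (2 : ℝ) ^ (2 * (T : ℝ) * (T + 1) / κ0) ≤ X) : 2 ^ (T + 1) * X ^ (κ0 / (2 * T)) ≤ Y := by
  have hTr : (1 : ℝ) ≤ T := by exact_mod_cast hT
  have hT0 : (0 : ℝ) < T := by linarith
  have hX0 : 0 < X := by linarith
  have h1 : X ^ κ0 ≤ Y ^ T := by
    have : 0 ≤ X ^ κ0 := Real.rpow_nonneg hX0.le _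
    linarith
  have h2 : X ^ (κ0 / T) ≤ Y := by
    have h3 : (X ^ κ0) ^ ((1 : ℝ) / T) ≤ (Y ^ T) ^ ((1 : ℝ) / T) :=
      Real.rpow_le_rpow (Real.rpow_nonneg hX0.le _) h1 (by positivity)
    rw [← Real.rpow_mul hX0.le, ← Real.rpow_natCast, ← Real.rpow_mul hY] at h3
    rw [mul_one_div, mul_one_div, div_self hT0.ne', Real.rpow_one] at h3
    exact h3
  have h4 : (2 : ℝ) ^ (T + 1) ≤ X ^ (κ0 / (2 * T)) := by
    have h5 := Real.rpow_le_rpow (by positivity) hbig (show 0 ≤ κ0 / (2 * T) by positivity)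
    rw [← Real.rpow_mul (by norm_num)] at h5
    have h6 : 2 * (T : ℝ) * (T + 1) / κ0 * (κ0 / (2 * T)) = ((T + 1 : ℕ) : ℝ) := by
      push_cast
      field_simp
    rw [h6, Real.rpow_natCast] at h5
    exact h5
  calc 2 ^ (T + 1) * X ^ (κ0 / (2 * T)) ≤ X ^ (κ0 / (2 * T)) * X ^ (κ0 / (2 * T)) :=
        mul_le_mul_of_nonneg_right h4 (Real.rpow_nonneg hX0.le _)
    _ = X ^ (κ0 / T) := by
        rw [← Real.rpow_add hX0]
        congr 1
        field_simp
        ring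
    _ ≤ Y := h2

theorem pat (T d k : ℕ) (hT : 1 ≤ T) (hd : 1 ≤ d) : ∃ κ : ℝ, 0 < κ ∧ ∃ R0 : ℕ, 1 ≤ R0 ∧ ∀ p r : ℕ, 2 ≤ p → R0 ≤ r →
    ∃ t : ℕ, t ≤ r ∧ 2 * (T * (k * p ^ ((k * t + 1) * (k + 1) ^ (2 * (T * d))))) ≤ p ^ r - 1 ∧
      2 ^ (T + 1) * ((p ^ r : ℕ) : ℝ) ^ κ ≤ ((p ^ t : ℕ) : ℝ) ^ d := by
  have hTr : (1 : ℝ) ≤ T := by exact_mod_cast hT
  have hT0 : (0 : ℝ) < T := by linarith
  have hTd : 1 ≤ T * d := Nat.mul_pos hT hd
  obtain ⟨κ0, hκ0, R0, hR0, h⟩ := pra (T * d) (T * k) hTd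
  refine ⟨κ0 / (2 * T), by positivity, max R0 ⌈2 * (T : ℝ) * (T + 1) / κ0⌉₊, le_max_of_le_left hR0, ?_⟩
  intro p r hp hr
  obtain ⟨t, ht, h1, h2⟩ := h p r hp ((le_max_left _ _).trans hr)
  refine ⟨t, ht, ?_, ?_⟩
  · refine le_trans ?_ h1
    refine Nat.mul_le_mul_left _ ?_
    rw [← mul_assoc]
    refine Nat.mul_le_mul_left _ ?_
    refine Nat.pow_le_pow_right (by omega) ?_
    have hk : k ≤ T * k := Nat.le_mul_of_pos_left k hT
    refine Nat.mul_le_mul (Nat.add_le_add_right (Nat.mul_le_mul_right _ hk) 1) ?_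
    exact Nat.pow_le_pow_left (Nat.add_le_add_right hk 1) _
  · have hpr : (1 : ℝ) ≤ ((p ^ r : ℕ) : ℝ) := by
      have : 1 ≤ p ^ r := Nat.one_le_pow _ _ (by omega)
      exact_mod_cast this
    refine rot T hT κ0 _ _ hκ0 hpr (by positivity) ?_ ?_
    · refine h2.trans (le_of_eq ?_)
      rw [← pow_mul, mul_comm d T]
    · have h3 : 2 * (T : ℝ) * (T + 1) / κ0 ≤ (r : ℝ) := by
        refine (Nat.le_ceil _).trans ?_
        exact_mod_cast (le_max_right _ _).trans hr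
      calc (2 : ℝ) ^ (2 * (T : ℝ) * (T + 1) / κ0) ≤ (2 : ℝ) ^ (r : ℝ) :=
            Real.rpow_le_rpow_of_exponent_le (by norm_num) h3
        _ = (2 : ℝ) ^ r := Real.rpow_natCast _ _
        _ ≤ (p : ℝ) ^ r := by
            have : (2 : ℝ) ≤ p := by exact_mod_cast hp
            exact pow_le_pow_left₀ (by norm_num) this r
        _ = ((p ^ r : ℕ) : ℝ) := by push_cast; rfl

theorem pbr (T M d k R0 : ℕ) (hT : 1 ≤ T) (hM : 1 ≤ M) (hd : 1 ≤ d) : ∃ κ : ℝ, 0 < κ ∧ ∃ p₀ : ℕ,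
    ∀ p r : ℕ, p₀ ≤ p → 1 ≤ r → r ≤ R0 →
    ∃ B B' R : ℕ, 1 ≤ B ∧ 1 ≤ B' ∧ 16 * M * B' ≤ p ∧ R < p ∧
      8 * ((k + 1) ^ (2 * (T * d)) * R ^ (2 * (T * d) * k) * B) ≤ B' ∧ 2 * B ≤ p ∧
      8 * M * k * p ^ ((k + 1) ^ (2 * (T * d))) ≤ (p ^ r - 1) * B ^ ((k + 1) ^ (2 * (T * d))) ∧
      2 ^ (T + 1) * ((p ^ r : ℕ) : ℝ) ^ κ ≤ ((R : ℝ) + 1) ^ d := by
  have hTr : (1 : ℝ) ≤ T := by exact_mod_cast hT
  have hT0 : (0 : ℝ) < T := by linarith
  have hTd : 1 ≤ T * d := Nat.mul_pos hT hd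
  obtain ⟨κ0, hκ0, p1, h⟩ := prb (T * d) (M * (k + 1)) R0 hTd
  refine ⟨κ0 / (2 * T), by positivity, max (max p1 2) ⌈(2 : ℝ) ^ (2 * (T : ℝ) * (T + 1) / κ0)⌉₊, ?_⟩
  intro p r hp hr hrR
  have hp1 : p1 ≤ p := (le_max_left _ _).trans ((le_max_left _ _).trans hp)
  have hp2 : 2 ≤ p := (le_max_right _ _).trans ((le_max_left _ _).trans hp)
  obtain ⟨B, B1, R, h1, h2, h3, h4, h5, h6, h7, h8⟩ := h p r hp1 hr hrR
  have hpr1 : 1 ≤ p ^ r := Nat.one_le_pow _ _ (by omega)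
  have hprr : (1 : ℝ) ≤ ((p ^ r : ℕ) : ℝ) := by exact_mod_cast hpr1
  have hR1 : 1 ≤ R := by
    rcases Nat.eq_zero_or_pos R with h0 | h0
    · exfalso
      rw [h0] at h8
      have h9 : (1 : ℝ) ≤ ((p ^ r : ℕ) : ℝ) ^ κ0 := Real.one_le_rpow hprr hκ0.le
      have h10 : (((0 : ℕ) : ℝ) + 1) ^ (T * d) = 1 := by simp
      rw [h10] at h8
      linarith
    · exact h0
  have hkk : k ≤ M * (k + 1) := by nlinarith
  have hMA : M * (k + 1) ^ (2 * (T * d)) ≤ (M * (k + 1) + 1) ^ (2 * (T * d)) := by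
    calc M * (k + 1) ^ (2 * (T * d)) ≤ M ^ (2 * (T * d)) * (k + 1) ^ (2 * (T * d)) :=
          Nat.mul_le_mul_right _ (Nat.le_self_pow (by omega) M)
      _ = (M * (k + 1)) ^ (2 * (T * d)) := (mul_pow _ _ _).symm
      _ ≤ (M * (k + 1) + 1) ^ (2 * (T * d)) := Nat.pow_le_pow_left (Nat.le_succ _) _
  have hkey : M * (8 * ((k + 1) ^ (2 * (T * d)) * R ^ (2 * (T * d) * k) * B)) ≤ B1 := by
    refine le_trans ?_ h5
    have hRR : R ^ (2 * (T * d) * k) ≤ R ^ (2 * (T * d) * (M * (k + 1))) :=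
      Nat.pow_le_pow_right hR1 (Nat.mul_le_mul_left _ hkk)
    calc M * (8 * ((k + 1) ^ (2 * (T * d)) * R ^ (2 * (T * d) * k) * B))
        = 8 * ((M * (k + 1) ^ (2 * (T * d))) * R ^ (2 * (T * d) * k) * B) := by ring
      _ ≤ 8 * ((M * (k + 1) + 1) ^ (2 * (T * d)) * R ^ (2 * (T * d) * (M * (k + 1))) * B) :=
          Nat.mul_le_mul_left _ (Nat.mul_le_mul_right _ (Nat.mul_le_mul hMA hRR))
  refine ⟨B, B1 / M, R, h1, ?_, ?_, h4, ?_, h6, ?_, ?_⟩
  · rw [Nat.one_le_div_iff hM]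
    refine le_trans ?_ hkey
    have hpos : 1 ≤ 8 * ((k + 1) ^ (2 * (T * d)) * R ^ (2 * (T * d) * k) * B) := by
      have e1 : 0 < (k + 1) ^ (2 * (T * d)) := Nat.pow_pos (Nat.succ_pos k)
      have e2 : 0 < R ^ (2 * (T * d) * k) := Nat.pow_pos hR1
      have e3 : 0 < (k + 1) ^ (2 * (T * d)) * R ^ (2 * (T * d) * k) * B := Nat.mul_pos (Nat.mul_pos e1 e2) h1
      omega
    calc M = M * 1 := (mul_one M).symm
      _ ≤ M * (8 * ((k + 1) ^ (2 * (T * d)) * R ^ (2 * (T * d) * k) * B)) := Nat.mul_le_mul_left _ hpos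
  · calc 16 * M * (B1 / M) = 16 * (M * (B1 / M)) := by ring
      _ ≤ 16 * B1 := Nat.mul_le_mul_left _ (Nat.mul_div_le _ _)
      _ ≤ p := h3
  · rw [Nat.le_div_iff_mul_le hM, mul_comm]
    exact hkey
  · have hAA : (k + 1) ^ (2 * (T * d)) ≤ (M * (k + 1) + 1) ^ (2 * (T * d)) := by
      refine le_trans ?_ hMA
      exact Nat.le_mul_of_pos_left _ hM
    obtain ⟨e, he⟩ := Nat.exists_eq_add_of_le hAA
    rw [he, pow_add, pow_add] at h7
    have hBp : B ≤ p := by omega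
    have h9 : 8 * (M * (k + 1)) * p ^ ((k + 1) ^ (2 * (T * d))) * p ^ e ≤
        (p ^ r - 1) * B ^ ((k + 1) ^ (2 * (T * d))) * p ^ e := by
      calc 8 * (M * (k + 1)) * p ^ ((k + 1) ^ (2 * (T * d))) * p ^ e
          = 8 * (M * (k + 1)) * (p ^ ((k + 1) ^ (2 * (T * d))) * p ^ e) := by ring
        _ ≤ (p ^ r - 1) * (B ^ ((k + 1) ^ (2 * (T * d))) * B ^ e) := h7
        _ ≤ (p ^ r - 1) * (B ^ ((k + 1) ^ (2 * (T * d))) * p ^ e) :=
            Nat.mul_le_mul_left _ (Nat.mul_le_mul_left _ (Nat.pow_le_pow_left hBp e))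
        _ = (p ^ r - 1) * B ^ ((k + 1) ^ (2 * (T * d))) * p ^ e := by ring
    have h10 := Nat.le_of_mul_le_mul_right h9 (Nat.pow_pos (by omega))
    refine le_trans ?_ h10
    refine Nat.mul_le_mul_right _ ?_
    rw [mul_assoc]
    exact Nat.mul_le_mul_left _ (Nat.mul_le_mul_left _ (Nat.le_succ k))
  · refine rot T hT κ0 _ _ hκ0 hprr (by positivity) ?_ ?_
    · refine h8.trans (le_of_eq ?_)
      rw [← pow_mul, mul_comm d T]
    · have h9 : (2 : ℝ) ^ (2 * (T : ℝ) * (T + 1) / κ0) ≤ (p : ℝ) := by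
        refine (Nat.le_ceil _).trans ?_
        exact_mod_cast (le_max_right _ _).trans hp
      refine h9.trans ?_
      have h10 : p ≤ p ^ r := Nat.le_self_pow (by omega) p
      exact_mod_cast h10

/-! ## Part E: all fields -/

/-- the statement for one field -/
def Gt (T d k : ℕ) (κ C : ℝ) (F : Type) [Field F] [Fintype F] : Prop :=
  ∀ f : Fin T → MvPolynomial (Fin d ⊕ Fin d) F, (∀ i, (f i).totalDegree ≤ k) →
    ∀ (V : Type) [Fintype V] (G : SimpleGraph V) (x : V → Fin d → F) (z : V → F),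
      (∀ i u, 2 * z u ≠ eval (Sum.elim (x u) (x u)) (f i)) →
      (∀ u v, G.Adj u v → ∃ i, z u + z v = eval (Sum.elim (x u) (x v)) (f i)) →
      ∃ I : Finset V, G.IsIndepSet (I : Set V) ∧
        (Fintype.card V : ℝ) ≤ C * (Fintype.card F : ℝ) ^ ((d : ℝ) - κ) * I.card

theorem trt (T d k : ℕ) (κ : ℝ) (F : Type) [Field F] [Fintype F] :
    Gt T d k κ ((Fintype.card F : ℝ) ^ (1 + κ)) F := by
  classical
  intro f hf V _ G x z hna hG
  have hQ : (0 : ℝ) < (Fintype.card F : ℝ) := by exact_mod_cast Fintype.card_pos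
  obtain ⟨w, -, hw⟩ := Finset.exists_max_image (Finset.univ : Finset ((Fin d → F) × F))
    (fun w => (Finset.univ.filter fun v : V => (x v, z v) = w).card) ⟨(fun _ => 0, 0), Finset.mem_univ _⟩
  refine ⟨Finset.univ.filter fun v : V => (x v, z v) = w, ?_, ?_⟩
  · intro a ha b hb _ hab
    have ha' : (x a, z a) = w := by simpa using ha
    have hb' : (x b, z b) = w := by simpa using hb
    obtain ⟨i, h1⟩ := hG a b hab
    have hx : x b = x a := by rw [← ha'] at hb'; exact (Prod.mk.inj hb').1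
    have hz : z b = z a := by rw [← ha'] at hb'; exact (Prod.mk.inj hb').2
    rw [hx, hz] at h1
    exact hna i a (by rw [← h1]; ring)
  · have h1 : Fintype.card V = ∑ j : (Fin d → F) × F, (Finset.univ.filter fun v : V => (x v, z v) = j).card := by
      rw [← Finset.card_univ]
      exact Finset.card_eq_sum_card_fiberwise (fun v _ => Finset.mem_univ _)
    have h2 : Fintype.card V ≤ Fintype.card F ^ (d + 1) * (Finset.univ.filter fun v : V => (x v, z v) = w).card := by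
      rw [h1]
      calc ∑ j : (Fin d → F) × F, (Finset.univ.filter fun v : V => (x v, z v) = j).card
          ≤ ∑ _j : (Fin d → F) × F, (Finset.univ.filter fun v : V => (x v, z v) = w).card :=
            Finset.sum_le_sum fun j hj => hw j hj
        _ = Fintype.card F ^ (d + 1) * (Finset.univ.filter fun v : V => (x v, z v) = w).card := by
            rw [Finset.sum_const, Finset.card_univ, Fintype.card_prod, Fintype.card_fun, Fintype.card_fin, pow_succ,
              smul_eq_mul]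
    have h3 : (Fintype.card F : ℝ) ^ (1 + κ) * (Fintype.card F : ℝ) ^ ((d : ℝ) - κ) = (Fintype.card F : ℝ) ^ (d + 1) := by
      rw [← Real.rpow_add hQ]
      have : (1 + κ) + ((d : ℝ) - κ) = ((d + 1 : ℕ) : ℝ) := by push_cast; ring
      rw [this, Real.rpow_natCast]
    rw [h3]
    exact_mod_cast h2

theorem mnt {T d k : ℕ} {κ κ' C C' : ℝ} {F : Type} [Field F] [Fintype F] (h : Gt T d k κ C F) (hκ : κ' ≤ κ) (hC : C ≤ C')
    (hC0 : 0 ≤ C') : Gt T d k κ' C' F := by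
  intro f hf V _ G x z hna hG
  obtain ⟨I, hI, hn⟩ := h f hf V G x z hna hG
  have hQ : (1 : ℝ) < (Fintype.card F : ℝ) := by exact_mod_cast Fintype.one_lt_card
  have hI0 : (0 : ℝ) ≤ (I.card : ℝ) := by positivity
  have hpow0 : 0 < (Fintype.card F : ℝ) ^ ((d : ℝ) - κ) := Real.rpow_pos_of_pos (by linarith) _
  have hpow1 : (Fintype.card F : ℝ) ^ ((d : ℝ) - κ) ≤ (Fintype.card F : ℝ) ^ ((d : ℝ) - κ') :=
    Real.rpow_le_rpow_of_exponent_le hQ.le (by linarith)
  refine ⟨I, hI, ?_⟩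
  calc (Fintype.card V : ℝ) ≤ C * (Fintype.card F : ℝ) ^ ((d : ℝ) - κ) * I.card := hn
    _ ≤ C' * (Fintype.card F : ℝ) ^ ((d : ℝ) - κ) * I.card := by
        apply mul_le_mul_of_nonneg_right _ hI0
        exact mul_le_mul_of_nonneg_right hC hpow0.le
    _ ≤ C' * (Fintype.card F : ℝ) ^ ((d : ℝ) - κ') * I.card := by
        apply mul_le_mul_of_nonneg_right _ hI0
        exact mul_le_mul_of_nonneg_left hpow1 hC0

theorem fnt (T d k : ℕ) (hT : 1 ≤ T) (hd : 1 ≤ d) :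
    ∃ κ : ℝ, 0 < κ ∧ ∃ C : ℝ, ∀ (F : Type) [Field F] [Fintype F], Gt T d k κ C F := by
  obtain ⟨κa, hκa, R0, hR0, ha⟩ := pat T d k hT hd
  obtain ⟨κb, hκb, p0, hb⟩ := pbr T T d k R0 hT hT hd
  have hκ : 0 < min κa κb := lt_min hκa hκb
  refine ⟨min κa κb, hκ, max 1 ((((max p0 3) ^ R0 : ℕ) : ℝ) ^ (1 + min κa κb)), ?_⟩
  intro F _ _
  obtain ⟨p, hchar⟩ := CharP.exists F
  obtain ⟨⟨r, hr⟩, hp, hcard⟩ := FiniteField.card F p
  have hcard : Fintype.card F = p ^ r := hcard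
  have _ : Fact p.Prime := ⟨hp⟩
  let _ : Algebra (ZMod p) F := ZMod.algebra F p
  have hQ : (1 : ℝ) < (Fintype.card F : ℝ) := by exact_mod_cast Fintype.one_lt_card
  have hQ0 : (0 : ℝ) < (Fintype.card F : ℝ) := by linarith
  have hfin : r = Module.finrank (ZMod p) F := by
    have h1 := Module.card_eq_pow_finrank (K := ZMod p) (V := F)
    rw [ZMod.card, hcard] at h1
    exact Nat.pow_right_injective hp.two_le h1
  have conc : ∀ (κ Y : ℝ) (n i : ℕ), 2 ^ (T + 1) * ((p ^ r : ℕ) : ℝ) ^ κ ≤ Y →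
      (n : ℝ) * Y ≤ 2 ^ (T + 1) * (Fintype.card F : ℝ) ^ d * i →
      (n : ℝ) ≤ 1 * (Fintype.card F : ℝ) ^ ((d : ℝ) - κ) * i := by
    intro κ Y n i h1 h2
    rw [← hcard] at h1
    have hk : 0 < (2 : ℝ) ^ (T + 1) * (Fintype.card F : ℝ) ^ κ := by positivity
    have h3 : (n : ℝ) * (2 ^ (T + 1) * (Fintype.card F : ℝ) ^ κ) ≤ 2 ^ (T + 1) * (Fintype.card F : ℝ) ^ d * i :=
      (mul_le_mul_of_nonneg_left h1 (Nat.cast_nonneg n)).trans h2
    have h4 : (Fintype.card F : ℝ) ^ d = (Fintype.card F : ℝ) ^ ((d : ℝ) - κ) * (Fintype.card F : ℝ) ^ κ := by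
      rw [← Real.rpow_add hQ0, sub_add_cancel, Real.rpow_natCast]
    have h5 : (n : ℝ) * (2 ^ (T + 1) * (Fintype.card F : ℝ) ^ κ) ≤
        (1 * (Fintype.card F : ℝ) ^ ((d : ℝ) - κ) * i) * (2 ^ (T + 1) * (Fintype.card F : ℝ) ^ κ) := by
      rw [h4] at h3
      refine h3.trans (le_of_eq ?_)
      ring
    exact le_of_mul_le_mul_right h5 hk
  rcases le_or_gt R0 r with h | h
  · have hg : Gt T d k κa 1 F := by
      intro f hf V _ G x z hna hG
      obtain ⟨t, ht, h1, h2⟩ := ha p r hp.two_le h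
      obtain ⟨I, hI, hn⟩ := bgt (K := ZMod p) T d k t (by rw [← hfin]; exact ht) f hf G x z hna hG
        (by rw [ZMod.card, hcard]; exact h1)
      refine ⟨I, hI, conc κa (((p ^ t : ℕ) : ℝ) ^ d) _ _ h2 ?_⟩
      rw [ZMod.card] at hn
      exact_mod_cast hn
    exact mnt hg (min_le_left _ _) (le_max_left _ _) (le_trans zero_le_one (le_max_left _ _))
  · rcases le_or_gt (max p0 3) p with h' | h'
    · have hg : Gt T d k κb 1 F := by
        intro f hf V _ G x z hna hG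
        obtain ⟨B, B', R, h1, h2, h3, h4, h5, h6, h7, h8⟩ := hb p r ((le_max_left _ _).trans h') hr h.le
        have hp2 : p ≠ 2 := by
          have := (le_max_right p0 3).trans h'
          omega
        obtain ⟨I, hI, hn⟩ := smt p hp2 T T d k le_rfl hT f hf G x z hna hG B B' R h1 h2 h3 h4 h5 h6
          (by rw [hcard]; exact h7)
        refine ⟨I, hI, conc κb (((R : ℝ) + 1) ^ d) _ _ h8 ?_⟩
        exact_mod_cast hn
      exact mnt hg (min_le_right _ _) (le_max_left _ _) (le_trans zero_le_one (le_max_left _ _))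
    · refine mnt (trt T d k (min κa κb) F) le_rfl ?_ (le_trans zero_le_one (le_max_left _ _))
      refine le_trans ?_ (le_max_right _ _)
      apply Real.rpow_le_rpow hQ0.le _ (by linarith)
      rw [hcard]
      have h1 : p ^ r ≤ (max p0 3) ^ R0 :=
        (Nat.pow_le_pow_left h'.le r).trans (Nat.pow_le_pow_right (by positivity) h.le)
      exact_mod_cast h1

/-! ## Part F: the chromatic number -/

/-- the graph of all labels without the absolute ones -/
def lgt {F : Type} [Field F] {T d : ℕ} (f : Fin T → MvPolynomial (Fin d ⊕ Fin d) F) :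
    SimpleGraph {w : (Fin d → F) × F // ∀ i, 2 * w.2 ≠ eval (Sum.elim w.1 w.1) (f i)} where
  Adj a b := (∃ i, a.1.2 + b.1.2 = eval (Sum.elim a.1.1 b.1.1) (f i)) ∧
    ∃ i, b.1.2 + a.1.2 = eval (Sum.elim b.1.1 a.1.1) (f i)
  symm := ⟨fun _ _ h => ⟨h.2, h.1⟩⟩
  loopless := ⟨fun a h => by
    obtain ⟨i, hi⟩ := h.1
    exact a.2 i (by rw [← hi]; ring)⟩

theorem clt {T d k : ℕ} {κ C : ℝ} {F : Type} [Field F] [Fintype F] (h : Gt T d k κ C F) (hC : 1 ≤ C) (hκ : κ ≤ d)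
    (f : Fin T → MvPolynomial (Fin d ⊕ Fin d) F) (hf : ∀ i, (f i).totalDegree ≤ k)
    (V : Type) (G : SimpleGraph V) (x : V → Fin d → F) (z : V → F)
    (hna : ∀ i u, 2 * z u ≠ eval (Sum.elim (x u) (x u)) (f i))
    (hG : ∀ u v, G.Adj u v → ∃ i, z u + z v = eval (Sum.elim (x u) (x v)) (f i)) :
    ∃ c : ℕ, (c : ℝ) ≤ C * (Fintype.card F : ℝ) ^ ((d : ℝ) - κ) * Real.log ((Fintype.card F : ℝ) ^ (d + 1)) + 1 ∧
      G.Colorable c := by
  classical
  have hQ : (1 : ℝ) < (Fintype.card F : ℝ) := by exact_mod_cast Fintype.one_lt_card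
  have hM : 1 ≤ C * (Fintype.card F : ℝ) ^ ((d : ℝ) - κ) := by
    have h1 : 1 ≤ (Fintype.card F : ℝ) ^ ((d : ℝ) - κ) := Real.one_le_rpow hQ.le (by linarith)
    nlinarith
  obtain ⟨c, hc, hcol⟩ := grd (lgt f) (C * (Fintype.card F : ℝ) ^ ((d : ℝ) - κ)) ((Fintype.card F : ℝ) ^ (d + 1)) hM
    (one_le_pow₀ hQ.le)
    (by
      have h1 : Fintype.card {w : (Fin d → F) × F // ∀ i, 2 * w.2 ≠ eval (Sum.elim w.1 w.1) (f i)} ≤
          Fintype.card ((Fin d → F) × F) := Fintype.card_subtype_le _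
      have h2 : Fintype.card ((Fin d → F) × F) = Fintype.card F ^ (d + 1) := by
        rw [Fintype.card_prod, Fintype.card_fun, Fintype.card_fin, pow_succ]
      rw [h2] at h1
      exact_mod_cast h1)
    (by
      intro S
      obtain ⟨I, hI, hn⟩ := h f hf S ((lgt f).comap (fun a : S => a.1)) (fun a => a.1.1.1) (fun a => a.1.1.2)
        (fun i a => a.1.2 i) (fun a b hab => hab.1)
      refine ⟨I.map (Function.Embedding.subtype _), ?_, ?_, ?_⟩
      · intro a ha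
        obtain ⟨b, _, rfl⟩ := Finset.mem_map.mp ha
        exact b.2
      · intro a ha b hb hab hadj
        obtain ⟨a', ha', rfl⟩ := Finset.mem_map.mp (by exact_mod_cast ha)
        obtain ⟨b', hb', rfl⟩ := Finset.mem_map.mp (by exact_mod_cast hb)
        exact hI (by exact_mod_cast ha') (by exact_mod_cast hb') (fun e => hab (by rw [e])) hadj
      · rw [Finset.card_map]
        simpa using hn)
  refine ⟨c, hc, ?_⟩
  exact hcol.of_hom (⟨fun v => ⟨(x v, z v), fun i => hna i v⟩, fun {a b} hab => ⟨hG a b hab, hG b a hab.symm⟩⟩ : G →g lgt f)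

theorem clr (T d k : ℕ) (hT : 1 ≤ T) (hd : 1 ≤ d) :
    ∃ κ : ℝ, 0 < κ ∧ ∃ C : ℝ, ∀ (F : Type) [Field F] [Fintype F] (f : Fin T → MvPolynomial (Fin d ⊕ Fin d) F),
      (∀ i, (f i).totalDegree ≤ k) →
      ∀ (V : Type) (G : SimpleGraph V) (x : V → Fin d → F) (z : V → F),
        (∀ i u, 2 * z u ≠ eval (Sum.elim (x u) (x u)) (f i)) →
        (∀ u v, G.Adj u v → ∃ i, z u + z v = eval (Sum.elim (x u) (x v)) (f i)) →
        ∃ c : ℕ, (c : ℝ) ≤ C * (Fintype.card F : ℝ) ^ ((d : ℝ) - κ) ∧ G.Colorable c := by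
  obtain ⟨κ0, hκ0, C0, hC0⟩ := fnt T d k hT hd
  set κ1 : ℝ := min κ0 1 with hκ1def
  have hκ1 : 0 < κ1 := lt_min hκ0 one_pos
  have hκ1' : κ1 ≤ 1 := min_le_right _ _
  set C1 : ℝ := max C0 1 with hC1def
  have hC1 : 1 ≤ C1 := le_max_right _ _
  have hd1 : (1 : ℝ) ≤ (d : ℝ) := by exact_mod_cast hd
  refine ⟨κ1 / 2, by positivity, C1 * ((d : ℝ) + 1) * (2 / κ1) + 1, ?_⟩
  intro F _ _ f hf V G x z hna hG
  have hQ : (1 : ℝ) < (Fintype.card F : ℝ) := by exact_mod_cast Fintype.one_lt_card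
  have hg : Gt T d k κ1 C1 F := mnt (hC0 F) (min_le_left _ _) (le_max_left _ _) (by linarith)
  obtain ⟨c, hc, hcol⟩ := clt hg hC1 (by linarith) f hf V G x z hna hG
  set Q : ℝ := (Fintype.card F : ℝ) with hQdef
  have hQ0 : 0 < Q := by linarith
  refine ⟨c, ?_, hcol⟩
  have h1 : Real.log (Q ^ (d + 1)) ≤ ((d : ℝ) + 1) * (Q ^ (κ1 / 2) / (κ1 / 2)) := by
    rw [Real.log_pow]
    push_cast
    apply mul_le_mul_of_nonneg_left _ (by linarith)
    exact Real.log_le_rpow_div hQ0.le (by positivity)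
  have h2 : (1 : ℝ) ≤ Q ^ ((d : ℝ) - κ1 / 2) := Real.one_le_rpow hQ.le (by linarith)
  have h3 : 0 < Q ^ ((d : ℝ) - κ1) := Real.rpow_pos_of_pos hQ0 _
  have h4 : Q ^ ((d : ℝ) - κ1) * Q ^ (κ1 / 2) = Q ^ ((d : ℝ) - κ1 / 2) := by
    rw [← Real.rpow_add hQ0]
    congr 1
    ring
  calc (c : ℝ) ≤ C1 * Q ^ ((d : ℝ) - κ1) * Real.log (Q ^ (d + 1)) + 1 := hc
    _ ≤ C1 * Q ^ ((d : ℝ) - κ1) * (((d : ℝ) + 1) * (Q ^ (κ1 / 2) / (κ1 / 2))) + Q ^ ((d : ℝ) - κ1 / 2) := by
        have h5 : 0 ≤ C1 * Q ^ ((d : ℝ) - κ1) := by positivity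
        have := mul_le_mul_of_nonneg_left h1 h5
        linarith
    _ = C1 * ((d : ℝ) + 1) * (2 / κ1) * (Q ^ ((d : ℝ) - κ1) * Q ^ (κ1 / 2)) + Q ^ ((d : ℝ) - κ1 / 2) := by
        field_simp
    _ = (C1 * ((d : ℝ) + 1) * (2 / κ1) + 1) * Q ^ ((d : ℝ) - κ1 / 2) := by
        rw [h4]; ring

/-! ## Part G: `C₄`-free graphs with the absolute vertices -/

/-- the number of absolute vertices -/
theorem abt {F : Type} [Field F] [Fintype F] (T d e k : ℕ) (f : Fin T → MvPolynomial (Fin d ⊕ Fin d) F)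
    (hf : ∀ i, (f i).totalDegree ≤ k)
    (hD : (2 : F) = 0 → ∀ i, rename (Sum.elim id id : Fin d ⊕ Fin d → Fin d) (f i) ≠ 0)
    {V : Type} [Fintype V] (x : V → Fin d → F) (y : V → Fin e → F) (z : V → F)
    (hinj : Function.Injective fun v => (x v, y v, z v))
    (ha : ∀ u, ∃ i, 2 * z u = eval (Sum.elim (x u) (x u)) (f i)) :
    Fintype.card V ≤ T * ((k + 1) * Fintype.card F ^ (d + e)) := by
  classical
  choose g hg using ha
  have h1 : Fintype.card V = ∑ i : Fin T, (Finset.univ.filter fun v : V => g v = i).card := by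
    rw [← Finset.card_univ]
    exact Finset.card_eq_sum_card_fiberwise (fun v _ => Finset.mem_univ _)
  rw [h1]
  calc ∑ i : Fin T, (Finset.univ.filter fun v : V => g v = i).card
      ≤ ∑ _i : Fin T, (k + 1) * Fintype.card F ^ (d + e) := by
        refine Finset.sum_le_sum fun i _ => ?_
        have h2 := abn d e k (f i) (hf i) (fun h => hD h i) (V := {v : V // g v = i})
          (fun v => x v.1) (fun v => y v.1) (fun v => z v.1)
          (fun u v huv => Subtype.ext (hinj huv)) (fun v => by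
            have h3 := hg v.1
            rw [v.2] at h3
            exact h3)
        rw [Fintype.card_subtype] at h2
        exact h2
    _ = T * ((k + 1) * Fintype.card F ^ (d + e)) := by
        rw [Finset.sum_const, Finset.card_univ, Fintype.card_fin, smul_eq_mul]

theorem cft (T d k : ℕ) (hd : 1 ≤ d) (κ0 C0 : ℝ) {F : Type} [Field F] [Fintype F]
    (f : Fin T → MvPolynomial (Fin d ⊕ Fin d) F) (hf : ∀ i, (f i).totalDegree ≤ k)
    (hcol : ∀ (V : Type) (G : SimpleGraph V) (x : V → Fin d → F) (z : V → F),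
        (∀ i u, 2 * z u ≠ eval (Sum.elim (x u) (x u)) (f i)) →
        (∀ u v, G.Adj u v → ∃ i, z u + z v = eval (Sum.elim (x u) (x v)) (f i)) →
        ∃ c : ℕ, (c : ℝ) ≤ C0 * (Fintype.card F : ℝ) ^ ((d : ℝ) - κ0) ∧ G.Colorable c)
    (hD : (2 : F) = 0 → ∀ i, rename (Sum.elim id id : Fin d ⊕ Fin d → Fin d) (f i) ≠ 0)
    (V : Type) (G : SimpleGraph V) (x : V → Fin d → F) (y : V → Fin (d - 1) → F) (z : V → F)
    (hinj : Function.Injective fun v => (x v, y v, z v)) (h4 : C4F G)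
    (hG : ∀ u v, G.Adj u v → ∃ i, z u + z v = eval (Sum.elim (x u) (x v)) (f i)) :
    ∃ c : ℕ, (c : ℝ) ≤ C0 * (Fintype.card F : ℝ) ^ ((d : ℝ) - κ0) +
      (2 * (((T * (k + 1) : ℕ) : ℝ) + 1) * (((T * (k + 1) : ℕ) : ℝ) + 1 + 8 * d) + 1) *
        (Fintype.card F : ℝ) ^ ((d : ℝ) - 1 / 4) ∧ G.Colorable c := by
  classical
  have hQ : (1 : ℝ) < (Fintype.card F : ℝ) := by exact_mod_cast Fintype.one_lt_card
  obtain ⟨c1, hc1, hcol1⟩ := hcol {v | ¬ ∃ i, 2 * z v = eval (Sum.elim (x v) (x v)) (f i)}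
    (G.induce {v | ¬ ∃ i, 2 * z v = eval (Sum.elim (x v) (x v)) (f i)}) (fun v => x v.1) (fun v => z v.1)
    (fun i v h => v.2 ⟨i, h⟩) (fun u v huv => hG u.1 v.1 (by simpa using huv))
  have _ : Finite V := Finite.of_injective _ hinj
  let _ : Fintype V := Fintype.ofFinite V
  obtain ⟨hN1, hN2⟩ := nlg d (T * (k + 1)) hd (Fintype.card F : ℝ) _ hQ rfl
  have hA : (Fintype.card {v | ∃ i, 2 * z v = eval (Sum.elim (x v) (x v)) (f i)} : ℝ) ≤
      (((T * (k + 1) : ℕ) : ℝ) + 1) * (Fintype.card F : ℝ) ^ (d + (d - 1)) := by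
    have h1 := abt T d (d - 1) k f hf hD (V := {v | ∃ i, 2 * z v = eval (Sum.elim (x v) (x v)) (f i)})
      (fun v => x v.1) (fun v => y v.1) (fun v => z v.1)
      (fun u v huv => Subtype.ext (hinj huv)) (fun v => v.2)
    have h2 : (Fintype.card {v | ∃ i, 2 * z v = eval (Sum.elim (x v) (x v)) (f i)} : ℝ) ≤
        ((T * (k + 1) : ℕ) : ℝ) * (Fintype.card F : ℝ) ^ (d + (d - 1)) := by
      rw [← mul_assoc] at h1
      exact_mod_cast h1
    have h3 : (0 : ℝ) ≤ (Fintype.card F : ℝ) ^ (d + (d - 1)) := by positivity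
    linarith
  obtain ⟨c2, hc2, hcol2⟩ := c4c (G.induce {v | ∃ i, 2 * z v = eval (Sum.elim (x v) (x v)) (f i)})
    (fun u v a b huv hab h1 h2 h3 h5 => h4 u.1 v.1 a.1 b.1 (fun h => huv (Subtype.ext h)) (fun h => hab (Subtype.ext h))
      (by simpa using h1) (by simpa using h2) (by simpa using h3) (by simpa using h5)) _ hN1 hA
  refine ⟨c2 + c1, ?_, uco G (fun v => ∃ i, 2 * z v = eval (Sum.elim (x v) (x v)) (f i)) c2 c1 hcol2 hcol1⟩
  push_cast at hN2 hc2 ⊢
  linarith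

/-- the two cases together -/
theorem alt (T d k : ℕ) (hT : 1 ≤ T) (hd : 1 ≤ d) :
    ∃ κ : ℝ, 0 < κ ∧ ∃ C : ℝ, ∀ (F : Type) [Field F] [Fintype F] (f : Fin T → MvPolynomial (Fin d ⊕ Fin d) F),
      (∀ i, (f i).totalDegree ≤ k) →
      ∀ (V : Type) (G : SimpleGraph V) (x : V → Fin d → F) (z : V → F),
        (∀ u v, G.Adj u v → ∃ i, z u + z v = eval (Sum.elim (x u) (x v)) (f i)) →
        ((∀ i u, 2 * z u ≠ eval (Sum.elim (x u) (x u)) (f i)) ∨
          ((∀ u v a b, u ≠ v → a ≠ b → G.Adj u a → G.Adj u b → G.Adj v a → G.Adj v b → False) ∧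
            (∃ y : V → Fin (d - 1) → F, Function.Injective fun v => (x v, y v, z v)) ∧
            ((2 : F) = 0 → ∀ i, rename (Sum.elim id id : Fin d ⊕ Fin d → Fin d) (f i) ≠ 0))) →
        (∃ c : ℕ, (c : ℝ) ≤ C * (Fintype.card F : ℝ) ^ ((d : ℝ) - κ) ∧ G.Colorable c) ∧
        ∀ [Fintype V], (Fintype.card F : ℝ) ^ (2 * (d : ℝ) - κ) ≤ Fintype.card V →
          ∃ I : Finset V, G.IsIndepSet (I : Set V) ∧
            (Fintype.card V : ℝ) ^ ((1 : ℝ) / 2 + κ / (4 * d)) ≤ C * I.card := by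
  obtain ⟨κ0, hκ0, C0, hC0⟩ := clr T d k hT hd
  have hκ : 0 < min κ0 (1 / 4) := lt_min hκ0 (by norm_num)
  refine ⟨min κ0 (1 / 4), hκ, max C0 0 +
    (2 * (((T * (k + 1) : ℕ) : ℝ) + 1) * (((T * (k + 1) : ℕ) : ℝ) + 1 + 8 * d) + 1), ?_⟩
  intro F _ _ f hf V G x z hG hcase
  have hQ : (1 : ℝ) < (Fintype.card F : ℝ) := by exact_mod_cast Fintype.one_lt_card
  set Q : ℝ := (Fintype.card F : ℝ) with hQdef
  have hQ0 : 0 < Q := by linarith
  set K : ℝ := 2 * (((T * (k + 1) : ℕ) : ℝ) + 1) * (((T * (k + 1) : ℕ) : ℝ) + 1 + 8 * d) + 1 with hK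
  have hK0 : 0 ≤ K := by positivity
  have hC00 : 0 ≤ max C0 0 := le_max_right _ _
  have hpos : 0 < Q ^ ((d : ℝ) - min κ0 (1 / 4)) := Real.rpow_pos_of_pos hQ0 _
  have e1 : C0 * Q ^ ((d : ℝ) - κ0) ≤ max C0 0 * Q ^ ((d : ℝ) - min κ0 (1 / 4)) :=
    mul_le_mul (le_max_left _ _)
      (Real.rpow_le_rpow_of_exponent_le hQ.le (by linarith [min_le_left κ0 (1 / 4 : ℝ)]))
      (Real.rpow_nonneg hQ0.le _) hC00
  have e2 : K * Q ^ ((d : ℝ) - 1 / 4) ≤ K * Q ^ ((d : ℝ) - min κ0 (1 / 4)) :=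
    mul_le_mul_of_nonneg_left
      (Real.rpow_le_rpow_of_exponent_le hQ.le (by linarith [min_le_right κ0 (1 / 4 : ℝ)])) hK0
  have hc : ∃ c : ℕ, (c : ℝ) ≤ (max C0 0 + K) * Q ^ ((d : ℝ) - min κ0 (1 / 4)) ∧ G.Colorable c := by
    rcases hcase with hna | ⟨h4, ⟨y, hinj⟩, hD⟩
    · obtain ⟨c, hc, hcol⟩ := hC0 F f hf V G x z hna hG
      refine ⟨c, ?_, hcol⟩
      have := mul_nonneg hK0 hpos.le
      nlinarith
    · obtain ⟨c, hc, hcol⟩ := cft T d k hd κ0 C0 f hf (fun V G x z h1 h2 => hC0 F f hf V G x z h1 h2) hD V G x y z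
        hinj h4 hG
      refine ⟨c, ?_, hcol⟩
      rw [← hQdef] at hc
      nlinarith
  refine ⟨hc, ?_⟩
  intro _ hbig
  obtain ⟨c, hcC, hcol⟩ := hc
  obtain ⟨I, hI, hn⟩ := cla G c hcol
  refine ⟨I, hI, ?_⟩
  apply pwr d hd (min κ0 (1 / 4)) (max C0 0 + K) Q (Fintype.card V : ℝ) (I.card : ℝ) hκ
    ((min_le_right _ _).trans (by norm_num)) hQ _ hbig
  calc (Fintype.card V : ℝ) ≤ (c : ℝ) * I.card := by exact_mod_cast hn
    _ ≤ (max C0 0 + K) * Q ^ ((d : ℝ) - min κ0 (1 / 4)) * I.card :=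
        mul_le_mul_of_nonneg_right hcC (by positivity)

end Pool.Agent.C4i
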